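import Mathlib

/-! # H84L chunk I2: a large Galois number field inside an algebraically closed field -/

set_option autoImplicit false

namespace Pool.Agent.Lib.H84L

open NumberField Polynomial

/-- The image of a number field under an embedding is in an intermediate field which contains the roots of the minimal polynomials of a basis. -/
theorem i2_mem {M : Type} [Field M] [NumberField M] {Ω : Type} [Field Ω] [CharZero Ω] (L : IntermediateField ℚ Ω)
    (h : ∀ i, ∀ z : Ω, aeval z (minpoly ℚ (Module.finBasis ℚ M i)) = 0 → z ∈ L) (τ : M →+* Ω) (x : M) : τ x ∈ L := by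
  have h1 : x = ∑ i, (Module.finBasis ℚ M).repr x i • Module.finBasis ℚ M i := ((Module.finBasis ℚ M).sum_repr x).symm
  have h2 : τ x = ∑ i, ((Module.finBasis ℚ M).repr x i) • τ (Module.finBasis ℚ M i) := by
    conv_lhs => rw [h1]
    rw [map_sum]
    refine Finset.sum_congr rfl fun i _ => ?_
    exact map_rat_smul τ _ _
  rw [h2]
  refine L.sum_mem fun i _ => L.smul_mem ?_
  refine h i _ ?_
  have h3 := minpoly.aeval ℚ (Module.finBasis ℚ M i)
  have h4 : aeval (τ (Module.finBasis ℚ M i)) (minpoly ℚ (Module.finBasis ℚ M i)) =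
      τ (aeval (Module.finBasis ℚ M i) (minpoly ℚ (Module.finBasis ℚ M i))) := by
    rw [Polynomial.aeval_def, Polynomial.aeval_def, Polynomial.hom_eval₂]
    congr 1
    exact Subsingleton.elim _ _
  rw [h4, h3, map_zero]

/-- PROOF. `M = ℚ(θ)`, `E = ℚ(η)` (`Field.exists_primitive_element`), `g = minpoly ℚ θ * minpoly ℚ η * (X ^ k - 1)`, `L = adjoin ℚ (g.rootSet Ω)`: a splitting field of `g`
(`IntermediateField.adjoin_rootSet_isSplittingField`), so finite dimensional and Galois. `τ θ` is a root of `g`, so the range of `τ` is in `L`. An embedding of `E`: `IsAlgClosed.lift` gives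
`E →ₐ[ℚ] Ω`, with range in `L` for the same reason. -/
theorem exists_big (M E : Type) [Field M] [NumberField M] [Field E] [NumberField E] (Ω : Type) [Field Ω] [CharZero Ω] [IsAlgClosed Ω]
    {k : ℕ} (hk : 0 < k) : ∃ L : IntermediateField ℚ Ω, FiniteDimensional ℚ L ∧ IsGalois ℚ L ∧
      (∀ (τ : M →+* Ω) (x : M), τ x ∈ L) ∧ Nonempty (E →+* L) ∧ ∀ z : Ω, z ^ k = 1 → z ∈ L := by
  classical
  let g : ℚ[X] := (∏ i, minpoly ℚ (Module.finBasis ℚ M i)) * (∏ i, minpoly ℚ (Module.finBasis ℚ E i)) * (X ^ k - 1)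
  have hg0 : g ≠ 0 := by
    refine mul_ne_zero (mul_ne_zero (Finset.prod_ne_zero_iff.2 fun i _ => ?_) (Finset.prod_ne_zero_iff.2 fun i _ => ?_)) (X_pow_sub_C_ne_zero hk 1)
    · exact minpoly.ne_zero (Algebra.IsIntegral.isIntegral _)
    · exact minpoly.ne_zero (Algebra.IsIntegral.isIntegral _)
  have hroot : ∀ z : Ω, aeval z g = 0 → z ∈ IntermediateField.adjoin ℚ (g.rootSet Ω) := fun z hz =>
    IntermediateField.subset_adjoin ℚ _ ((Polynomial.mem_rootSet_of_ne hg0).2 hz)
  have hM : ∀ i, ∀ z : Ω, aeval z (minpoly ℚ (Module.finBasis ℚ M i)) = 0 → z ∈ IntermediateField.adjoin ℚ (g.rootSet Ω) := by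
    intro i z hz
    refine hroot z ?_
    have h1 : aeval z (∏ i, minpoly ℚ (Module.finBasis ℚ M i)) = 0 := by
      rw [map_prod]
      exact Finset.prod_eq_zero (Finset.mem_univ i) hz
    change aeval z (_ * _ * _) = 0
    rw [map_mul, map_mul, h1, zero_mul, zero_mul]
  have hE : ∀ i, ∀ z : Ω, aeval z (minpoly ℚ (Module.finBasis ℚ E i)) = 0 → z ∈ IntermediateField.adjoin ℚ (g.rootSet Ω) := by
    intro i z hz
    refine hroot z ?_
    have h1 : aeval z (∏ i, minpoly ℚ (Module.finBasis ℚ E i)) = 0 := by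
      rw [map_prod]
      exact Finset.prod_eq_zero (Finset.mem_univ i) hz
    change aeval z (_ * _ * _) = 0
    rw [map_mul, map_mul, h1, mul_zero, zero_mul]
  have hsplit : g.IsSplittingField ℚ (IntermediateField.adjoin ℚ (g.rootSet Ω)) :=
    IntermediateField.adjoin_rootSet_isSplittingField (IsAlgClosed.splits _)
  have hfd : FiniteDimensional ℚ (IntermediateField.adjoin ℚ (g.rootSet Ω)) := Polynomial.IsSplittingField.finiteDimensional _ g
  have hnor : Normal ℚ (IntermediateField.adjoin ℚ (g.rootSet Ω)) := Normal.of_isSplittingField g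
  refine ⟨IntermediateField.adjoin ℚ (g.rootSet Ω), hfd, ⟨⟩, i2_mem _ hM, ?_, ?_⟩
  · let τ : E →+* Ω := (IsAlgClosed.lift : E →ₐ[ℚ] Ω).toRingHom
    exact ⟨τ.codRestrict (IntermediateField.adjoin ℚ (g.rootSet Ω)).toSubfield fun x => i2_mem _ hE τ x⟩
  · intro z hz
    refine hroot z ?_
    change aeval z (_ * _ * (X ^ k - 1)) = 0
    rw [map_mul, map_sub, map_pow, aeval_X, hz, map_one, sub_self, mul_zero]

end Pool.Agent.Lib.H84L
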