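import Pool.Agent.Lib.H84L.I0
import Pool.Agent.Lib.CFT.B06

/-! # H84L chunk I3: primes under an embedding -/

set_option autoImplicit false

namespace Pool.Agent.Lib.H84L

open NumberField IsDedekindDomain CFT

variable {M : Type} [Field M] [NumberField M] {L : Type} [Field L] [NumberField L]

/-- PROOF. By definition (`under`, `RingOfIntegers.mapRingHom`; `algebraMap (𝓞 M) (𝓞 L)` is the restriction of `σ`). -/
theorem mem_pull (σ : M →+* L) (w : Pr L) (x : 𝓞 M) : x ∈ (pull σ w).asIdeal ↔ RingOfIntegers.mapRingHom σ x ∈ w.asIdeal := by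
  letI := σ.toAlgebra
  have h1 : x ∈ (pull σ w).asIdeal ↔ algebraMap (𝓞 M) (𝓞 L) x ∈ w.asIdeal := Iff.rfl
  rw [h1]
  have h2 : algebraMap (𝓞 M) (𝓞 L) x = RingOfIntegers.mapRingHom σ x := by
    apply RingOfIntegers.ext
    rfl
  rw [h2]

/-- PROOF. `letI := σ.toAlgebra`; `od_alg`: `od w (σ x) = e * od (pull σ w) x`; for `x = p`: `1 = e * od (pull σ w) p`, so `e = 1` (`e ≥ 0`, integers). -/
theorem od_pull (σ : M →+* L) {w : Pr L} {p : ℕ} (h : od w (p : L) = 1) (x : M) : od w (σ x) = od (pull σ w) x := by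
  letI := σ.toAlgebra
  have h1 : ∀ y : M, od w (σ y) = (w.asIdeal.ramificationIdx (𝓞 M) : ℤ) * od (pull σ w) y := fun y => od_alg y w
  have h2 := h1 (p : M)
  rw [map_natCast, h] at h2
  have h3 : (w.asIdeal.ramificationIdx (𝓞 M) : ℤ) = 1 := by
    have h4 : IsUnit (w.asIdeal.ramificationIdx (𝓞 M) : ℤ) := IsUnit.of_mul_eq_one _ h2.symm
    rcases Int.isUnit_iff.1 h4 with h5 | h5
    · exact h5
    · have : (0 : ℤ) ≤ (w.asIdeal.ramificationIdx (𝓞 M) : ℤ) := Int.natCast_nonneg _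
      omega
  rw [h1 x, h3, one_mul]

/-- PROOF. `Nm_below`: `p = Nm w = (Nm (pull σ w)) ^ f` with `f ≥ 1`, and `p` is prime. -/
theorem Nm_pull (σ : M →+* L) {w : Pr L} {p : ℕ} (hp : p.Prime) (h : Nm w = p) : Nm (pull σ w) = p := by
  letI := σ.toAlgebra
  have h1 : Nm w = Nm (pull σ w) ^ w.asIdeal.inertiaDeg (𝓞 M) := Nm_below w
  rw [h] at h1
  have h2 : w.asIdeal.inertiaDeg (𝓞 M) = 1 := by
    have h3 : Prime p := hp.prime
    rw [h1] at hp
    exact (Nat.Prime.eq_one_of_pow hp)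
  rw [h2, pow_one] at h1
  exact h1.symm

/-- PROOF. `below_surj`: every prime `u` of `M` is `pull σ w` for some `w`; `(p : 𝓞 L) ∈ w` because `(p : 𝓞 M) ∈ u` (`mem_pull`); `Nm_pull`. -/
theorem split_down (σ : M →+* L) {p : ℕ} (hp : p.Prime) (h : ∀ w : Pr L, (p : 𝓞 L) ∈ w.asIdeal → Nm w = p) (u : Pr M)
    (hu : (p : 𝓞 M) ∈ u.asIdeal) : Nm u = p := by
  letI := σ.toAlgebra
  obtain ⟨w, hw⟩ := below_surj (K := M) (L := L) u
  have hw' : pull σ w = u := hw
  subst hw'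
  apply Nm_pull σ hp
  apply h
  have h1 := (mem_pull σ w (p : 𝓞 M)).1 hu
  rwa [map_natCast] at h1

end Pool.Agent.Lib.H84L
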