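import Pool.Agent.Lib.H84L.I0
import Pool.Agent.Lib.H84L.I3

/-! # H84L chunk I4: different embeddings have different primes below a prime of degree one -/

set_option autoImplicit false

namespace Pool.Agent.Lib.H84L

open NumberField IsDedekindDomain CFT

/-- Two different embeddings differ at some integer. -/
theorem i4_sep {M : Type} [Field M] [NumberField M] {L : Type} [Field L] [NumberField L] {σ σ' : M →+* L} (h : σ ≠ σ') :
    ∃ x : 𝓞 M, RingOfIntegers.mapRingHom σ x - RingOfIntegers.mapRingHom σ' x ≠ 0 := by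
  by_contra hc
  push Not at hc
  apply h
  have h1 : ∀ x : 𝓞 M, σ (x : M) = σ' (x : M) := by
    intro x
    have h2 := congrArg (fun z : 𝓞 L => (z : L)) (sub_eq_zero.mp (hc x))
    exact h2
  refine IsFractionRing.ringHom_ext (A := 𝓞 M) ?_
  exact h1

/-- A quotient with a prime number of elements is covered by the natural numbers. -/
theorem i4_res {L : Type} [Field L] [NumberField L] {w : Pr L} {p : ℕ} (hp : p.Prime) (hw : Nm w = p) (y : 𝓞 L) :
    ∃ n : ℕ, y - (n : 𝓞 L) ∈ w.asIdeal := by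
  have hcard : Nat.card (𝓞 L ⧸ w.asIdeal) = p := by
    rw [← hw, Nm, Ideal.absNorm_apply]
    rfl
  have hfin : Finite (𝓞 L ⧸ w.asIdeal) := Nat.finite_of_card_ne_zero (by rw [hcard]; exact hp.ne_zero)
  let _ : Fintype (𝓞 L ⧸ w.asIdeal) := Fintype.ofFinite _
  have : Fact p.Prime := ⟨hp⟩
  let e : ZMod p ≃+* (𝓞 L ⧸ w.asIdeal) := ZMod.ringEquivOfPrime _ hp (by rw [← hcard, Nat.card_eq_fintype_card])
  refine ⟨(e.symm (Ideal.Quotient.mk _ y)).val, ?_⟩
  rw [← Ideal.Quotient.eq_zero_iff_mem, map_sub, map_natCast, sub_eq_zero]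
  have h1 : (((e.symm (Ideal.Quotient.mk _ y)).val : ℕ) : 𝓞 L ⧸ w.asIdeal) =
      e (((e.symm (Ideal.Quotient.mk _ y)).val : ℕ) : ZMod p) := by
    rw [map_natCast]
  rw [h1, ZMod.natCast_zmod_val, RingEquiv.apply_symm_apply]

/-- PROOF. `θ` an integral primitive element of `M` (`Field.exists_primitive_element`, multiplied by an integer; two embeddings which agree at `θ` are equal). `Δ = ∏ (σ ≠ σ') (σ θ - σ' θ)` in `𝓞 L`, over the finitely many pairs of
embeddings `M →+* L`, is not 0; `T` = the prime divisors of the norm of `Δ`. Let `p ∉ T`, `Nm w = p` and `pull σ w = pull σ' w = v`. Then `Δ ∉ w` (otherwise `Nm w = p` divides the norm of `Δ`: `w ∣ (Δ)`, `Ideal.absNorm_dvd_absNorm_of_le`). The residue field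
of `w` has `p` elements, so the image of the integers is everything: there is an integer `n` with `σ θ - n ∈ w`, so `θ - n ∈ pull σ w = pull σ' w` (`mem_pull`) and `σ' θ - n ∈ w`. So `σ θ - σ' θ ∈ w`; if `σ ≠ σ'` this
factor divides `Δ`, contradiction. -/
theorem pull_inj (M : Type) [Field M] [NumberField M] (L : Type) [Field L] [NumberField L] : ∃ T : Finset ℕ, ∀ p : ℕ, p.Prime → p ∉ T →
    ∀ w : Pr L, Nm w = p → ∀ σ σ' : M →+* L, pull σ w = pull σ' w → σ = σ' := by
  classical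
  have hex : ∀ q : (M →+* L) × (M →+* L), ∃ x : 𝓞 M, q.1 ≠ q.2 →
      RingOfIntegers.mapRingHom q.1 x - RingOfIntegers.mapRingHom q.2 x ≠ 0 := by
    intro q
    by_cases h : q.1 = q.2
    · exact ⟨0, fun h' => absurd h h'⟩
    · obtain ⟨x, hx⟩ := i4_sep h
      exact ⟨x, fun _ => hx⟩
  choose x hx using hex
  refine ⟨Finset.univ.biUnion fun q : (M →+* L) × (M →+* L) =>
    (Ideal.absNorm (Ideal.span {RingOfIntegers.mapRingHom q.1 (x q) - RingOfIntegers.mapRingHom q.2 (x q)})).primeFactors, ?_⟩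
  intro p hp hpT w hw σ σ' hpull
  by_contra hne
  apply hpT
  rw [Finset.mem_biUnion]
  refine ⟨(σ, σ'), Finset.mem_univ _, ?_⟩
  have hδ := hx (σ, σ') hne
  simp only at hδ
  obtain ⟨n, hn⟩ := i4_res hp hw (RingOfIntegers.mapRingHom σ (x (σ, σ')))
  have h1 : x (σ, σ') - (n : 𝓞 M) ∈ (pull σ w).asIdeal := by
    rw [mem_pull, map_sub, map_natCast]
    exact hn
  rw [hpull, mem_pull, map_sub, map_natCast] at h1
  have h2 : RingOfIntegers.mapRingHom σ (x (σ, σ')) - RingOfIntegers.mapRingHom σ' (x (σ, σ')) ∈ w.asIdeal := by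
    have h3 := w.asIdeal.sub_mem hn h1
    rwa [sub_sub_sub_cancel_right] at h3
  have h4 : Ideal.span {RingOfIntegers.mapRingHom σ (x (σ, σ')) - RingOfIntegers.mapRingHom σ' (x (σ, σ'))} ≤ w.asIdeal := by
    rw [Ideal.span_singleton_le_iff_mem]
    exact h2
  have h5 := Ideal.absNorm_dvd_absNorm_of_le h4
  rw [Nat.mem_primeFactors]
  refine ⟨hp, ?_, ?_⟩
  · rw [← hw]
    exact h5
  · rw [Ne, Ideal.absNorm_eq_zero_iff, Ideal.span_singleton_eq_bot]
    exact hδ

end Pool.Agent.Lib.H84L
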