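import Mathlib

/-! # H84L chunk I5: an element all of whose conjugates are equal -/

set_option autoImplicit false

namespace Pool.Agent.Lib.H84L

theorem i5_field {L A Ω : Type} [Field L] [Field A] [Field Ω] [CharZero L] [Algebra L A] [Algebra L Ω] [Algebra A Ω] [IsScalarTower L A Ω] [IsAlgClosed Ω]
    [Algebra.IsAlgebraic L A] (y : A) (h : ∀ σ : A →ₐ[L] Ω, σ y = algebraMap A Ω y) : y ∈ Set.range (algebraMap L A) := by
  have hint : IsIntegral L y := Algebra.IsIntegral.isIntegral y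
  have hsep : (minpoly L y).Separable := (minpoly.irreducible hint).separable
  have hroot := Algebra.IsAlgebraic.range_eval_eq_rootSet_minpoly (F := L) (K := A) (A := Ω) y
  have hcard : Fintype.card ((minpoly L y).rootSet Ω) = (minpoly L y).natDegree :=
    Polynomial.card_rootSet_eq_natDegree hsep (IsAlgClosed.splits _)
  have hsub : ((minpoly L y).rootSet Ω) ⊆ {algebraMap A Ω y} := by
    rw [← hroot]
    rintro _ ⟨σ, rfl⟩
    exact h σ
  have h1 : (minpoly L y).natDegree ≤ 1 := by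
    rw [← hcard]
    have h2 : Subsingleton ((minpoly L y).rootSet Ω) := by
      refine ⟨fun a b => ?_⟩
      have ha := hsub a.2
      have hb := hsub b.2
      rw [Set.mem_singleton_iff] at ha hb
      exact Subtype.ext (ha.trans hb.symm)
    exact Fintype.card_le_one_iff_subsingleton.2 h2
  have h3 : (minpoly L y).natDegree = 1 := le_antisymm h1 (minpoly.natDegree_pos hint)
  exact minpoly.mem_range_of_degree_eq_one L y (by rw [Polynomial.degree_eq_natDegree (minpoly.ne_zero hint), h3]; rfl)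

/-- PROOF. Let `A = algebraicClosure ℚ Ω` (it contains `L` and `y`, because `y ^ n ∈ L` is algebraic, `n > 0`). Suppose `y ∉ L`. The minimal polynomial of `y` over `L` is separable of degree at least 2, it has a root `y'' ≠ y` in `Ω`
(`IsAlgClosed`), and the `L`-homomorphism `L(y) → Ω`, `y ↦ y''` extends to `A → Ω` (`A` is algebraic over `L(y)`, `IsAlgClosed.lift`, or `IntermediateField.exists_algHom_of_splits` style lemmas; `Algebra.IsAlgebraic.range_eval_eq_rootSet_minpoly` for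
`A` over `L`: every root of the minimal polynomial of `y` over `L` is `σ y` for some `σ : A →ₐ[L] Ω`: this is the shortest way). So `σ y ≠ y`, `(σ y) ^ n = σ (y ^ n) = y ^ n`, so `σ y = ζ y` with `ζ = σ y / y`,
`ζ ^ n = 1` (if `y = 0` then `y ∈ L`), and by hypothesis `ζ = 1`, contradiction. -/
theorem mem_of_conj {Ω : Type} [Field Ω] [CharZero Ω] [IsAlgClosed Ω] (L : IntermediateField ℚ Ω) [FiniteDimensional ℚ L] {y : Ω} {n : ℕ}
    (hn : 0 < n) (hy : y ^ n ∈ L)
    (h : ∀ σ : ↥(algebraicClosure ℚ Ω) →+* Ω, (∀ z : ↥(algebraicClosure ℚ Ω), (z : Ω) ∈ L → σ z = z) →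
      ∀ y' : ↥(algebraicClosure ℚ Ω), (y' : Ω) = y → ∀ ζ : Ω, ζ ^ n = 1 → σ y' = ζ * y → ζ = 1) : y ∈ L := by
  classical
  have hLA : L ≤ algebraicClosure ℚ Ω := by
    intro z hz
    rw [mem_algebraicClosure_iff]
    have h1 : IsAlgebraic ℚ (⟨z, hz⟩ : L) := Algebra.IsAlgebraic.isAlgebraic _
    have h2 := h1.algebraMap (A := Ω)
    exact h2
  have hyA : y ∈ algebraicClosure ℚ Ω := by
    rw [mem_algebraicClosure_iff]
    have h1 := hLA hy
    rw [mem_algebraicClosure_iff] at h1
    exact h1.of_pow hn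
  rcases eq_or_ne y 0 with hy0 | hy0
  · rw [hy0]; exact L.zero_mem
  let _ : Algebra L (algebraicClosure ℚ Ω) := (IntermediateField.inclusion hLA).toRingHom.toAlgebra
  have : IsScalarTower L (algebraicClosure ℚ Ω) Ω := IsScalarTower.of_algebraMap_eq fun _ => rfl
  have : IsScalarTower ℚ L (algebraicClosure ℚ Ω) := IsScalarTower.of_algebraMap_eq fun _ => rfl
  have hA : Algebra.IsAlgebraic ℚ (algebraicClosure ℚ Ω) := by
    refine ⟨fun z => ?_⟩
    have hz : IsAlgebraic ℚ (z : Ω) := (mem_algebraicClosure_iff).1 z.2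
    obtain ⟨P, hP, hP2⟩ := hz
    refine ⟨P, hP, ?_⟩
    apply Subtype.val_injective
    have h7 := Polynomial.hom_eval₂ P (algebraMap ℚ (algebraicClosure ℚ Ω)) (algebraMap (algebraicClosure ℚ Ω) Ω) z
    rw [Subsingleton.elim ((algebraMap (algebraicClosure ℚ Ω) Ω).comp (algebraMap ℚ (algebraicClosure ℚ Ω))) (algebraMap ℚ Ω)] at h7
    rw [Polynomial.aeval_def] at hP2 ⊢
    exact h7.trans hP2
  have : Algebra.IsAlgebraic L (algebraicClosure ℚ Ω) := Algebra.IsAlgebraic.tower_top (K := ℚ) L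
  have key := i5_field (L := L) (A := algebraicClosure ℚ Ω) (Ω := Ω) ⟨y, hyA⟩ (fun σ => by
    have hσ : ∀ z : ↥(algebraicClosure ℚ Ω), (z : Ω) ∈ L → σ.toRingHom z = z := by
      intro z hz
      exact σ.commutes ⟨z, hz⟩
    have hyn : (σ ⟨y, hyA⟩) ^ n = y ^ n := by
      rw [← map_pow]
      exact hσ (⟨y, hyA⟩ ^ n) hy
    have h5 := h σ.toRingHom hσ ⟨y, hyA⟩ rfl (σ ⟨y, hyA⟩ / y) (by rw [div_pow, hyn, div_self (pow_ne_zero _ hy0)])
      (by rw [div_mul_cancel₀ _ hy0]; rfl)
    rw [div_eq_one_iff_eq hy0] at h5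
    exact h5)
  obtain ⟨z, hz⟩ := key
  have h6 : (z : Ω) = y := congrArg Subtype.val hz
  rw [← h6]
  exact z.2

end Pool.Agent.Lib.H84L
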