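import Mathlib
import Pool.Agent.Lib.CFT.D2

/-! # H84L chunk I6: multiples of primes are in the ray class of 0 -/

set_option autoImplicit false

namespace Pool.Agent.Lib.H84L

open NumberField IsDedekindDomain CFT

/-- PROOF. `h` = the index of `Pray S N` (positive: finite index; `AddSubgroup.nsmul_index_mem`, the group is commutative): `h • single v 1 ∈ Pray S N`, that is `x` with `Ray S N x` and `od w x = h * (single v 1) w` for `w ∉ S`; for `w ∈ S`:
`od w x = 0` (`Ray.od_eq`) and `v ≠ w`. -/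
theorem exists_ray_gen {K : Type} [Field K] [NumberField K] (S : Finset (Pr K)) (N : ℕ) (hfin : (Pray S N).FiniteIndex) :
    ∃ h : ℕ, 0 < h ∧ ∀ v : Pr K, v ∉ S → ∃ x : K, Ray S N x ∧ dv x = h • (Finsupp.single v 1 : Dv K) := by
  refine ⟨(Pray S N).index, Nat.pos_of_ne_zero hfin.index_ne_zero, fun v hv => ?_⟩
  obtain ⟨x, hx, h2⟩ : (Pray S N).index • (Finsupp.single v 1 : Dv K) ∈ Pray S N := AddSubgroup.nsmul_index_mem (Pray S N) _
  refine ⟨x, hx, ?_⟩
  ext w
  by_cases hw : w ∈ S
  · have hvw : v ≠ w := fun h => hv (h ▸ hw)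
    rw [dv_apply, hx.od_eq hw, Finsupp.smul_apply, Finsupp.single_eq_of_ne hvw.symm, smul_zero]
  · exact (h2 w hw).symm

end Pool.Agent.Lib.H84L
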