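import Pool.Agent.Lib.H84L.I1
import Pool.Agent.Lib.H84L.I2
import Pool.Agent.Lib.H84L.I3
import Pool.Agent.Lib.H84L.I4
import Pool.Agent.Lib.H84L.I5
import Pool.Agent.Lib.H84L.I6

/-! # H84L chunk I7: the exponents are divisible by `k` -/

set_option autoImplicit false

namespace Pool.Agent.Lib.H84L

open NumberField IsDedekindDomain CFT

theorem i7_od_pow {L : Type} [Field L] [NumberField L] (w : Pr L) {x : L} (hx : x ≠ 0) (n : ℕ) : od w (x ^ n) = (n : ℤ) * od w x := by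
  induction n with
  | zero => rw [pow_zero, od_one, Nat.cast_zero, zero_mul]
  | succ n ih =>
    rw [pow_succ, od_mul w (pow_ne_zero n hx) hx, ih, Nat.cast_succ]
    ring

theorem i7_od_zpow {L : Type} [Field L] [NumberField L] (w : Pr L) {x : L} (hx : x ≠ 0) (n : ℤ) : od w (x ^ n) = n * od w x := by
  obtain ⟨m, hm | hm⟩ := n.eq_nat_or_neg
  · rw [hm, zpow_natCast, i7_od_pow w hx]
  · rw [hm, zpow_neg, zpow_natCast, od_inv, i7_od_pow w hx]
    ring

theorem i7_od_prod {L : Type} [Field L] [NumberField L] (w : Pr L) {ι : Type} (s : Finset ι) (f : ι → L) (hf : ∀ i ∈ s, f i ≠ 0) :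
    od w (∏ i ∈ s, f i) = ∑ i ∈ s, od w (f i) := by
  classical
  induction s using Finset.induction_on with
  | empty => rw [Finset.prod_empty, Finset.sum_empty, od_one]
  | insert a s ha ih =>
    rw [Finset.prod_insert ha, Finset.sum_insert ha,
      od_mul w (hf a (Finset.mem_insert_self a s)) (Finset.prod_ne_zero_iff.2 fun i hi => hf i (Finset.mem_insert_of_mem hi)),
      ih fun i hi => hf i (Finset.mem_insert_of_mem hi)]

/-- There is a prime above a prime number. -/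
theorem i7_above (L : Type) [Field L] [NumberField L] {p : ℕ} (hp : p.Prime) : ∃ w : Pr L, (p : 𝓞 L) ∈ w.asIdeal := by
  have hz : (p : ℤ) ≠ 0 := by exact_mod_cast hp.ne_zero
  have h1 : (Ideal.span {(p : ℤ)}).IsPrime := (Ideal.span_singleton_prime hz).2 (Nat.prime_iff_prime_int.1 hp)
  have h1b : Ideal.span {(p : ℤ)} ≠ ⊥ := by
    rw [Ne, Ideal.span_singleton_eq_bot]
    exact hz
  have h1' : (Ideal.span {(p : ℤ)}).IsMaximal := h1.isMaximal h1b
  obtain ⟨P, hP, hPl⟩ := Ideal.exists_maximal_ideal_liesOver_of_isIntegral (S := 𝓞 L) (Ideal.span {(p : ℤ)})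
  have hmem : (p : 𝓞 L) ∈ P := by
    have h2 : (p : ℤ) ∈ Ideal.span {(p : ℤ)} := Ideal.mem_span_singleton_self _
    rw [hPl.over, Ideal.under_def, Ideal.mem_comap] at h2
    simpa using h2
  refine ⟨⟨P, hP.isPrime, fun hb => ?_⟩, hmem⟩
  rw [hb, Ideal.mem_bot] at hmem
  exact hp.ne_zero (by exact_mod_cast hmem)

/-- PROOF. Fix `τ₀`. `N₀, E, T` from `hprime`, `h'` (positive) from `exists_ray_gen S N`, `n := h' * k`. `L` from `exists_big M E Ω` with the exponent `N₀ * n`; it is a number field (finite dimensional over `ℚ`). `T₁` from `pull_inj M L`.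
`p` from `split_prime L (T ∪ T₁ ∪ S.image Nm)`; `w` a prime of `L` with `p ∈ w` (exists: `p` is not a unit). For `τ : M →+* Ω` let `τ' : M →+* L` be its restriction (`(τ' x : Ω) = τ x`; `τ ↦ τ'` is injective). `v := pull τ₀' w`,
`Nm v = p` (`Nm_pull`), so `v ∉ S`, `(p : 𝓞 M) ∈ v` (`mem_pull`). `x` with `Ray S N x`, `dv x = h' • single v 1`. `y` := the value of `D` at `single v 1`, `f x = y ^ h'`, so `y ^ n = ∏ τ x ^ e τ =: b`, in `L`. By `mem_of_conj`
(`hprime`: the hypothesis on the primes of `E` by `split_down` for `E →+* L`; `σ` fixes the elements of `L`, in particular the `z` with `z ^ N₀ = 1`, which satisfy `z ^ (N₀ n) = 1`) `y ∈ L`. Take the order at `w` in `L`: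
`n * od w y = ∑ τ, e τ * od w (τ' x) = ∑ τ, e τ * od (pull τ' w) x` (`od_pull`, `od w p = 1`) and `od (pull τ' w) x = h' (single v 1) (pull τ' w)` is `h'` for `τ = τ₀` and 0 otherwise (`pull_inj`). So
`h' k od w y = h' e τ₀`. -/
theorem integrality {M : Type} [Field M] [NumberField M] {Ω : Type} [NormedField Ω] [CharZero Ω] [IsAlgClosed Ω] (S : Finset (Pr M))
    (D : Dv M →+ Additive Ωˣ) {N k : ℕ} (hk : 0 < k) (e : (M →+* Ω) → ℤ) (hfin : (Pray S N).FiniteIndex)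
    (h : ∀ x : M, Ray S N x → ((D (dv x)).toMul : Ω) ^ k = ∏ τ : M →+* Ω, τ x ^ e τ)
    (hprime : ∃ N0 : ℕ, 0 < N0 ∧ ∃ (E : Type) (_ : Field E) (_ : NumberField E) (T : Finset ℕ), ∀ p : ℕ, p.Prime → p ∉ T →
      (∀ w : Pr E, (p : 𝓞 E) ∈ w.asIdeal → Nm w = p) → ∀ v : Pr M, (p : 𝓞 M) ∈ v.asIdeal → v ∉ S →
      ∀ σ : ↥(algebraicClosure ℚ Ω) →+* Ω, (∀ z : ↥(algebraicClosure ℚ Ω), z ^ N0 = 1 → σ z = z) →
      ∀ y : ↥(algebraicClosure ℚ Ω), (y : Ω) = ((D (Finsupp.single v 1)).toMul : Ω) →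
      ∀ (ζ : Ω) (j : ℕ), 0 < j → ζ ^ j = 1 → σ y = ζ * y → ζ = 1) :
    ∀ τ : M →+* Ω, (k : ℤ) ∣ e τ := by
  classical
  intro τ₀
  obtain ⟨N₀, hN₀, E, instE, instNE, T, hT⟩ := hprime
  obtain ⟨h', hh', hgen⟩ := exists_ray_gen S N hfin
  have hn : 0 < h' * k := Nat.mul_pos hh' hk
  obtain ⟨L, hLfin, hLgal, hLτ, ⟨ιE⟩, hLroot⟩ := exists_big M E Ω (Nat.mul_pos hN₀ hn)
  have : NumberField L := { to_charZero := inferInstance, to_finiteDimensional := hLfin }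
  obtain ⟨T₁, hT₁⟩ := pull_inj M L
  obtain ⟨p, hp, hpT, hsplit⟩ := split_prime L (T ∪ T₁ ∪ S.image Nm)
  rw [Finset.mem_union, Finset.mem_union, not_or, not_or] at hpT
  obtain ⟨⟨hpT0, hpT1⟩, hpS⟩ := hpT
  obtain ⟨w, hw⟩ := i7_above L hp
  obtain ⟨hwN, hwo⟩ := hsplit w hw
  let τr : (M →+* Ω) → (M →+* L) := fun τ => τ.codRestrict L fun x => hLτ τ x
  have hτr : ∀ (τ : M →+* Ω) (x : M), ((τr τ x : L) : Ω) = τ x := fun _ _ => rfl
  have hτinj : ∀ τ τ' : M →+* Ω, τr τ = τr τ' → τ = τ' := by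
    intro τ τ' hh
    ext x
    rw [← hτr τ x, ← hτr τ' x, hh]
  set v : Pr M := pull (τr τ₀) w with hv
  have hvN : Nm v = p := Nm_pull (τr τ₀) hp hwN
  have hvS : v ∉ S := fun hh => hpS (Finset.mem_image.2 ⟨v, hh, hvN⟩)
  have hpv : (p : 𝓞 M) ∈ v.asIdeal := by
    rw [hv, mem_pull, map_natCast]
    exact hw
  obtain ⟨x, hxr, hxd⟩ := hgen v hvS
  have hx0 : x ≠ 0 := hxr.ne
  set y : Ω := ((D (Finsupp.single v 1)).toMul : Ω) with hy
  have hy0 : y ≠ 0 := Units.ne_zero _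
  have hyn : y ^ (h' * k) = ∏ τ : M →+* Ω, τ x ^ e τ := by
    rw [← h x hxr, hxd, map_nsmul, toMul_nsmul, Units.val_pow_eq_pow_val, ← pow_mul]
  have hprodL : ∏ τ : M →+* Ω, τ x ^ e τ = ((∏ τ : M →+* Ω, (τr τ x) ^ e τ : L) : Ω) := by
    have e1 : ((∏ τ : M →+* Ω, (τr τ x) ^ e τ : L) : Ω) = L.val (∏ τ : M →+* Ω, (τr τ x) ^ e τ) := rfl
    rw [e1, map_prod]
    refine Finset.prod_congr rfl fun τ _ => ?_
    rw [map_zpow₀]
    rfl
  have hyL : y ∈ L := by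
    refine mem_of_conj L hn ?_ ?_
    · rw [hyn, hprodL]
      exact SetLike.coe_mem _
    · intro σ hσ y' hy' ζ hζ hσy
      refine hT p hp hpT0 ?_ v hpv hvS σ ?_ y' hy' ζ (h' * k) hn hζ ?_
      · intro u hu
        exact split_down ιE hp (fun w' hw' => (hsplit w' hw').1) u hu
      · intro z hz
        refine hσ z (hLroot _ ?_)
        have hz' : ((z : Ω)) ^ N₀ = 1 := by
          have := congrArg (fun t : ↥(algebraicClosure ℚ Ω) => (t : Ω)) hz
          simpa using this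
        rw [pow_mul, hz', one_pow]
      · rw [hσy, hy']
  -- the orders
  have hL : (⟨y, hyL⟩ : L) ^ (h' * k) = ∏ τ : M →+* Ω, (τr τ x) ^ e τ := by
    apply Subtype.ext
    rw [← hprodL, ← hyn]
    rfl
  have hyL0 : (⟨y, hyL⟩ : L) ≠ 0 := fun hh => hy0 (congrArg Subtype.val hh)
  have hτ0 : ∀ τ : M →+* Ω, τr τ x ≠ 0 := fun τ => (map_ne_zero (τr τ)).2 hx0
  have h1 := congrArg (od w) hL
  rw [i7_od_pow w hyL0, i7_od_prod w _ _ (fun τ _ => zpow_ne_zero _ (hτ0 τ))] at h1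
  have h2 : ∀ τ : M →+* Ω, od w ((τr τ x) ^ e τ) = if τ = τ₀ then (h' : ℤ) * e τ₀ else 0 := by
    intro τ
    rw [i7_od_zpow w (hτ0 τ), od_pull (τr τ) hwo x, ← dv_apply, hxd, Finsupp.smul_apply]
    split_ifs with hh
    · rw [hh, ← hv, Finsupp.single_eq_same, nsmul_eq_mul, mul_one, mul_comm]
    · rw [Finsupp.single_eq_of_ne, smul_zero, mul_zero]
      intro hc
      exact hh (hτinj _ _ (hT₁ p hp hpT1 w hwN _ _ hc))
  rw [Finset.sum_congr rfl (fun τ _ => h2 τ), Finset.sum_ite_eq' Finset.univ τ₀, if_pos (Finset.mem_univ _)] at h1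
  refine ⟨od w (⟨y, hyL⟩ : L), ?_⟩
  have hh0 : (h' : ℤ) ≠ 0 := by exact_mod_cast hh'.ne'
  apply mul_left_cancel₀ hh0
  rw [← h1, Nat.cast_mul, mul_assoc]

end Pool.Agent.Lib.H84L
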