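import Pool.Agent.Lib.H84L.S1

/-! # H84L chunk S2: sums, powers and products of algebraic integers -/

set_option autoImplicit false

namespace Pool.Agent.Lib.H84L

open Polynomial

variable {Ω : Type} [Field Ω] [CharZero Ω]

/-- The degree over `ℚ` of the field generated by `w`. -/
theorem s2_finrank {B : ℕ} {Q : ℝ} {w : Ω} (h : Bd B Q w) :
    FiniteDimensional ℚ (IntermediateField.adjoin ℚ {w}) ∧ Module.finrank ℚ (IntermediateField.adjoin ℚ {w}) ≤ B := by
  have hi : IsIntegral ℚ w := h.1.tower_top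
  refine ⟨IntermediateField.adjoin.finiteDimensional hi, ?_⟩
  rw [IntermediateField.adjoin.finrank hi, minpoly.isIntegrallyClosed_eq_field_fractions' ℚ h.1,
    (minpoly.monic h.1).natDegree_map]
  exact h.2.1

/-- PROOF. `Bd.of_field` with `E = ℚ(w)` (`IntermediateField.adjoin ℚ {w}`): finite dimensional because `w` is integral over `ℚ`,
`finrank = natDegree (minpoly ℚ w) = natDegree (minpoly ℤ w) ≤ B` (`IntermediateField.adjoin.finrank`). For an
embedding `φ`: `‖φ (∑ R b w ^ b)‖ ≤ ∑ |R b| ‖φ w‖ ^ b ≤ ∑ |R b| Q ^ b` (`Bd.norm_le`). -/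
theorem Bd.lin {B : ℕ} {Q : ℝ} {w : Ω} (h : Bd B Q w) {L : ℕ} (R : Fin L → ℤ) :
    Bd B (∑ b : Fin L, |(R b : ℝ)| * Q ^ (b : ℕ)) (∑ b : Fin L, (R b : Ω) * w ^ (b : ℕ)) := by
  obtain ⟨hfd, hfr⟩ := s2_finrank h
  set E := IntermediateField.adjoin ℚ {w} with hE
  have hw : w ∈ E := IntermediateField.mem_adjoin_simple_self ℚ w
  have h1 : (∑ b : Fin L, (R b : Ω) * w ^ (b : ℕ)) =
      ((∑ b : Fin L, (R b : E) * (⟨w, hw⟩ : E) ^ (b : ℕ) : E) : Ω) := by
    push_cast
    rfl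
  rw [h1]
  refine Bd.of_field E hfr _ ?_ fun φ => ?_
  · rw [← h1]
    refine IsIntegral.sum _ fun b _ => ?_
    refine IsIntegral.mul ?_ (h.1.pow _)
    have := isIntegral_algebraMap (R := ℤ) (A := Ω) (x := R b)
    simpa using this
  · rw [map_sum]
    refine (norm_sum_le _ _).trans (Finset.sum_le_sum fun b _ => ?_)
    rw [map_mul, map_pow, norm_mul, norm_pow]
    have h2 : ‖φ (R b : E)‖ = |(R b : ℝ)| := by
      rw [map_intCast]
      exact Complex.norm_intCast _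
    rw [h2]
    exact mul_le_mul_of_nonneg_left (pow_le_pow_left₀ (norm_nonneg _) (Bd.norm_le (y := ⟨w, hw⟩) h φ) _) (abs_nonneg _)

/-- PROOF. The same with `w ^ n` in `ℚ(w)`. (`0 ≤ Q` is not needed: there is at least one complex root.) -/
theorem Bd.pow {B : ℕ} {Q : ℝ} {w : Ω} (h : Bd B Q w) (n : ℕ) : Bd B (Q ^ n) (w ^ n) := by
  obtain ⟨hfd, hfr⟩ := s2_finrank h
  set E := IntermediateField.adjoin ℚ {w} with hE
  have hw : w ∈ E := IntermediateField.mem_adjoin_simple_self ℚ w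
  have h1 : w ^ n = (((⟨w, hw⟩ : E) ^ n : E) : Ω) := by
    push_cast
    rfl
  rw [h1]
  refine Bd.of_field E hfr _ ?_ fun φ => ?_
  · rw [← h1]
    exact h.1.pow _
  · rw [map_pow, norm_pow]
    exact pow_le_pow_left₀ (norm_nonneg _) (Bd.norm_le (y := ⟨w, hw⟩) h φ) _

/-- The bound for the conjugates is not negative. -/
theorem s2_nonneg {B : ℕ} {Q : ℝ} {w : Ω} (h : Bd B Q w) : 0 ≤ Q := by
  have hd : 0 < ((minpoly ℤ w).map (algebraMap ℤ ℂ)).degree := by
    rw [(minpoly.monic h.1).degree_map]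
    exact minpoly.degree_pos h.1
  obtain ⟨z, hz⟩ := Complex.exists_root hd
  have h1 : aeval z (minpoly ℤ w) = 0 := by
    rw [IsRoot.def, eval_map_algebraMap] at hz
    exact hz
  exact (norm_nonneg z).trans (h.2.2 z h1)

/-- PROOF. `E = ℚ(w) ⊔ ℚ(w')`, `IntermediateField.finrank_sup_le`. -/
theorem Bd.mul {B B' : ℕ} {Q Q' : ℝ} {w w' : Ω} (h : Bd B Q w) (h' : Bd B' Q' w') :
    Bd (B * B') (Q * Q') (w * w') := by
  obtain ⟨hfd, hfr⟩ := s2_finrank h
  obtain ⟨hfd', hfr'⟩ := s2_finrank h'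
  set E := IntermediateField.adjoin ℚ {w} with hE
  set E' := IntermediateField.adjoin ℚ {w'} with hE'
  have hw : w ∈ E ⊔ E' := (le_sup_left : E ≤ E ⊔ E') (IntermediateField.mem_adjoin_simple_self ℚ w)
  have hw' : w' ∈ E ⊔ E' := (le_sup_right : E' ≤ E ⊔ E') (IntermediateField.mem_adjoin_simple_self ℚ w')
  have h1 : w * w' = (((⟨w, hw⟩ : (E ⊔ E' : IntermediateField ℚ Ω)) * ⟨w', hw'⟩ : (E ⊔ E' : IntermediateField ℚ Ω)) : Ω) := rfl
  rw [h1]
  refine Bd.of_field (E ⊔ E') ((IntermediateField.finrank_sup_le E E').trans (Nat.mul_le_mul hfr hfr')) _ ?_ fun φ => ?_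
  · rw [← h1]
    exact h.1.mul h'.1
  · rw [map_mul, norm_mul]
    exact mul_le_mul (Bd.norm_le (y := ⟨w, hw⟩) h φ) (Bd.norm_le (y := ⟨w', hw'⟩) h' φ) (norm_nonneg _) (s2_nonneg h)

/-- PROOF. Induction on `s` with `Bd.mul`; the empty product: `Bd.natCast 1`. -/
theorem Bd.prod {ι : Type} (s : Finset ι) (B : ℕ) (Q : ι → ℝ) (w : ι → Ω) (h : ∀ i ∈ s, Bd B (Q i) (w i)) :
    Bd (B ^ s.card) (∏ i ∈ s, Q i) (∏ i ∈ s, w i) := by
  classical
  induction s using Finset.induction_on with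
  | empty =>
    have := Bd.natCast (Ω := Ω) 1
    simpa using this
  | insert i s hi ih =>
    rw [Finset.card_insert_of_notMem hi, Finset.prod_insert hi, Finset.prod_insert hi, pow_succ, mul_comm (B ^ s.card)]
    exact Bd.mul (h i (Finset.mem_insert_self i s)) (ih fun j hj => h j (Finset.mem_insert_of_mem hj))

end Pool.Agent.Lib.H84L
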