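import Pool.Agent.Lib.H84L.W0
import Pool.Agent.Lib.H84L.S2

/-! # H84L chunk Y1: the hypotheses on the values at the primes -/

set_option autoImplicit false

namespace Pool.Agent.Lib.H84L

open NumberField IsDedekindDomain CFT Polynomial

/-- PROOF. `y = w / N ^ m` is algebraic over `ℚ`. `Bd.of_field` with `E = ℚ(y)` (`finrank = natDegree (minpoly ℚ y) ≤ B`, `IntermediateField.adjoin.finrank`), `w = N ^ m y ∈ E`; for `φ : E →ₐ[ℚ] ℂ`: `φ y` is a root of `minpoly ℚ y`, so `‖φ y‖ = 1`,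
`‖φ w‖ = N ^ m`. -/
theorem bd_of_minpoly {Ω : Type} [Field Ω] [CharZero Ω] {B m N : ℕ} (hN : 0 < N) {y : Ω} (hint : IsIntegral ℤ ((N : Ω) ^ m * y))
    (hdeg : (minpoly ℚ y).natDegree ≤ B) (habs : ∀ z : ℂ, aeval z (minpoly ℚ y) = 0 → ‖z‖ = 1) :
    Bd B ((N : ℝ) ^ m) ((N : Ω) ^ m * y) := by
  have hN0 : (N : Ω) ^ m ≠ 0 := pow_ne_zero _ (by exact_mod_cast hN.ne')
  have hyi : IsIntegral ℚ y := by
    have h1 : IsIntegral ℚ ((N : Ω) ^ m * y) := hint.tower_top
    have h2 : IsIntegral ℚ (algebraMap ℚ Ω (((N : ℚ) ^ m)⁻¹)) := isIntegral_algebraMap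
    have h3 := h2.mul h1
    have e : algebraMap ℚ Ω (((N : ℚ) ^ m)⁻¹) * ((N : Ω) ^ m * y) = y := by
      rw [map_inv₀, map_pow, map_natCast, ← mul_assoc, inv_mul_cancel₀ hN0, one_mul]
    rwa [e] at h3
  have hfd : FiniteDimensional ℚ (IntermediateField.adjoin ℚ {y}) :=
    IntermediateField.adjoin.finiteDimensional hyi
  have hfr : Module.finrank ℚ (IntermediateField.adjoin ℚ {y}) ≤ B := by
    rw [IntermediateField.adjoin.finrank hyi]
    exact hdeg
  have hval : (((N : IntermediateField.adjoin ℚ {y}) ^ m * IntermediateField.AdjoinSimple.gen ℚ y :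
      IntermediateField.adjoin ℚ {y}) : Ω) = (N : Ω) ^ m * y := by
    simp
  have h4 := Bd.of_field (Q := (N : ℝ) ^ m) (IntermediateField.adjoin ℚ {y}) hfr
    ((N : IntermediateField.adjoin ℚ {y}) ^ m * IntermediateField.AdjoinSimple.gen ℚ y)
    (by rw [hval]; exact hint) (by
      intro φ
      have h5 : ‖φ (IntermediateField.AdjoinSimple.gen ℚ y)‖ = 1 := by
        apply habs
        have h6 : aeval (φ (IntermediateField.AdjoinSimple.gen ℚ y))
            (minpoly ℚ (IntermediateField.AdjoinSimple.gen ℚ y)) = 0 := by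
          rw [Polynomial.aeval_algHom_apply]
          exact (congrArg φ (minpoly.aeval ℚ (IntermediateField.AdjoinSimple.gen ℚ y))).trans (map_zero φ)
        have h7 : minpoly ℚ (IntermediateField.AdjoinSimple.gen ℚ y) = minpoly ℚ y := by
          rw [← minpoly.algebraMap_eq (algebraMap (IntermediateField.adjoin ℚ {y}) Ω).injective
            (IntermediateField.AdjoinSimple.gen ℚ y), IntermediateField.AdjoinSimple.algebraMap_gen]
        rwa [h7] at h6
      rw [map_mul, map_pow, map_natCast, norm_mul, norm_pow, h5, mul_one, Complex.norm_natCast])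
  rwa [hval] at h4

/-- PROOF. `v ∈ S`: the value is `1`, `Bd.natCast` (`(Nm v) ^ (2m)` as a natural number). `v ∉ S`: `(Nm v) ^ (2m) y ^ 2 = ((Nm v) ^ m y) ^ 2`, `bd_of_minpoly`, `Bd.pow`. `toMul (a + a) = toMul a * toMul a`. -/
theorem bd_double {M : Type} [Field M] [NumberField M] {Ω : Type} [NormedField Ω] [CharZero Ω] (S : Finset (Pr M))
    (D : Dv M →+ Additive Ωˣ) (h0 : ∀ v ∈ S, D (Finsupp.single v 1) = 0) (B m : ℕ)
    (hint : ∀ v ∉ S, IsIntegral ℤ ((Nm v : Ω) ^ m * ((D (Finsupp.single v 1)).toMul : Ω)))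
    (hdeg : ∀ v ∉ S, (minpoly ℚ ((D (Finsupp.single v 1)).toMul : Ω)).natDegree ≤ B)
    (habs : ∀ v ∉ S, ∀ z : ℂ, aeval z (minpoly ℚ ((D (Finsupp.single v 1)).toMul : Ω)) = 0 → ‖z‖ = 1) (v : Pr M) :
    Bd (B + 1) ((Nm v : ℝ) ^ (2 * m)) ((Nm v : Ω) ^ (2 * m) * (((D + D) (Finsupp.single v 1)).toMul : Ω)) := by
  by_cases hv : v ∈ S
  · have e1 : (((D + D) (Finsupp.single v 1)).toMul : Ω) = 1 := by
      rw [AddMonoidHom.add_apply, h0 v hv, add_zero, toMul_zero, Units.val_one]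
    rw [e1, mul_one]
    have h1 := Bd.natCast (Ω := Ω) ((Nm v) ^ (2 * m))
    push_cast at h1
    exact h1.mono (by omega) le_rfl
  · have e1 : (((D + D) (Finsupp.single v 1)).toMul : Ω) = ((D (Finsupp.single v 1)).toMul : Ω) ^ 2 := by
      rw [AddMonoidHom.add_apply, toMul_add, Units.val_mul, sq]
    have e2 : (Nm v : Ω) ^ (2 * m) * ((D (Finsupp.single v 1)).toMul : Ω) ^ 2 =
        ((Nm v : Ω) ^ m * ((D (Finsupp.single v 1)).toMul : Ω)) ^ 2 := by
      rw [mul_pow, ← pow_mul, mul_comm m 2]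
    have e3 : (Nm v : ℝ) ^ (2 * m) = ((Nm v : ℝ) ^ m) ^ 2 := by
      rw [← pow_mul, mul_comm m 2]
    rw [e1, e2, e3]
    have hNv : 0 < Nm v := Nm_pos v
    exact ((bd_of_minpoly hNv (hint v hv) (hdeg v hv) (habs v hv)).pow 2).mono (by omega) le_rfl

end Pool.Agent.Lib.H84L
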