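import Pool.Agent.Lib.H84L.W0
import Pool.Agent.Lib.CFT.B01

/-! # H84L chunk Y2: the function `FD (D + D)` -/

set_option autoImplicit false

namespace Pool.Agent.Lib.H84L

open NumberField IsDedekindDomain CFT

theorem y2_dv_zero {M : Type} [Field M] [NumberField M] : dv (0 : M) = 0 := by
  ext v
  rw [dv_apply, od_zero]
  rfl

theorem y2_norm {M : Type} [Field M] [NumberField M] {Ω : Type} [NormedField Ω] (D : Dv M →+ Additive Ωˣ)
    (hnorm : ∀ v : Pr M, ‖((D (Finsupp.single v 1)).toMul : Ω)‖ = 1) (E : Dv M) : ‖((D E).toMul : Ω)‖ = 1 := by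
  induction E using Finsupp.induction_linear with
  | zero => rw [map_zero, toMul_zero, Units.val_one, norm_one]
  | add f g hf hg => rw [map_add, toMul_add, Units.val_mul, norm_mul, hf, hg, mul_one]
  | single v n =>
    have e : (Finsupp.single v n : Dv M) = n • (Finsupp.single v (1 : ℤ)) := by
      rw [Finsupp.smul_single, smul_eq_mul, mul_one]
    rw [e, map_zsmul, toMul_zsmul, Units.val_zpow_eq_zpow_val, norm_zpow, hnorm v, one_zpow]

theorem mulF_FD {M : Type} [Field M] [NumberField M] {Ω : Type} [NormedField Ω] (D : Dv M →+ Additive Ωˣ)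
    (hnorm : ∀ v : Pr M, ‖((D (Finsupp.single v 1)).toMul : Ω)‖ = 1) : MulF (FD D) := by
  refine ⟨?_, ?_, ?_⟩
  · have e : ((1 : 𝓞 M) : M) = 1 := map_one _
    rw [FD, e, dv_one, map_zero, toMul_zero, Units.val_one]
  · intro a b ha hb
    have ha' : (a : M) ≠ 0 := fun h => ha (RingOfIntegers.coe_eq_zero_iff.1 h)
    have hb' : (b : M) ≠ 0 := fun h => hb (RingOfIntegers.coe_eq_zero_iff.1 h)
    have e : ((a * b : 𝓞 M) : M) = (a : M) * (b : M) := map_mul _ _ _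
    rw [FD, FD, FD, e, dv_mul ha' hb', map_add, toMul_add, Units.val_mul]
  · intro a _
    exact y2_norm D hnorm _

theorem FD_double {M : Type} [Field M] [NumberField M] {Ω : Type} [NormedField Ω] (D : Dv M →+ Additive Ωˣ) (a : 𝓞 M) :
    FD (D + D) a = ((D (dv (a : M))).toMul : Ω) ^ 2 := by
  rw [FD, AddMonoidHom.add_apply, toMul_add, Units.val_mul, sq]

theorem ctF_double {M : Type} [Field M] [NumberField M] {Ω : Type} [NormedField Ω] (l : ℕ) [Fact l.Prime] (S : Finset (Pr M))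
    (D : Dv M →+ Additive Ωˣ) (hlev : ∀ ε : ℝ, 0 < ε → ∃ N : ℕ, ∀ x : M, Ray S N x → ‖((D (dv x)).toMul : Ω) - 1‖ ≤ ε) :
    ∃ Q : ℕ, 0 < Q ∧ l ∣ Q ∧ CtF Q (FD (D + D)) := by
  classical
  have hNpos : ∀ v : Pr M, 0 < Nm v := fun v =>
    Nat.pos_of_ne_zero fun h => v.ne_bot (Ideal.absNorm_eq_zero_iff.1 h)
  refine ⟨l * ∏ v ∈ S, Nm v, Nat.mul_pos (Fact.out : l.Prime).pos (Finset.prod_pos fun v _ => hNpos v), Dvd.intro _ rfl, ?_⟩
  set Q : ℕ := l * ∏ v ∈ S, Nm v with hQ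
  have hQv : ∀ v ∈ S, (Q : 𝓞 M) ∈ v.asIdeal := by
    intro v hv
    have h1 : (Nm v : 𝓞 M) ∈ v.asIdeal := Ideal.absNorm_mem v.asIdeal
    have h2 : Nm v ∣ Q := (Finset.dvd_prod_of_mem (fun v : Pr M => Nm v) hv).trans (Dvd.intro_left _ rfl)
    obtain ⟨c, hc⟩ := h2
    rw [hc, Nat.cast_mul]
    exact Ideal.mul_mem_right _ _ h1
  intro ε hε
  obtain ⟨N, hN⟩ := hlev ε hε
  refine ⟨N + 1, fun a ha => ?_⟩
  rw [FD_double]
  by_cases ha0 : a = 0
  · have e : ((a : 𝓞 M) : M) = 0 := by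
      rw [ha0]
      exact map_zero _
    rw [e, y2_dv_zero, map_zero, toMul_zero, Units.val_one, one_pow, sub_self, norm_zero]
    exact hε.le
  have ha' : (a : M) ≠ 0 := fun h => ha0 (RingOfIntegers.coe_eq_zero_iff.1 h)
  have hsq : ((D (dv (a : M))).toMul : Ω) ^ 2 = ((D (dv ((a : M) ^ 2))).toMul : Ω) := by
    rw [sq (a : M), dv_mul ha' ha', map_add, toMul_add, Units.val_mul, sq]
  rw [hsq]
  refine hN _ ⟨pow_ne_zero 2 ha', fun v hv => ?_, fun φ => ?_⟩
  · have e : (a : M) ^ 2 - 1 = ((a ^ 2 - 1 : 𝓞 M) : M) := by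
      rw [RingOfIntegers.coe_eq_algebraMap, RingOfIntegers.coe_eq_algebraMap, map_sub, map_pow, map_one]
    have hmem : a ^ 2 - 1 ∈ v.asIdeal ^ (N + 1) := by
      have h1 : a ^ 2 - 1 = (a - 1) * (a + 1) := by ring
      obtain ⟨c, hc⟩ := ha
      rw [h1, hc, mul_assoc]
      exact Ideal.mul_mem_right _ _ (Ideal.pow_mem_pow (hQv v hv) _)
    rw [e]
    by_cases h0 : a ^ 2 - 1 = 0
    · rw [h0]
      have e0 : ((0 : 𝓞 M) : M) = 0 := map_zero _
      rw [e0, map_zero]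
      exact WithZero.zero_lt_coe _
    · have h0' : ((a ^ 2 - 1 : 𝓞 M) : M) ≠ 0 := fun h => h0 (RingOfIntegers.coe_eq_zero_iff.1 h)
      rw [val_lt_iff v h0']
      have h2 := (od_le_iff v h0 (N + 1)).2 hmem
      rw [Nat.cast_add, Nat.cast_one] at h2
      exact Int.lt_of_add_one_le h2
  · rw [map_pow]
    have : φ (a : M) ≠ 0 := fun h => ha' ((map_eq_zero φ).1 h)
    positivity

end Pool.Agent.Lib.H84L
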