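import Pool.Agent.Lib.H84L.Z2
import Pool.Agent.Lib.CFT.B14

/-! # H84L chunk Z3: from the congruence modulo `q` to the ray -/

set_option autoImplicit false

namespace Pool.Agent.Lib.H84L

open NumberField IsDedekindDomain CFT

theorem z3_mono {K : Type} [Field K] [NumberField K] {S : Finset (Pr K)} {N N' : ℕ} (h : N ≤ N') {x : K} (hx : Ray S N' x) : Ray S N x :=
  ⟨hx.ne, fun v hv => (hx.cong v hv).trans_le (by rw [WithZero.exp_le_exp]; omega), hx.pos⟩

/-- PROOF. Let `S'` be the finite set of primes containing `q`, `N` from `exists_level` for `q` and `S`. Let `Ray S N x` and `ε ∈ (0, 1)`. Choose `N' ≥ N` such that for `Ray S N' y`: `‖D (dv y) - 1‖ ≤ ε` (`hlev`) and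
`‖∏ τ y ^ e τ - 1‖ ≤ ε` (`prod_near`). By `approx` for the set `S ∪ S'` (`a v = 1` for `v ∈ S`, `a v = x⁻¹` for `v ∈ S' \ S`, all signs `1`, precision so large that `v (x) v (y - x⁻¹) ≤ v q` on `S' \ S` and `N'` on `S`) there is
`y` with `Ray S N' y` and `v (x y - 1) ≤ v q` for all `v ∈ S'` (for `v ∈ S ∩ S'`: `x y - 1 = (x - 1) y + (y - 1)`). By `quot_near` `x y = a / b`, and `h` for `a`, `b` gives `f (x y) ^ k = ∏ τ (x y) ^ e τ` where `f x = D (dv x)`
is multiplicative. So `f x ^ k (∏ τ x ^ e τ)⁻¹ = (∏ τ y ^ e τ) (f y ^ k)⁻¹`, and its distance to 1 is at most `ε` (`near_zpow`). This holds for all `ε`, so it is 1. -/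
theorem to_ray {K : Type} [Field K] [NumberField K] {Ω : Type} [NormedField Ω] [IsUltrametricDist Ω] [CharZero Ω] [IsAlgClosed Ω]
    {l : ℕ} [Fact l.Prime] (hl : ‖(l : Ω)‖ = (l : ℝ)⁻¹) (S : Finset (Pr K)) (hSl : ∀ v : Pr K, (l : 𝓞 K) ∈ v.asIdeal → v ∈ S)
    (D : Dv K →+ Additive Ωˣ) (hlev : ∀ ε : ℝ, 0 < ε → ∃ N : ℕ, ∀ x : K, Ray S N x → ‖((D (dv x)).toMul : Ω) - 1‖ ≤ ε)
    {q k : ℕ} (hq : 0 < q) (e : (K →+* Ω) → ℤ)
    (h : ∀ a : 𝓞 K, (q : 𝓞 K) ∣ a - 1 → ((D (dv (a : K))).toMul : Ω) ^ k = ∏ τ : K →+* Ω, τ (a : K) ^ e τ) :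
    ∃ N : ℕ, ∀ x : K, Ray S N x → ((D (dv x)).toMul : Ω) ^ k = ∏ τ : K →+* Ω, τ x ^ e τ := by
  classical
  obtain ⟨N, hN⟩ := exists_level (K := K) hq S
  refine ⟨N, fun x hx => ?_⟩
  set f : K → Ω := fun x => ((D (dv x)).toMul : Ω) with hf
  have hfmul : ∀ x y : K, x ≠ 0 → y ≠ 0 → f (x * y) = f x * f y := by
    intro x y hx hy
    simp only [hf]
    rw [dv_mul hx hy, map_add, toMul_add, Units.val_mul]
  have hfne : ∀ x : K, f x ≠ 0 := fun x => Units.ne_zero _
  set g : K → Ω := fun x => ∏ τ : K →+* Ω, τ x ^ e τ with hg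
  have hgmul : ∀ x y : K, x ≠ 0 → y ≠ 0 → g (x * y) = g x * g y := by
    intro x y hx hy
    simp only [hg]
    rw [← Finset.prod_mul_distrib]
    refine Finset.prod_congr rfl fun τ _ => ?_
    rw [map_mul, mul_zpow]
  have hgne : ∀ x : K, x ≠ 0 → g x ≠ 0 := by
    intro x hx
    refine Finset.prod_ne_zero_iff.2 fun τ _ => zpow_ne_zero _ ?_
    rwa [Ne, map_eq_zero]
  have hqK : (q : K) ≠ 0 := Nat.cast_ne_zero.2 hq.ne'
  set S' : Finset (Pr K) := (z1_fin (K := K) hq).toFinset with hS'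
  have hmem : ∀ v : Pr K, v ∈ S' ↔ (q : 𝓞 K) ∈ v.asIdeal := by
    intro v
    rw [hS', Set.Finite.mem_toFinset]
    rfl
  show f x ^ k = g x
  have key : ∀ ε : ℝ, 0 < ε → ε < 1 → ‖f x ^ k / g x - 1‖ ≤ ε := by
    intro ε hε hε1
    obtain ⟨N1, h1⟩ := hlev ε hε
    obtain ⟨N2, h2⟩ := prod_near hl S hSl e hε
    set N' : ℕ := max N (max N1 N2) with hN'
    set P : ℕ := N' + ∑ v ∈ S', ((od v (q : K)).natAbs + (od v x).natAbs) with hP
    obtain ⟨y, hy0, hyv, hyφ⟩ := approx (S ∪ S') P (fun v => if v ∈ S then 1 else x⁻¹) (fun _ : K →+* ℝ => 1) (fun _ => one_ne_zero)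
    have hyR : Ray S N' y := by
      refine ⟨hy0, fun v hv => ?_, fun φ => by simpa using hyφ φ⟩
      have h3 := hyv v (Finset.mem_union_left _ hv)
      simp only [hv, if_true] at h3
      refine h3.trans_le ?_
      rw [WithZero.exp_le_exp]
      omega
    have hxy0 : x * y ≠ 0 := mul_ne_zero hx.ne hy0
    have hxy : ∀ v : Pr K, (q : 𝓞 K) ∈ v.asIdeal → v.valuation K (x * y - 1) ≤ v.valuation K (q : K) := by
      intro v hv
      by_cases hvS : v ∈ S
      · have e1 : x * y - 1 = (x - 1) * y + (y - 1) := by ring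
        rw [e1]
        refine (Valuation.map_add _ _ _).trans (max_le ?_ ?_)
        · rw [map_mul, hyR.unit hvS, mul_one]
          exact (hx.cong v hvS).le.trans (hN v hvS)
        · exact ((z3_mono (le_max_left N _) hyR).cong v hvS).le.trans (hN v hvS)
      · have h3 := hyv v (Finset.mem_union_right _ ((hmem v).2 hv))
        simp only [hvS, if_false] at h3
        have e1 : x * y - 1 = x * (y - x⁻¹) := by
          rw [mul_sub, mul_inv_cancel₀ hx.ne]
        rw [e1, map_mul]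
        have h4 : (od v (q : K)).natAbs + (od v x).natAbs ≤ ∑ v ∈ S', ((od v (q : K)).natAbs + (od v x).natAbs) :=
          Finset.single_le_sum (f := fun v : Pr K => (od v (q : K)).natAbs + (od v x).natAbs) (fun _ _ => Nat.zero_le _) ((hmem v).2 hv)
        calc v.valuation K x * v.valuation K (y - x⁻¹) ≤ WithZero.exp (-od v x) * WithZero.exp (-(P : ℤ)) := by
              rw [val_eq v hx.ne]
              exact mul_le_mul' le_rfl h3.le
          _ ≤ v.valuation K (q : K) := by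
              rw [val_eq v hqK, ← WithZero.exp_add, WithZero.exp_le_exp]
              omega
    obtain ⟨a, b, ha, hb, hqa, hqb, hab⟩ := quot_near hq hxy0 hxy
    have ha' : (a : K) ≠ 0 := fun h => ha (RingOfIntegers.coe_eq_zero_iff.1 h)
    have hb' : (b : K) ≠ 0 := fun h => hb (RingOfIntegers.coe_eq_zero_iff.1 h)
    have hfa : f (a : K) ^ k = g (a : K) := h a hqa
    have hfb : f (b : K) ^ k = g (b : K) := h b hqb
    have habe : (a : K) = x * y * (b : K) := by
      rw [hab]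
      field_simp
    have hE : f (x * y) ^ k = g (x * y) := by
      have h5 : f (a : K) = f (x * y) * f (b : K) := by
        rw [habe, hfmul _ _ hxy0 hb']
      have h6 : g (a : K) = g (x * y) * g (b : K) := by
        rw [habe, hgmul _ _ hxy0 hb']
      rw [h5, mul_pow, hfb, h6] at hfa
      exact mul_right_cancel₀ (hgne _ hb') hfa
    rw [hfmul _ _ hx.ne hy0, hgmul _ _ hx.ne hy0, mul_pow] at hE
    have hfy : f y ^ k ≠ 0 := pow_ne_zero _ (hfne y)
    have h7 : f x ^ k / g x = g y * f y ^ (-(k : ℤ)) := by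
      rw [zpow_neg, zpow_natCast, div_eq_iff (hgne x hx.ne)]
      field_simp
      linear_combination hE
    rw [h7]
    have h8 : ‖f y - 1‖ ≤ ε := h1 y (z3_mono ((le_max_left N1 N2).trans (le_max_right N _)) hyR)
    have h9 : ‖g y - 1‖ ≤ ε := h2 y (z3_mono ((le_max_right N1 N2).trans (le_max_right N _)) hyR)
    have h10 : ‖f y ^ (-(k : ℤ)) - 1‖ ≤ ε := near_zpow hε.le hε1 h8 _
    have h11 : g y * f y ^ (-(k : ℤ)) = ∏ i : Bool, (if i then g y else f y ^ (-(k : ℤ))) := by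
      rw [Fintype.prod_bool]
      simp
    rw [h11]
    refine near_prod hε.le hε1 _ _ fun i _ => ?_
    cases i
    · simpa using h10
    · simpa using h9
  have h12 : f x ^ k / g x - 1 = 0 := by
    rw [← norm_le_zero_iff]
    refine le_of_forall_pos_le_add fun ε hε => ?_
    rw [zero_add]
    rcases lt_or_ge ε 1 with h13 | h13
    · exact key ε hε h13
    · exact (key (1 / 2) (by norm_num) (by norm_num)).trans (by linarith)
  have h13 : f x ^ k / g x = 1 := sub_eq_zero.1 h12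
  rwa [div_eq_one_iff_eq (hgne x hx.ne)] at h13

end Pool.Agent.Lib.H84L
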