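import Pool.Agent.Lib.H84L.C5
import Pool.Agent.Lib.H84L.Y1
import Pool.Agent.Lib.H84L.Y2
import Pool.Agent.Lib.H84L.Z3
import Pool.Agent.Lib.H84L.I7
import Pool.Agent.Lib.CFT.Core1

/-! # H84L: LOCAL ALGEBRAICITY, final assembly -/

set_option autoImplicit false

namespace Pool.Agent.Lib.H84L

open NumberField IsDedekindDomain CFT Polynomial

theorem loc_alg {M : Type} [Field M] [NumberField M] {Ω : Type} [NormedField Ω] [IsUltrametricDist Ω] [CharZero Ω] [IsAlgClosed Ω]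
    {l : ℕ} [Fact l.Prime] (hl : ‖(l : Ω)‖ = (l : ℝ)⁻¹) (S : Finset (Pr M)) (hSl : ∀ v : Pr M, (l : 𝓞 M) ∈ v.asIdeal → v ∈ S)
    (D : Dv M →+ Additive Ωˣ) (h0 : ∀ v ∈ S, D (Finsupp.single v 1) = 0)
    (hnorm : ∀ v : Pr M, ‖((D (Finsupp.single v 1)).toMul : Ω)‖ = 1)
    (hlev : ∀ ε : ℝ, 0 < ε → ∃ N : ℕ, ∀ x : M, Ray S N x → ‖((D (dv x)).toMul : Ω) - 1‖ ≤ ε)
    (B m : ℕ) (hint : ∀ v ∉ S, IsIntegral ℤ ((Nm v : Ω) ^ m * ((D (Finsupp.single v 1)).toMul : Ω)))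
    (hdeg : ∀ v ∉ S, (minpoly ℚ ((D (Finsupp.single v 1)).toMul : Ω)).natDegree ≤ B)
    (habs : ∀ v ∉ S, ∀ z : ℂ, aeval z (minpoly ℚ ((D (Finsupp.single v 1)).toMul : Ω)) = 0 → ‖z‖ = 1)
    (hprime : ∃ N0 : ℕ, 0 < N0 ∧ ∃ (E : Type) (_ : Field E) (_ : NumberField E) (T : Finset ℕ), ∀ p : ℕ, p.Prime → p ∉ T →
      (∀ w : Pr E, (p : 𝓞 E) ∈ w.asIdeal → Nm w = p) → ∀ v : Pr M, (p : 𝓞 M) ∈ v.asIdeal → v ∉ S →
      ∀ σ : ↥(algebraicClosure ℚ Ω) →+* Ω, (∀ z : ↥(algebraicClosure ℚ Ω), z ^ N0 = 1 → σ z = z) →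
      ∀ y : ↥(algebraicClosure ℚ Ω), (y : Ω) = ((D (Finsupp.single v 1)).toMul : Ω) →
      ∀ (ζ : Ω) (j : ℕ), 0 < j → ζ ^ j = 1 → σ y = ζ * y → ζ = 1) :
    ∃ (N : ℕ) (n : (M →+* Ω) → ℤ), ∀ x : M, Ray S N x → ((D (dv x)).toMul : Ω) = ∏ τ : M →+* Ω, τ x ^ n τ := by
  classical
  -- the square of the character is multiplicative and near 1
  have hnorm2 : ∀ v : Pr M, ‖(((D + D) (Finsupp.single v 1)).toMul : Ω)‖ = 1 := by
    intro v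
    have e : (((D + D) (Finsupp.single v 1)).toMul : Ω) =
        ((D (Finsupp.single v 1)).toMul : Ω) * ((D (Finsupp.single v 1)).toMul : Ω) := by
      rw [AddMonoidHom.add_apply, toMul_add, Units.val_mul]
    rw [e, norm_mul, hnorm v, mul_one]
  obtain ⟨Q, hQ, hlQ, hct⟩ := ctF_double l S D hlev
  obtain ⟨q, n₀, e, hq, hlq, hn₀, he⟩ := alg_of_ct hl (D + D) (mulF_FD (D + D) hnorm2) hQ hlQ hct (Nat.le_add_left 1 B)
    (bd_double S D h0 B m hint hdeg habs)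
  -- on a ray
  have he' : ∀ a : 𝓞 M, (q : 𝓞 M) ∣ a - 1 → ((D (dv (a : M))).toMul : Ω) ^ (2 * n₀) = ∏ τ : M →+* Ω, τ (a : M) ^ e τ := by
    intro a ha
    rw [pow_mul, ← FD_double, he a ha]
  obtain ⟨N₁, hN₁⟩ := to_ray hl S hSl D hlev (by omega : 0 < q) e he'
  have hk : 0 < 2 * n₀ := by omega
  have hdvd := integrality S D hk e (CFT.pray_fin M S N₁) hN₁ hprime
  choose n hn using hdvd
  -- deep ray: the quotient is a root of unity near 1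
  have hlp : (1 : ℝ) < l := by exact_mod_cast (Fact.out : l.Prime).one_lt
  have hε : (0 : ℝ) < ((l : ℝ)⁻¹) ^ 2 := by positivity
  have hε1 : ((l : ℝ)⁻¹) ^ 2 < 1 := pow_lt_one₀ (by positivity) (inv_lt_one_of_one_lt₀ hlp) two_ne_zero
  obtain ⟨N₂, hN₂⟩ := hlev _ hε
  obtain ⟨N₃, hN₃⟩ := prod_near hl S hSl n hε
  refine ⟨max N₁ (max N₂ N₃), n, fun x hx => ?_⟩
  have h1 := hN₁ x (hx.mono (Finset.Subset.refl S) (le_max_left _ _))
  have h2 := hN₂ x (hx.mono (Finset.Subset.refl S) ((le_max_left _ _).trans (le_max_right _ _)))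
  have h3 := hN₃ x (hx.mono (Finset.Subset.refl S) ((le_max_right _ _).trans (le_max_right _ _)))
  set f : Ω := ((D (dv x)).toMul : Ω) with hf
  set g : Ω := ∏ τ : M →+* Ω, τ x ^ n τ with hg
  have hg0 : g ≠ 0 := by
    intro h0
    rw [h0, zero_sub, norm_neg, norm_one] at h3
    linarith
  have hfg : f ^ (2 * n₀) = g ^ (2 * n₀) := by
    rw [h1, hg, ← Finset.prod_pow]
    refine Finset.prod_congr rfl fun τ _ => ?_
    rw [hn τ, ← zpow_natCast, ← zpow_mul, mul_comm]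
  have hζ : (f * g⁻¹) ^ (2 * n₀) = 1 := by
    rw [mul_pow, hfg, ← mul_pow, mul_inv_cancel₀ hg0, one_pow]
  have hginv : ‖g⁻¹ - 1‖ ≤ ((l : ℝ)⁻¹) ^ 2 := by
    have := near_zpow hε.le hε1 h3 (-1)
    rwa [zpow_neg_one] at this
  have hgn : ‖g⁻¹‖ = 1 := by
    have h4 : ‖g⁻¹ - 1‖ < ‖(1 : Ω)‖ := by
      rw [norm_one]
      exact hginv.trans_lt hε1
    have h5 := IsUltrametricDist.norm_add_eq_max_of_norm_ne_norm h4.ne
    rw [sub_add_cancel, norm_one, max_eq_right (by rw [norm_one] at h4; exact h4.le)] at h5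
    exact h5
  have hnear : ‖f * g⁻¹ - 1‖ ≤ ((l : ℝ)⁻¹) ^ 2 := norm_mul_sub_one hgn h2 hginv
  have h6 := root_of_unity_near hl hk hζ hnear
  rw [← div_eq_mul_inv, div_eq_one_iff_eq hg0] at h6
  exact h6

end Pool.Agent.Lib.H84L
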