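import Mathlib

/-! # H84L chunk C1: the embeddings in terms of an integral basis -/

set_option autoImplicit false

namespace Pool.Agent.Lib.H84L

open NumberField

/-- PROOF. The matrix `A τ i = τ (b i)` is square after reindexing: `card (K →+* Ω) = finrank ℚ K = card ι` (`NumberField.Embeddings.card`, `Module.finrank_eq_card_basis`; `b` is also a
`ℚ`-basis of `K`). `Aᵀ A` is the trace matrix of `b` (`Algebra.trace_eq_sum_embeddings`), its determinant is the discriminant, nonzero (`Algebra.discr_not_zero_of_basis`,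
or directly `Algebra.discr_eq_det_embeddingsMatrixReindex_pow_two`). So `A` has a two-sided inverse `c`. -/
theorem dual_basis {K : Type} [Field K] [NumberField K] {Ω : Type} [Field Ω] [CharZero Ω] [IsAlgClosed Ω] {ι : Type} [Fintype ι]
    [DecidableEq ι] (b : Module.Basis ι ℤ (𝓞 K)) : ∃ c : ι → (K →+* Ω) → Ω,
      (∀ i j, ∑ τ : K →+* Ω, c i τ * τ (b j : K) = if i = j then 1 else 0) ∧
      (∀ τ : K →+* Ω, ∑ i, τ (b i : K) * c i τ = 1) ∧ ∀ τ τ' : K →+* Ω, τ ≠ τ' → ∑ i, τ (b i : K) * c i τ' = 0 := by
  classical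
  let b' : Module.Basis ι ℚ K := b.localizationLocalization ℚ (nonZeroDivisors ℤ) K
  have hb' : ∀ i, b' i = (b i : K) := fun i => Module.Basis.localizationLocalization_apply ℚ _ K b i
  let A : Matrix (K →+* Ω) ι Ω := Matrix.of fun τ i => τ (b i : K)
  have hA : ∀ τ i, A τ i = τ (b i : K) := fun τ i => rfl
  have hM : A.transpose * A = (Algebra.traceMatrix ℚ b').map (algebraMap ℚ Ω) := by
    ext i j
    rw [Matrix.mul_apply, Matrix.map_apply, Algebra.traceMatrix_apply, Algebra.traceForm_apply,
      trace_eq_sum_embeddings Ω]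
    simp only [Matrix.transpose_apply, hA]
    refine Fintype.sum_equiv (RingHom.equivRatAlgHom (R := K) (S := Ω)) _ _ (fun τ => ?_)
    rw [hb', hb']
    change τ (b i : K) * τ (b j : K) = τ ((b i : K) * (b j : K))
    rw [map_mul]
  have hdet : (A.transpose * A).det ≠ 0 := by
    rw [hM]
    have h1 := Algebra.discr_not_zero_of_basis ℚ b'
    rw [Algebra.discr_def] at h1
    have h2 : ((Algebra.traceMatrix ℚ b').map (algebraMap ℚ Ω)).det =
        algebraMap ℚ Ω (Algebra.traceMatrix ℚ b').det := by
      rw [RingHom.map_det]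
      rfl
    rw [h2]
    exact (map_ne_zero_iff _ (algebraMap ℚ Ω).injective).mpr h1
  have hcA : ((A.transpose * A)⁻¹ * A.transpose) * A = 1 := by
    rw [Matrix.mul_assoc]
    exact Matrix.nonsing_inv_mul _ (isUnit_iff_ne_zero.mpr hdet)
  have hcard : Fintype.card ι = Fintype.card (K →+* Ω) := by
    rw [NumberField.Embeddings.card K Ω, Module.finrank_eq_card_basis b']
  have hAc : A * ((A.transpose * A)⁻¹ * A.transpose) = 1 :=
    (Matrix.mul_eq_one_comm_of_equiv (Fintype.equivOfCardEq hcard)).mp hcA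
  refine ⟨fun i τ => ((A.transpose * A)⁻¹ * A.transpose) i τ, ?_, ?_, ?_⟩
  · intro i j
    have h1 := congrFun (congrFun hcA i) j
    rw [Matrix.mul_apply, Matrix.one_apply] at h1
    exact h1
  · intro τ
    have h1 := congrFun (congrFun hAc τ) τ
    rw [Matrix.mul_apply, Matrix.one_apply_eq] at h1
    exact h1
  · intro τ τ' hne
    have h1 := congrFun (congrFun hAc τ) τ'
    rw [Matrix.mul_apply, Matrix.one_apply_ne hne] at h1
    exact h1

end Pool.Agent.Lib.H84L
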