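import Pool.Agent.Lib.H84L.S3

/-! # H84L chunk S4: Siegel's lemma for equations with coefficients in varying number fields -/

set_option autoImplicit false

namespace Pool.Agent.Lib.H84L

variable {Ω : Type} [Field Ω] [CharZero Ω]

attribute [local instance] Matrix.seminormedAddCommGroup Matrix.normedAddCommGroup in
/-- Siegel's lemma with exponent at most 1. -/
theorem s4_siegel {α β : Type} [Fintype α] [Fintype β] (A : Matrix α β ℤ) (hm : 0 < Fintype.card α)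
    (hmn : 2 * Fintype.card α ≤ Fintype.card β) {U : ℝ} (hU : 1 ≤ U) (hA : ∀ i j, |(A i j : ℝ)| ≤ U) :
    ∃ t : β → ℤ, t ≠ 0 ∧ A.mulVec t = 0 ∧ ∀ j, |(t j : ℝ)| ≤ Fintype.card β * U := by
  obtain ⟨t, h1, h2, h3⟩ := Int.Matrix.exists_ne_zero_int_vec_norm_le A (by omega) hm
  refine ⟨t, h1, h2, fun j => ?_⟩
  have hn : 0 < Fintype.card β := by omega
  have hn1 : (1 : ℝ) ≤ Fintype.card β := by exact_mod_cast hn
  have hA2 : ‖A‖ ≤ U := by
    rw [Matrix.norm_le_iff (by linarith)]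
    intro i j
    rw [Int.norm_eq_abs]
    exact hA i j
  have h4 : ‖t j‖ ≤ ‖t‖ := norm_le_pi_norm t j
  rw [Int.norm_eq_abs] at h4
  refine h4.trans (h3.trans ?_)
  have hbase : (1 : ℝ) ≤ (Fintype.card β : ℝ) * max 1 ‖A‖ := one_le_mul_of_one_le_of_one_le hn1 (le_max_left _ _)
  have hexp : (Fintype.card α : ℝ) / ((Fintype.card β : ℝ) - Fintype.card α) ≤ 1 := by
    have h5 : (0 : ℝ) < Fintype.card α := by exact_mod_cast hm
    have h6 : 2 * (Fintype.card α : ℝ) ≤ Fintype.card β := by exact_mod_cast hmn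
    rw [div_le_one (by linarith)]
    linarith
  calc ((Fintype.card β : ℝ) * max 1 ‖A‖) ^ ((Fintype.card α : ℝ) / ((Fintype.card β : ℝ) - Fintype.card α))
      ≤ ((Fintype.card β : ℝ) * max 1 ‖A‖) ^ (1 : ℝ) := Real.rpow_le_rpow_of_exponent_le hbase hexp
    _ = (Fintype.card β : ℝ) * max 1 ‖A‖ := Real.rpow_one _
    _ ≤ (Fintype.card β : ℝ) * U := by
        refine mul_le_mul_of_nonneg_left (max_le hU hA2) (by positivity)

/-- PROOF. By `pow_expand`: `(w z) ^ (e i) = ∑ j, ρ z i j (w z) ^ j`, `|ρ z i j| ≤ (1 + (2Q) ^ B) ^ (e i) ≤ (1 + (2Q) ^ B) ^ L`.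
Matrix `A (z, j) i = c i z * ρ z i j` with rows `Z × Fin B` and columns `I`, entries at most `T (1 + (2Q) ^ B) ^ L =: U`,
`U ≥ 1`. `Int.Matrix.exists_ne_zero_int_vec_norm_le`: `m = card Z * B` rows, `n = card I` columns, `n ≥ 2 m`, so the exponent
`m / (n - m)` is at most 1 and there is a nonzero `p` with `A p = 0`, `|p i| ≤ n * max 1 ‖A‖ ≤ n * U`. Then
`∑ i, p i c i z (w z) ^ (e i) = ∑ j (∑ i, A (z,j) i p i) (w z) ^ j = 0`. -/
theorem siegel {Z I : Type} [Fintype Z] [Fintype I] [DecidableEq Z] [DecidableEq I] [Nonempty Z] {B L : ℕ} (hB : 1 ≤ B)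
    {Q T : ℝ} (hQ : 1 ≤ Q) (hT : 1 ≤ T) (w : Z → Ω) (hw : ∀ z, Bd B Q (w z)) (c : I → Z → ℤ) (hc : ∀ i z, |(c i z : ℝ)| ≤ T)
    (e : I → ℕ) (he : ∀ i, e i ≤ L) (hcard : 2 * (Fintype.card Z * B) ≤ Fintype.card I) :
    ∃ p : I → ℤ, p ≠ 0 ∧ (∀ z, ∑ i, (p i : Ω) * (c i z : Ω) * w z ^ e i = 0) ∧
      ∀ i, |(p i : ℝ)| ≤ Fintype.card I * (T * (1 + (2 * Q) ^ B) ^ L) := by
  have h := fun z i => pow_expand hQ (hw z) (e i)
  choose ρ h1 h2 using h
  have hb1 : (1 : ℝ) ≤ 1 + (2 * Q) ^ B := by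
    have : (0 : ℝ) ≤ (2 * Q) ^ B := by positivity
    linarith
  let A : Matrix (Z × Fin B) I ℤ := fun zj i => c i zj.1 * ρ zj.1 i zj.2
  have hU : 1 ≤ T * (1 + (2 * Q) ^ B) ^ L := one_le_mul_of_one_le_of_one_le hT (one_le_pow₀ hb1)
  have hcardZ : Fintype.card (Z × Fin B) = Fintype.card Z * B := by
    rw [Fintype.card_prod, Fintype.card_fin]
  have hm : 0 < Fintype.card (Z × Fin B) := by
    rw [hcardZ]
    exact Nat.mul_pos Fintype.card_pos hB
  obtain ⟨p, hp0, hp1, hp2⟩ := s4_siegel A hm (by rw [hcardZ]; exact hcard) hU (by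
    rintro ⟨z, j⟩ i
    show |((c i z * ρ z i j : ℤ) : ℝ)| ≤ _
    rw [Int.cast_mul, abs_mul]
    refine mul_le_mul (hc i z) ((h2 z i j).trans (pow_le_pow_right₀ hb1 (he i))) (abs_nonneg _) (by linarith))
  refine ⟨p, hp0, fun z => ?_, hp2⟩
  have h3 : ∀ j : Fin B, ∑ i, (c i z * ρ z i j) * p i = 0 := fun j => congrFun hp1 (z, j)
  calc ∑ i, (p i : Ω) * (c i z : Ω) * w z ^ e i
      = ∑ i, ∑ j : Fin B, (((c i z * ρ z i j) * p i : ℤ) : Ω) * w z ^ (j : ℕ) := by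
        refine Finset.sum_congr rfl fun i _ => ?_
        rw [h1 z i, Finset.mul_sum]
        refine Finset.sum_congr rfl fun j _ => ?_
        push_cast
        ring
    _ = ∑ j : Fin B, ∑ i, (((c i z * ρ z i j) * p i : ℤ) : Ω) * w z ^ (j : ℕ) := Finset.sum_comm
    _ = ∑ j : Fin B, ((∑ i, (c i z * ρ z i j) * p i : ℤ) : Ω) * w z ^ (j : ℕ) := by
        refine Finset.sum_congr rfl fun j _ => ?_
        rw [Int.cast_sum, Finset.sum_mul]
    _ = 0 := by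
        refine Finset.sum_eq_zero fun j _ => ?_
        rw [h3 j, Int.cast_zero, zero_mul]

end Pool.Agent.Lib.H84L
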