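import Pool.Agent.Lib.H84L.D0

/-! # H84L chunk U3: integers in an ultrametric field with `‖l‖ = 1/l` -/

set_option autoImplicit false

namespace Pool.Agent.Lib.H84L

variable {Ω : Type} [NormedField Ω] [IsUltrametricDist Ω] {l : ℕ} [Fact l.Prime]

/-- PROOF. `‖n‖ ≤ 1` (`IsUltrametricDist.norm_intCast_le_one` or similar). If `‖n‖ < 1`: `1 = a n + b l`
has norm `< 1`, contradiction. -/
theorem norm_int_coprime (hl : ‖(l : Ω)‖ = (l : ℝ)⁻¹) {n : ℤ} (hn : IsCoprime n (l : ℤ)) :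
    ‖(n : Ω)‖ = 1 := by
  have hlp : l.Prime := Fact.out
  have hl1 : (l : ℝ)⁻¹ < 1 := by
    apply inv_lt_one_of_one_lt₀
    exact_mod_cast hlp.one_lt
  refine le_antisymm (IsUltrametricDist.norm_intCast_le_one Ω n) ?_
  by_contra hc
  push Not at hc
  obtain ⟨a, b, hab⟩ := hn
  have h1 : (a : Ω) * (n : Ω) + (b : Ω) * (l : Ω) = 1 := by
    have := congrArg (fun t : ℤ => (t : Ω)) hab
    push_cast at this
    exact this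
  have h2 : ‖(a : Ω) * (n : Ω)‖ < 1 := by
    rw [norm_mul]
    calc ‖(a : Ω)‖ * ‖(n : Ω)‖ ≤ 1 * ‖(n : Ω)‖ :=
          mul_le_mul_of_nonneg_right (IsUltrametricDist.norm_intCast_le_one Ω a) (norm_nonneg _)
      _ < 1 := by rw [one_mul]; exact hc
  have h3 : ‖(b : Ω) * (l : Ω)‖ < 1 := by
    rw [norm_mul]
    calc ‖(b : Ω)‖ * ‖(l : Ω)‖ ≤ 1 * ‖(l : Ω)‖ :=
          mul_le_mul_of_nonneg_right (IsUltrametricDist.norm_intCast_le_one Ω b) (norm_nonneg _)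
      _ < 1 := by rw [one_mul, hl]; exact hl1
  have h4 := IsUltrametricDist.norm_add_le_max ((a : Ω) * (n : Ω)) ((b : Ω) * (l : Ω))
  rw [h1, norm_one] at h4
  exact absurd h4 (not_le.mpr (max_lt h2 h3))

theorem u3_norm (hl : ‖(l : Ω)‖ = (l : ℝ)⁻¹) {n : ℤ} (hn : n ≠ 0) :
    ∃ e : ℕ, (l : ℤ) ^ e ∣ n ∧ ¬ ((l : ℤ) ^ (e + 1) ∣ n) ∧ ‖(n : Ω)‖ = ((l : ℝ)⁻¹) ^ e := by
  have hlp : l.Prime := Fact.out
  have hf : FiniteMultiplicity (l : ℤ) n := by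
    apply Int.finiteMultiplicity_iff.mpr
    exact ⟨by simpa using hlp.ne_one, hn⟩
  obtain ⟨m, hm, hml⟩ := hf.exists_eq_pow_mul_and_not_dvd
  refine ⟨multiplicity (l : ℤ) n, ⟨m, hm⟩, ?_, ?_⟩
  · exact hf.not_pow_dvd_of_multiplicity_lt (Nat.lt_succ_self _)
  · have hc : IsCoprime m (l : ℤ) := by
      rw [isCoprime_comm]
      exact (Prime.coprime_iff_not_dvd (Nat.prime_iff_prime_int.mp hlp)).mpr hml
    have h1 : ‖(n : Ω)‖ = ‖(l : Ω)‖ ^ (multiplicity (l : ℤ) n) * ‖(m : Ω)‖ := by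
      conv_lhs => rw [hm]
      push_cast
      rw [norm_mul, norm_pow]
    rw [h1, norm_int_coprime hl hc, mul_one, hl]

/-- PROOF. `n = l ^ s * m`, `m` prime to `l`, `‖n‖ = l ^ (-s)`. -/
theorem norm_int_ge (hl : ‖(l : Ω)‖ = (l : ℝ)⁻¹) {n : ℤ} (hn : n ≠ 0) (s : ℕ)
    (hs : ¬ ((l : ℤ) ^ (s + 1) ∣ n)) : ((l : ℝ)⁻¹) ^ s ≤ ‖(n : Ω)‖ := by
  have hlp : l.Prime := Fact.out
  obtain ⟨e, h1, -, h3⟩ := u3_norm hl hn
  rw [h3]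
  have he : e ≤ s := by
    by_contra hc
    exact hs ((pow_dvd_pow _ (by omega)).trans h1)
  apply pow_le_pow_of_le_one (by positivity) _ he
  apply inv_le_one_of_one_le₀
  exact_mod_cast hlp.one_le

/-- PROOF. `l ^ s ∣ n`. -/
theorem norm_int_le (hl : ‖(l : Ω)‖ = (l : ℝ)⁻¹) {n : ℤ} (s : ℕ) (hs : (l : ℤ) ^ s ∣ n) :
    ‖(n : Ω)‖ ≤ ((l : ℝ)⁻¹) ^ s := by
  obtain ⟨t, rfl⟩ := hs
  push_cast
  rw [norm_mul, norm_pow, hl]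
  exact mul_le_of_le_one_right (by positivity) (IsUltrametricDist.norm_intCast_le_one Ω t)

/-- PROOF. `‖n‖ = l ^ (-s)` with `l ^ s ∣ n`, so `l ^ s ≤ |n|`. -/
theorem norm_int_mul_abs (hl : ‖(l : Ω)‖ = (l : ℝ)⁻¹) {n : ℤ} (hn : n ≠ 0) :
    1 ≤ |(n : ℝ)| * ‖(n : Ω)‖ := by
  have hlp : l.Prime := Fact.out
  obtain ⟨e, h1, -, h3⟩ := u3_norm hl hn
  rw [h3]
  have h4 : (l : ℤ) ^ e ≤ |n| := Int.le_of_dvd (abs_pos.mpr hn) ((dvd_abs _ _).mpr h1)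
  have h5 : (l : ℝ) ^ e ≤ |(n : ℝ)| := by exact_mod_cast h4
  have hl0 : (0 : ℝ) < (l : ℝ) ^ e := by
    apply pow_pos
    exact_mod_cast hlp.pos
  rw [inv_pow]
  calc (1 : ℝ) = (l : ℝ) ^ e * ((l : ℝ) ^ e)⁻¹ := (mul_inv_cancel₀ hl0.ne').symm
    _ ≤ |(n : ℝ)| * ((l : ℝ) ^ e)⁻¹ := mul_le_mul_of_nonneg_right h5 (inv_nonneg.mpr hl0.le)

end Pool.Agent.Lib.H84L
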