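import Pool.Agent.Lib.H84L.S0
import Pool.Agent.Lib.H84L.U3

/-! # H84L chunk S5: Liouville's inequality -/

set_option autoImplicit false

namespace Pool.Agent.Lib.H84L

open Polynomial

variable {Ω : Type} [NormedField Ω] [IsUltrametricDist Ω] [CharZero Ω] {l : ℕ} [Fact l.Prime]

theorem s5_int (c : ℤ) : ‖(c : Ω)‖ ≤ 1 := by
  have h := IsUltrametricDist.norm_natCast_le_one Ω c.natAbs
  have h2 : ‖(c : Ω)‖ = ‖((c.natAbs : ℕ) : Ω)‖ := by
    rcases Int.natAbs_eq c with h3 | h3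
    · conv_lhs => rw [h3]
      rw [Int.cast_natCast]
    · conv_lhs => rw [h3]
      rw [Int.cast_neg, norm_neg, Int.cast_natCast]
  rw [h2]
  exact h

/-- PROOF. `y ^ n + c (n-1) y ^ (n-1) + .. + c 0 = 0` with integers `c i` (`n ≥ 1`), `‖c i‖ ≤ 1` (`IsUltrametricDist.norm_intCast_le_one`). If
`‖y‖ > 1` then the first term has the strictly largest norm, contradiction. (Or: `y ^ n = -∑ ..` gives `‖y‖ ^ n ≤ max ‖y‖ ^ i ≤ ‖y‖ ^ (n-1)`.) -/
theorem norm_le_one_of_integral {y : Ω} (hy : IsIntegral ℤ y) : ‖y‖ ≤ 1 := by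
  obtain ⟨p, hp, h0⟩ := hy
  by_contra hcon
  rw [not_le] at hcon
  have hd : 0 < p.natDegree := by
    rcases Nat.eq_zero_or_pos p.natDegree with h | h
    · rw [hp.natDegree_eq_zero.1 h, eval₂_one] at h0
      exact absurd h0 one_ne_zero
    · exact h
  have h1 : y ^ p.natDegree = -∑ i ∈ Finset.range p.natDegree, (p.coeff i : Ω) * y ^ i := by
    rw [eval₂_eq_sum_range, Finset.sum_range_succ, hp.coeff_natDegree, map_one, one_mul] at h0
    rw [eq_neg_iff_add_eq_zero, add_comm]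
    exact h0
  have h2 : ‖y‖ ^ p.natDegree ≤ ‖y‖ ^ (p.natDegree - 1) := by
    rw [← norm_pow, h1, norm_neg]
    refine IsUltrametricDist.norm_sum_le_of_forall_le_of_nonneg (by positivity) fun i hi => ?_
    rw [norm_mul, norm_pow]
    refine (mul_le_of_le_one_left (by positivity) (s5_int _)).trans ?_
    exact pow_le_pow_right₀ hcon.le (by rw [Finset.mem_range] at hi; omega)
  have h3 := pow_lt_pow_right₀ hcon (show p.natDegree - 1 < p.natDegree by omega)
  exact absurd h2 (not_le.2 h3)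

/-- PROOF. Let `g = minpoly ℤ y`, `n` its degree, `1 ≤ n ≤ B`, `c₀ = g.coeff 0`. `c₀ ≠ 0` (`minpoly.coeff_zero_ne_zero`, `y ≠ 0`). The complex
roots have absolute value at most `V`, so `|c₀| ≤ V ^ n ≤ V ^ B` (`Polynomial.coeff_le_of_roots_le` with `i = 0`). In `Ω`:
`c₀ = - y (∑ i ≥ 1, c i y ^ (i-1))` and the second factor has norm at most 1 (`norm_le_one_of_integral`), so `‖c₀‖ ≤ ‖y‖`. Finally
`1 ≤ |c₀| ‖c₀‖` (`norm_int_mul_abs`). -/
theorem liouville (hl : ‖(l : Ω)‖ = (l : ℝ)⁻¹) {B : ℕ} {V : ℝ} (hV : 1 ≤ V) {y : Ω} (h : Bd B V y) (hy : y ≠ 0) :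
    1 ≤ ‖y‖ * V ^ B := by
  obtain ⟨hint, hdeg, hroots⟩ := h
  set g := minpoly ℤ y with hg
  have hmon : g.Monic := minpoly.monic hint
  have hc0 : g.coeff 0 ≠ 0 := by
    intro h0
    have h1 : IsIntegral ℚ y := hint.tower_top
    have h2 : (minpoly ℚ y).coeff 0 ≠ 0 := minpoly.coeff_zero_ne_zero h1 hy
    rw [minpoly.isIntegrallyClosed_eq_field_fractions' ℚ hint, coeff_map] at h2
    apply h2
    show algebraMap ℤ ℚ (g.coeff 0) = 0
    rw [h0, map_zero]
  have hy1 : ‖y‖ ≤ 1 := norm_le_one_of_integral hint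
  have h1 : |((g.coeff 0 : ℤ) : ℝ)| ≤ V ^ B := by
    have hm : (g.map (algebraMap ℤ ℂ)).Monic := hmon.map _
    have h2 := coeff_le_of_roots_le (F := ℂ) (K := ℂ) (f := RingHom.id ℂ) (B := V) 0 hm (IsAlgClosed.splits _) (by
      intro z hz
      rw [Polynomial.map_id, mem_roots hm.ne_zero, IsRoot.def, eval_map_algebraMap] at hz
      exact hroots z hz)
    rw [Polynomial.map_id, coeff_map, Nat.sub_zero, Nat.choose_zero_right, Nat.cast_one, mul_one, hmon.natDegree_map] at h2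
    have h3 : ‖(algebraMap ℤ ℂ) (g.coeff 0)‖ = |((g.coeff 0 : ℤ) : ℝ)| := by
      rw [eq_intCast, Complex.norm_intCast]
    rw [h3] at h2
    exact h2.trans (pow_le_pow_right₀ hV hdeg)
  have h2 : ‖((g.coeff 0 : ℤ) : Ω)‖ ≤ ‖y‖ := by
    have h3 : aeval y g = 0 := minpoly.aeval ℤ y
    rw [aeval_eq_sum_range, Finset.sum_range_succ', pow_zero] at h3
    have h4 : ((g.coeff 0 : ℤ) : Ω) = -∑ i ∈ Finset.range g.natDegree, g.coeff (i + 1) • y ^ (i + 1) := by
      rw [eq_neg_iff_add_eq_zero, add_comm, ← h3]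
      simp
    rw [h4, norm_neg]
    refine IsUltrametricDist.norm_sum_le_of_forall_le_of_nonneg (norm_nonneg _) fun i _ => ?_
    rw [zsmul_eq_mul, norm_mul, norm_pow]
    refine (mul_le_of_le_one_left (by positivity) (s5_int _)).trans ?_
    rw [pow_succ]
    exact mul_le_of_le_one_left (norm_nonneg _) (pow_le_one₀ (norm_nonneg _) hy1)
  have h3 := norm_int_mul_abs hl hc0
  calc (1 : ℝ) ≤ |((g.coeff 0 : ℤ) : ℝ)| * ‖((g.coeff 0 : ℤ) : Ω)‖ := h3
    _ ≤ V ^ B * ‖y‖ := mul_le_mul h1 h2 (norm_nonneg _) (by positivity)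
    _ = ‖y‖ * V ^ B := mul_comm _ _

end Pool.Agent.Lib.H84L
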