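import Pool.Agent.Lib.H84L.D0

/-! # H84L chunk U1: products of smooth functions -/

set_option autoImplicit false

namespace Pool.Agent.Lib.H84L

variable {Ω : Type} [NormedField Ω] [IsUltrametricDist Ω]

/-- PROOF. The iterated difference of the shifted function is the shifted iterated difference. -/
theorem SmJ.shift {r c : ℝ} {J : ℕ} {f : ℤ → Ω} (h : SmJ r c J f) (a : ℤ) :
    SmJ r c J (fun z => f (z + a)) := by
  intro j hj z
  have key : ∀ (j : ℕ) (f : ℤ → Ω) (z : ℤ),
      ((fwdDiff (1 : ℤ))^[j] (fun z => f (z + a))) z = ((fwdDiff (1 : ℤ))^[j] f) (z + a) := by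
    intro j
    induction j with
    | zero => intro f z; rfl
    | succ j ih =>
      intro f z
      rw [Function.iterate_succ_apply, Function.iterate_succ_apply, ← ih]
      have e : fwdDiff (1 : ℤ) (fun z => f (z + a)) = fun z => (fwdDiff (1 : ℤ) f) (z + a) := by
        funext w
        simp only [fwdDiff]
        rw [add_right_comm]
      rw [e]
  rw [key]
  exact h j hj _

theorem SmJ.add {r c : ℝ} {J : ℕ} {f g : ℤ → Ω} (hf : SmJ r c J f) (hg : SmJ r c J g) :
    SmJ r c J (fun z => f z + g z) := by
  intro j hj z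
  have e : (fun z => f z + g z) = f + g := rfl
  rw [e, fwdDiff_iter_add, Pi.add_apply]
  exact (IsUltrametricDist.norm_add_le_max _ _).trans (max_le (hf j hj z) (hg j hj z))

/-- PROOF. Induction on `J`, for all `f, g, c, c'`. `J = 0`: norms multiply. Step: for `h = f g`:
`h (z + 1) - h z = (Δ f) z * g (z + 1) + f z * (Δ g) z`; `Δ f` is `SmJ r (c r) J`, `Δ g` is
`SmJ r (c' r) J`, `g (· + 1)` is `SmJ r c' (J + 1)` (`SmJ.shift`). By induction (and `SmJ.add`) `Δ h` is
`SmJ r (c c' r) J`; so `h` is `SmJ r (c c') (J + 1)` (`Function.iterate_succ_apply`). -/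
theorem SmJ.mul {r c c' : ℝ} (hr : 0 ≤ r) (hc : 0 ≤ c) (hc' : 0 ≤ c') {J : ℕ} {f g : ℤ → Ω}
    (hf : SmJ r c J f) (hg : SmJ r c' J g) : SmJ r (c * c') J (fun z => f z * g z) := by
  induction J generalizing f g c c' with
  | zero =>
    intro j hj z
    obtain rfl : j = 0 := by omega
    have h1 := hf 0 le_rfl z
    have h2 := hg 0 le_rfl z
    simp only [Function.iterate_zero, id_eq, pow_zero, mul_one] at h1 h2 ⊢
    rw [norm_mul]
    exact mul_le_mul h1 h2 (norm_nonneg _) hc
  | succ J ih =>
    have step : ∀ {c : ℝ} {f : ℤ → Ω}, SmJ r c (J + 1) f → SmJ r (c * r) J (fwdDiff (1 : ℤ) f) := by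
      intro c f h j hj z
      have h1 := h (j + 1) (by omega) z
      rw [Function.iterate_succ_apply] at h1
      calc _ ≤ _ := h1
        _ = _ := by ring
    have mono : ∀ {c : ℝ} {f : ℤ → Ω}, SmJ r c (J + 1) f → SmJ r c J f :=
      fun h j hj z => h j (by omega) z
    have hd : SmJ r (c * c' * r) J (fwdDiff (1 : ℤ) (fun z => f z * g z)) := by
      have h1 := ih (mul_nonneg hc hr) hc' (step hf) (mono (hg.shift 1))
      have h2 := ih hc (mul_nonneg hc' hr) (mono hf) (step hg)
      have e1 : c * r * c' = c * c' * r := by ring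
      have e2 : c * (c' * r) = c * c' * r := by ring
      rw [e1] at h1
      rw [e2] at h2
      have h3 := h1.add h2
      have e3 : fwdDiff (1 : ℤ) (fun z => f z * g z) =
          fun z => (fwdDiff (1 : ℤ) f z) * g (z + 1) + f z * (fwdDiff (1 : ℤ) g) z := by
        funext z
        simp only [fwdDiff]
        ring
      rw [e3]
      exact h3
    intro j hj z
    rcases j with _ | j
    · have h1 := hf 0 (Nat.zero_le _) z
      have h2 := hg 0 (Nat.zero_le _) z
      simp only [Function.iterate_zero, id_eq, pow_zero, mul_one] at h1 h2 ⊢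
      rw [norm_mul]
      exact mul_le_mul h1 h2 (norm_nonneg _) hc
    · have h1 := hd j (by omega) z
      rw [Function.iterate_succ_apply]
      calc _ ≤ _ := h1
        _ = _ := by ring

end Pool.Agent.Lib.H84L
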