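import Pool.Agent.Lib.H84L.D0
import Pool.Agent.Lib.H84L.U1

/-! # H84L chunk U2: constants, sums, products, linear functions -/

set_option autoImplicit false

namespace Pool.Agent.Lib.H84L

variable {Ω : Type} [NormedField Ω] [IsUltrametricDist Ω]

omit [IsUltrametricDist Ω] in
theorem u2_const (a : Ω) (j : ℕ) : (fwdDiff (1 : ℤ))^[j + 1] (fun _ : ℤ => a) = fun _ => 0 := by
  induction j with
  | zero =>
    funext z
    show fwdDiff (1 : ℤ) (fun _ : ℤ => a) z = 0
    simp only [fwdDiff, sub_self]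
  | succ j ih =>
    rw [Function.iterate_succ_apply', ih]
    funext z
    simp only [fwdDiff, sub_self]

theorem u2_int (z : ℤ) : ‖(z : Ω)‖ ≤ 1 := IsUltrametricDist.norm_intCast_le_one Ω z

omit [IsUltrametricDist Ω] in
theorem u2_lin (a b : Ω) : fwdDiff (1 : ℤ) (fun z : ℤ => a + z * b) = fun _ => b := by
  funext z
  simp only [fwdDiff]
  push_cast
  ring

theorem Sm.const {r c : ℝ} (hr : 0 ≤ r) (hc : 0 ≤ c) {a : Ω} (ha : ‖a‖ ≤ c) :
    Sm r c (fun _ : ℤ => a) := by
  intro j z
  rcases j with _ | j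
  · simp only [Function.iterate_zero, id_eq, pow_zero, mul_one]
    exact ha
  · rw [u2_const, norm_zero]
    positivity

/-- PROOF. The first difference is the constant `b`, the higher ones are 0. -/
theorem Sm.lin {r : ℝ} (hr : 0 ≤ r) (hr1 : r ≤ 1) {a b : Ω} (ha : ‖a‖ ≤ 1) (hb : ‖b‖ ≤ r) :
    Sm r 1 (fun z : ℤ => a + z * b) := by
  intro j z
  rcases j with _ | _ | j
  · simp only [Function.iterate_zero, id_eq, pow_zero, mul_one]
    refine (IsUltrametricDist.norm_add_le_max _ _).trans (max_le ha ?_)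
    rw [norm_mul]
    calc ‖(z : Ω)‖ * ‖b‖ ≤ 1 * 1 := mul_le_mul (u2_int z) (hb.trans hr1) (norm_nonneg _) zero_le_one
      _ = 1 := one_mul 1
  · rw [zero_add, Function.iterate_one, u2_lin, pow_one, one_mul]
    exact hb
  · rw [Function.iterate_succ_apply, u2_lin, u2_const, norm_zero]
    positivity

theorem Sm.mul {r : ℝ} (hr : 0 ≤ r) {f g : ℤ → Ω} (hf : Sm r 1 f) (hg : Sm r 1 g) :
    Sm r 1 (fun z => f z * g z) := by
  rw [sm_iff] at hf hg ⊢
  intro J
  have h := (hf J).mul hr zero_le_one zero_le_one (hg J)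
  rwa [mul_one] at h

theorem Sm.pow {r : ℝ} (hr : 0 ≤ r) {f : ℤ → Ω} (hf : Sm r 1 f) (n : ℕ) :
    Sm r 1 (fun z => f z ^ n) := by
  induction n with
  | zero =>
    simp only [pow_zero]
    exact Sm.const hr zero_le_one (by rw [norm_one])
  | succ n ih =>
    simp only [pow_succ]
    exact Sm.mul hr ih hf

theorem Sm.prod {r : ℝ} (hr : 0 ≤ r) {ι : Type} (s : Finset ι) (f : ι → ℤ → Ω)
    (hf : ∀ i ∈ s, Sm r 1 (f i)) : Sm r 1 (fun z => ∏ i ∈ s, f i z) := by
  classical
  induction s using Finset.induction_on with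
  | empty =>
    simp only [Finset.prod_empty]
    exact Sm.const hr zero_le_one (by rw [norm_one])
  | insert a s ha ih =>
    simp only [Finset.prod_insert ha]
    exact Sm.mul hr (hf a (Finset.mem_insert_self a s)) (ih fun i hi => hf i (Finset.mem_insert_of_mem hi))

theorem Sm.sum {r : ℝ} (hr : 0 ≤ r) {ι : Type} (s : Finset ι) (f : ι → ℤ → Ω)
    (hf : ∀ i ∈ s, Sm r 1 (f i)) : Sm r 1 (fun z => ∑ i ∈ s, f i z) := by
  classical
  induction s using Finset.induction_on with
  | empty =>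
    simp only [Finset.sum_empty]
    exact Sm.const hr zero_le_one (by rw [norm_zero]; exact zero_le_one)
  | insert a s ha ih =>
    simp only [Finset.sum_insert ha]
    have h1 := sm_iff.1 (hf a (Finset.mem_insert_self a s))
    have h2 := sm_iff.1 (ih fun i hi => hf i (Finset.mem_insert_of_mem hi))
    exact sm_iff.2 fun J => (h1 J).add (h2 J)

end Pool.Agent.Lib.H84L
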