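import Pool.Agent.Lib.H84L.N2
import Pool.Agent.Lib.H84L.U2
import Pool.Agent.Lib.H84L.S2
import Pool.Agent.Lib.H84L.S4
import Pool.Agent.Lib.H84L.S5

/-!
# H84L: the auxiliary polynomial: definitions

`Phi l L p G z = ∑ a b, p a b * ∏ i, (l z i) ^ (a i) * G z ^ b`. `Box T z`: `|z i| ≤ T` for all `i`.
-/

set_option autoImplicit false

namespace Pool.Agent.Lib.H84L

variable {Ω : Type} [Field Ω] {ι : Type} [Fintype ι]

/-- The box. -/
def Box (T : ℕ) (z : ι → ℤ) : Prop := ∀ i, |z i| ≤ (T : ℤ)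

/-- The monomial `∏ (l z i) ^ (a i)`. -/
def mon (l : ℕ) {L : ℕ} (a : ι → Fin L) (z : ι → ℤ) : ℤ := ∏ i, ((l : ℤ) * z i) ^ ((a i : Fin L) : ℕ)

/-- The auxiliary function. -/
noncomputable def Phi [DecidableEq ι] (l L : ℕ) (p : (ι → Fin L) × Fin L → ℤ) (G : (ι → ℤ) → Ω) (z : ι → ℤ) : Ω :=
  ∑ i : (ι → Fin L) × Fin L, (p i : Ω) * (mon l i.1 z : Ω) * G z ^ ((i.2 : Fin L) : ℕ)

/-- The bound for the coefficients of the auxiliary polynomial. `d` = number of variables, `C, M`: the conjugates of `G z` are at most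
`(C T) ^ M` for `z` in the box of size `T`; `D`: the degree bound at the size `T`. -/
def PB (l d C M L D T : ℕ) : ℕ := L ^ (d + 1) * ((l * T) ^ (d * L) * (1 + (2 * (C * T) ^ M) ^ D) ^ L)

/-- The bound for the conjugates of `Phi` on the box of size `T`, `P` the bound for the coefficients. -/
def VB (l d C M L P T : ℕ) : ℕ := L ^ (d + 1) * (P * ((l * T) ^ (d * L) * ((C * T) ^ M) ^ L))

end Pool.Agent.Lib.H84L
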