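import Mathlib

/-!
# H84L: algebraic integers with bounded degree and bounded conjugates

`Bd B Q w`: `w` is an algebraic integer of degree at most `B`, and its complex conjugates (the complex roots of its
minimal polynomial) have absolute value at most `Q`.
-/

set_option autoImplicit false

namespace Pool.Agent.Lib.H84L

open Polynomial

/-- An algebraic integer of degree at most `B` whose complex conjugates have absolute value at most `Q`. -/
def Bd {Ω : Type} [Field Ω] (B : ℕ) (Q : ℝ) (w : Ω) : Prop :=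
  IsIntegral ℤ w ∧ (minpoly ℤ w).natDegree ≤ B ∧ ∀ z : ℂ, aeval z (minpoly ℤ w) = 0 → ‖z‖ ≤ Q

theorem Bd.mono {Ω : Type} [Field Ω] {B B' : ℕ} {Q Q' : ℝ} {w : Ω} (h : Bd B Q w) (hB : B ≤ B') (hQ : Q ≤ Q') :
    Bd B' Q' w := ⟨h.1, h.2.1.trans hB, fun z hz => (h.2.2 z hz).trans hQ⟩

end Pool.Agent.Lib.H84L
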