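import Pool.Agent.Lib.H84L.D1
import Pool.Agent.Lib.H84L.S0
import Pool.Agent.Lib.H84L.P0
import Pool.Agent.Lib.CFT.D2

/-!
# H84L: definitions for the number field part

`FD D a`: the value of the character `D` of the divisor group at the divisor of `a`. `alp q b z = 1 + q ∑ z i b i`. `om a`: the number of prime divisors of `a`.
`GG M F q b z = (norm of alp) ^ M * F (alp)`.
-/

set_option autoImplicit false

namespace Pool.Agent.Lib.H84L

open NumberField CFT

variable {K : Type} [Field K] [NumberField K] {Ω : Type} [NormedField Ω] {ι : Type} [Fintype ι]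

/-- The value of `D` at the divisor of `a` (equal to 1 for `a = 0`). -/
noncomputable def FD (D : Dv K →+ Additive Ωˣ) (a : 𝓞 K) : Ω := ((D (dv (a : K))).toMul : Ω)

/-- The point `1 + q ∑ z i b i`. -/
noncomputable def alp (q : ℕ) (b : ι → 𝓞 K) (z : ι → ℤ) : 𝓞 K := 1 + (q : 𝓞 K) * ∑ i, (z i : 𝓞 K) * b i

/-- The number of prime divisors. -/
noncomputable def om (a : 𝓞 K) : ℕ := (dv (a : K)).support.card

/-- `G z`. -/
noncomputable def GG (M : ℕ) (F : 𝓞 K → Ω) (q : ℕ) (b : ι → 𝓞 K) (z : ι → ℤ) : Ω :=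
  ((Algebra.norm ℤ (alp q b z) : ℤ) : Ω) ^ M * F (alp q b z)

end Pool.Agent.Lib.H84L
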