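import Pool.Agent.Lib.H84L.C1
import Pool.Agent.Lib.H84L.W0

/-! # H84L chunk C2: polynomials which vanish on a lattice -/

set_option autoImplicit false

namespace Pool.Agent.Lib.H84L

open NumberField MvPolynomial

/-- PROOF. A polynomial over a field of characteristic 0 which vanishes on all integral points is 0 (`MvPolynomial.funext_set` with the infinite set of integers, or
induction on the number of variables, or `MvPolynomial.eq_zero_of_eval_zero_at_prod_finset`). -/
theorem eq_zero_of_int {Ω : Type} [Field Ω] [CharZero Ω] {ι : Type} [Fintype ι] (R : MvPolynomial ι Ω)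
    (h : ∀ z : ι → ℤ, eval (fun i => (z i : Ω)) R = 0) : R = 0 := by
  refine MvPolynomial.funext_set (fun _ : ι => Set.range (fun n : ℤ => (n : Ω))) (fun _ => ?_) fun x hx => ?_
  · exact Set.infinite_range_of_injective Int.cast_injective
  · have h1 : ∀ i, ∃ n : ℤ, (n : Ω) = x i := fun i => hx i (Set.mem_univ i)
    choose z hz using h1
    have h2 : x = fun i => (z i : Ω) := funext fun i => (hz i).symm
    rw [h2, h z, map_zero]

/-- PROOF. Let `ψ : MvPolynomial (K →+* Ω) Ω → MvPolynomial ι Ω` be the substitution `X τ ↦ 1 + q ∑ i, τ (b i) X i` (`MvPolynomial.bind₁`). `ψ R` vanishes on all integral points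
(`τ (alp q b z) = 1 + q ∑ i z i τ (b i)`), so `ψ R = 0` (`eq_zero_of_int`). With `c` of `dual_basis` let `φ` be the substitution `X i ↦ ∑ τ, c i τ (X τ - 1) / q`. Then
`φ (ψ (X τ)) = 1 + ∑ i τ', τ (b i) c i τ' (X τ' - 1) = X τ`, so `R = φ (ψ R) = 0`. -/
theorem eq_zero_of_alp {K : Type} [Field K] [NumberField K] {Ω : Type} [NormedField Ω] [CharZero Ω] [IsAlgClosed Ω] {ι : Type} [Fintype ι]
    [DecidableEq ι] (b : Module.Basis ι ℤ (𝓞 K)) {q : ℕ} (hq : 0 < q) (R : MvPolynomial (K →+* Ω) Ω)
    (h : ∀ z : ι → ℤ, eval (fun τ : K →+* Ω => τ (alp q b z : K)) R = 0) : R = 0 := by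
  classical
  obtain ⟨c, hc1, hc2, hc3⟩ := dual_basis (Ω := Ω) b
  have hq0 : (q : Ω) ≠ 0 := Nat.cast_ne_zero.2 hq.ne'
  set f : (K →+* Ω) → MvPolynomial ι Ω := fun τ => 1 + C (q : Ω) * ∑ i, C (τ (b i : K)) * X i with hf
  set g : ι → MvPolynomial (K →+* Ω) Ω := fun i => ∑ τ : K →+* Ω, C (c i τ * (q : Ω)⁻¹) * (X τ - 1) with hg
  have h1 : bind₁ f R = 0 := by
    refine eq_zero_of_int _ fun z => ?_
    have h2 : (fun τ : K →+* Ω => eval (fun i => (z i : Ω)) (f τ)) = fun τ : K →+* Ω => τ (alp q b z : K) := by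
      funext τ
      have h3 : ((alp q b z : 𝓞 K) : K) = 1 + (q : K) * ∑ i, (z i : K) * (b i : K) := by
        show algebraMap (𝓞 K) K (alp q b z) = _
        simp only [alp, map_add, map_one, map_mul, map_natCast, map_sum, map_intCast]
      rw [h3, hf]
      simp only [map_add, map_one, map_mul, eval_C, map_sum, eval_X, map_natCast, map_intCast]
      congr 2
      exact Finset.sum_congr rfl fun i _ => mul_comm _ _
    have h4 := h z
    rw [← h2] at h4
    rw [← h4]
    show eval (fun i => (z i : Ω)) (bind₁ f R) = _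
    rw [← coe_aeval_eq_eval, AlgHom.coe_toRingHom, aeval_bind₁]
    rfl
  have h5 : bind₁ g (bind₁ f R) = R := by
    rw [bind₁_bind₁]
    have h6 : (fun τ => bind₁ g (f τ)) = X := by
      funext τ
      have h7 : bind₁ g (f τ) = 1 + C (q : Ω) * ∑ i, C (τ (b i : K)) * g i := by
        simp only [hf, map_add, map_one, map_mul, map_sum, bind₁_X_right, algHom_C, algebraMap_eq]
      rw [h7, hg]
      have h8 : C (q : Ω) * ∑ i, C (τ (b i : K)) * ∑ τ' : K →+* Ω, C (c i τ' * (q : Ω)⁻¹) * (X τ' - 1) =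
          ∑ τ' : K →+* Ω, C (∑ i, τ (b i : K) * c i τ') * (X τ' - 1 : MvPolynomial (K →+* Ω) Ω) := by
        simp only [Finset.mul_sum]
        rw [Finset.sum_comm]
        refine Finset.sum_congr rfl fun τ' _ => ?_
        rw [map_sum, Finset.sum_mul]
        refine Finset.sum_congr rfl fun i _ => ?_
        rw [← mul_assoc, ← mul_assoc, ← C_mul, ← C_mul]
        congr 2
        field_simp
      rw [h8, Finset.sum_eq_single τ]
      · rw [hc2, C_1]
        ring
      · intro τ' _ hne
        rw [hc3 τ τ' hne.symm, C_0, zero_mul]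
      · intro h9
        exact absurd (Finset.mem_univ _) h9
    rw [h6, bind₁_X_left]
    rfl
  rw [← h5, h1, map_zero]

end Pool.Agent.Lib.H84L
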