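import Mathlib

/-! # H84L chunk M1: iterated multiplicative differences are fractions congruent 1 -/

set_option autoImplicit false

namespace Pool.Agent.Lib.H84L

open Polynomial

/-- The pairs (numerator, denominator) of the iterated multiplicative differences of `X`; `δ` is the
step: `mdp δ 0 = (X + δ, X)`, that is the first difference. -/
noncomputable def mdp {R : Type} [CommRing R] (δ : R) : ℕ → R[X] × R[X]
  | 0 => (X + C δ, X)
  | j + 1 => (((mdp δ j).1.comp (X + C δ)) * (mdp δ j).2, ((mdp δ j).2.comp (X + C δ)) * (mdp δ j).1)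

theorem m1_comp_dvd {R : Type} [CommRing R] {q δ : R} (hδ : q ∣ δ) (P : R[X]) :
    C q ∣ P.comp (X + C δ) - P := by
  have h1 := Polynomial.sub_dvd_eval_sub (X + C δ) X (P.map C)
  rw [eval_map, eval_map, add_sub_cancel_left] at h1
  have h2 : eval₂ C X P = P := P.eval₂_C_X
  rw [h2] at h1
  exact (_root_.map_dvd C hδ).trans h1

/-- PROOF. Induction on `j`. `j = 0`: the difference is `C δ`. Step: `A - B = q ^ (j+1) G`, so
`A' - B' = A(X+δ) B - B(X+δ) A = q ^ (j+1) (G(X+δ) B - B(X+δ) G)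
= q ^ (j+1) ((G(X+δ) - G) B - (B(X+δ) - B) G)`, and `P(X+δ) - P` is divisible by `C δ`
(`Polynomial.sub_dvd_eval_sub` style: `(X + C δ) - X ∣ P.comp (X + C δ) - P.comp X`), so by `C q`. -/
theorem mdp_sub {R : Type} [CommRing R] {q δ : R} (hδ : q ∣ δ) (j : ℕ) :
    (C q) ^ (j + 1) ∣ (mdp δ j).1 - (mdp δ j).2 := by
  induction j with
  | zero =>
    have h : (mdp δ 0).1 - (mdp δ 0).2 = C δ := by
      show X + C δ - X = C δ
      ring
    rw [h, zero_add, pow_one]
    exact _root_.map_dvd C hδ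
  | succ j ih =>
    obtain ⟨G, hG⟩ := ih
    obtain ⟨u, hu⟩ := m1_comp_dvd hδ G
    obtain ⟨v, hv⟩ := m1_comp_dvd hδ (mdp δ j).2
    have hA : (mdp δ j).1 = (mdp δ j).2 + (C q) ^ (j + 1) * G := by rw [← hG]; ring
    have hAc : (mdp δ j).1.comp (X + C δ) = (mdp δ j).2.comp (X + C δ) + (C q) ^ (j + 1) * G.comp (X + C δ) := by
      rw [hA, add_comp, mul_comp, pow_comp, C_comp]
    refine ⟨u * (mdp δ j).2 - v * G, ?_⟩
    show ((mdp δ j).1.comp (X + C δ)) * (mdp δ j).2 - ((mdp δ j).2.comp (X + C δ)) * (mdp δ j).1 = _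
    rw [hAc, hA]
    linear_combination (C q) ^ (j + 1) * (mdp δ j).2 * hu - (C q) ^ (j + 1) * G * hv

/-- PROOF. Induction on `j`, for all `x` congruent 1 (`x + δ` is also congruent 1). -/
theorem mdp_cong {R : Type} [CommRing R] {q δ : R} (hδ : q ∣ δ) (j : ℕ) {x : R}
    (hx : q ∣ x - 1) : q ∣ (mdp δ j).1.eval x - 1 ∧ q ∣ (mdp δ j).2.eval x - 1 := by
  induction j generalizing x with
  | zero =>
    constructor
    · show q ∣ (X + C δ : R[X]).eval x - 1
      rw [eval_add, eval_X, eval_C]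
      have h : x + δ - 1 = (x - 1) + δ := by ring
      rw [h]
      exact dvd_add hx hδ
    · show q ∣ (X : R[X]).eval x - 1
      rw [eval_X]
      exact hx
  | succ j ih =>
    have hx' : q ∣ (x + δ) - 1 := by
      have h : x + δ - 1 = (x - 1) + δ := by ring
      rw [h]
      exact dvd_add hx hδ
    obtain ⟨h1, h2⟩ := ih hx
    obtain ⟨h3, h4⟩ := ih hx'
    constructor
    · show q ∣ (((mdp δ j).1.comp (X + C δ)) * (mdp δ j).2).eval x - 1
      rw [eval_mul, eval_comp, eval_add, eval_X, eval_C]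
      have h : (mdp δ j).1.eval (x + δ) * (mdp δ j).2.eval x - 1 =
          (mdp δ j).1.eval (x + δ) * ((mdp δ j).2.eval x - 1) + ((mdp δ j).1.eval (x + δ) - 1) := by ring
      rw [h]
      exact dvd_add (h2.mul_left _) h3
    · show q ∣ (((mdp δ j).2.comp (X + C δ)) * (mdp δ j).1).eval x - 1
      rw [eval_mul, eval_comp, eval_add, eval_X, eval_C]
      have h : (mdp δ j).2.eval (x + δ) * (mdp δ j).1.eval x - 1 =
          (mdp δ j).2.eval (x + δ) * ((mdp δ j).1.eval x - 1) + ((mdp δ j).2.eval (x + δ) - 1) := by ring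
      rw [h]
      exact dvd_add (h1.mul_left _) h4

end Pool.Agent.Lib.H84L
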