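import Pool.Agent.Lib.H84L.D0
import Pool.Agent.Lib.H84L.U1
import Pool.Agent.Lib.H84L.U2

/-! # H84L chunk M2: multiplicative differences near 1 imply smoothness -/

set_option autoImplicit false

namespace Pool.Agent.Lib.H84L

variable {Ω : Type} [NormedField Ω] [IsUltrametricDist Ω]

/-- The multiplicative difference. -/
def md (f : ℤ → Ω) : ℤ → Ω := fun z => f (z + 1) / f z

theorem m2_succ {r c : ℝ} {J : ℕ} {f : ℤ → Ω} (h0 : ∀ z, ‖f z‖ ≤ c) (h : SmJ r (c * r) J (fwdDiff (1 : ℤ) f)) :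
    SmJ r c (J + 1) f := by
  intro j hj z
  cases j with
  | zero => simpa using h0 z
  | succ j =>
    have h1 := h j (by omega) z
    rw [Function.iterate_succ_apply]
    refine h1.trans (le_of_eq ?_)
    ring

theorem m2_mono {r c c' : ℝ} (hr : 0 ≤ r) (hc : c ≤ c') {J : ℕ} {f : ℤ → Ω} (h : SmJ r c J f) : SmJ r c' J f :=
  fun j hj z => (h j hj z).trans (mul_le_mul_of_nonneg_right hc (pow_nonneg hr j))

theorem m2_diff {g : ℤ → Ω} (hg : ∀ z, ‖g z‖ = 1) :
    fwdDiff (1 : ℤ) g = fun z => g z * (md g z - 1) := by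
  funext z
  have h0 : g z ≠ 0 := by
    intro h
    have := hg z
    rw [h, norm_zero] at this
    exact zero_ne_one this
  show g (z + 1) - g z = g z * (g (z + 1) / g z - 1)
  rw [mul_sub, mul_div_cancel₀ _ h0, mul_one]

theorem m2_norm {g : ℤ → Ω} (hg : ∀ z, ‖g z‖ = 1) (z : ℤ) : ‖md g z‖ = 1 := by
  show ‖g (z + 1) / g z‖ = 1
  rw [norm_div, hg, hg, div_one]

/-- PROOF. Induction on `J`, for all `g` and `m`. `J = 0`: `‖g z - 1‖ ≤ r ^ m` (hypothesis with `i = 0`).
Step: `Δ (g - 1) = g * (md g - 1)` (`‖g z‖ = 1`, so `g z ≠ 0`). `g = 1 + (g - 1)` is `SmJ r 1 J`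
(induction hypothesis and `r ^ m ≤ 1`), `md g - 1` is `SmJ r (r ^ (m+1)) J` (induction hypothesis for
`md g`, `m + 1`: `md^[i] (md g) = md^[i+1] g`). So (`SmJ.mul`) the difference is
`SmJ r (r ^ (m+1)) J`, and `g - 1` is `SmJ r (r ^ m) (J + 1)`. -/
theorem smJ_of_md {r : ℝ} (hr : 0 ≤ r) (hr1 : r ≤ 1) (J : ℕ) : ∀ (m : ℕ) (g : ℤ → Ω),
    (∀ z, ‖g z‖ = 1) → (∀ i z, ‖(md^[i] g) z - 1‖ ≤ r ^ (m + i)) →
    SmJ r (r ^ m) J (fun z => g z - 1) := by
  induction J with
  | zero =>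
    intro m g hg h j hj z
    obtain rfl : j = 0 := by omega
    simpa using h 0 z
  | succ J ih =>
    intro m g hg h
    refine m2_succ (fun z => by simpa using h 0 z) ?_
    have h1 : SmJ r (r ^ m) J (fun z => g z - 1) := ih m g hg h
    have h2 : SmJ r (r ^ (m + 1)) J (fun z => md g z - 1) := by
      refine ih (m + 1) (md g) (m2_norm hg) fun i z => ?_
      have h3 := h (i + 1) z
      rw [Function.iterate_succ_apply] at h3
      have h4 : m + 1 + i = m + (i + 1) := by ring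
      rw [h4]
      exact h3
    have hc : SmJ r 1 J (fun _ : ℤ => (1 : Ω)) := sm_iff.1 (Sm.const hr zero_le_one (by simp)) J
    have hg1 : SmJ r 1 J g := by
      have h5 := hc.add (m2_mono hr (pow_le_one₀ hr hr1) h1)
      have h6 : (fun z => (1 : Ω) + (g z - 1)) = g := by
        funext z
        ring
      rwa [h6] at h5
    have h7 : SmJ r (1 * r ^ (m + 1)) J (fun z => g z * (md g z - 1)) :=
      hg1.mul hr zero_le_one (pow_nonneg hr _) h2
    have h8 : fwdDiff (1 : ℤ) (fun z => g z - 1) = fun z => g z * (md g z - 1) := by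
      rw [← m2_diff hg]
      funext z
      show g (z + 1) - 1 - (g z - 1) = g (z + 1) - g z
      ring
    rw [h8]
    have h9 : r ^ m * r = 1 * r ^ (m + 1) := by ring
    rw [h9]
    exact h7

/-- PROOF. Induction on `J` for `SmJ r 1 J f`: `J = 0` is `‖f z‖ = 1`. Step: `Δ f = f * (md f - 1)`,
`md f - 1` is `SmJ r r J` by `smJ_of_md` with `m = 1`, `g = md f`. -/
theorem sm_of_md {r : ℝ} (hr : 0 ≤ r) (hr1 : r ≤ 1) {f : ℤ → Ω} (hf : ∀ z, ‖f z‖ = 1)
    (h : ∀ i z, ‖(md^[i + 1] f) z - 1‖ ≤ r ^ (i + 1)) : Sm r 1 f := by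
  rw [sm_iff]
  intro J
  induction J with
  | zero =>
    intro j hj z
    obtain rfl : j = 0 := by omega
    simp [hf z]
  | succ J ih =>
    refine m2_succ (fun z => (hf z).le) ?_
    have h2 : SmJ r (r ^ 1) J (fun z => md f z - 1) := by
      refine smJ_of_md hr hr1 J 1 (md f) (m2_norm hf) fun i z => ?_
      have h3 := h i z
      rw [Function.iterate_succ_apply] at h3
      rw [add_comm]
      exact h3
    have h7 : SmJ r (1 * r ^ 1) J (fun z => f z * (md f z - 1)) :=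
      ih.mul hr zero_le_one (pow_nonneg hr _) h2
    rw [m2_diff hf]
    rw [pow_one] at h7
    exact h7

end Pool.Agent.Lib.H84L
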