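import Pool.Agent.Lib.H84L.R4
import Pool.Agent.Lib.H84L.M1
import Pool.Agent.Lib.H84L.M2

/-! # H84L chunk M3: `t ↦ F (x + t q ω)` is smooth -/

set_option autoImplicit false

namespace Pool.Agent.Lib.H84L

open NumberField

variable {K : Type} [Field K] [NumberField K] {Ω : Type} [NormedField Ω] [IsUltrametricDist Ω]
  {l : ℕ} [Fact l.Prime]

/-- PROOF. Let `q' := q l ^ k` (in `𝓞 K`), `δ := q' ω`, `f t := F (x + t δ)`; all `x + t δ` are congruent 1
modulo `q'`, so nonzero (`ne_zero_of_cong`), `‖f t‖ = 1`. By induction on `i` (for all `t`), with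
`A = (mdp δ i).1`, `B = (mdp δ i).2`: `(md^[i+1] f) t = F (A (x + t δ)) / F (B (x + t δ))`
(`x + (t+1) δ = (x + t δ) + δ`, multiplicativity; `Function.iterate_succ_apply'`). By `mdp_cong`,
`mdp_sub` (evaluated) and `lip_pair` with `j = i + 1`: `‖F A - F B‖ ≤ (l ^ (-k)) ^ (i+1)`, and
`‖F A / F B - 1‖ = ‖F A - F B‖`. Now `sm_of_md`. -/
theorem sm_line {F : 𝓞 K → Ω} (hF : MulF F) {q : ℕ} (hq : 0 < q) (hlq : l ^ 2 ∣ q)
    (hL : LpF l q F) (k : ℕ) {x : 𝓞 K} (hx : (q : 𝓞 K) * (l : 𝓞 K) ^ k ∣ x - 1) (ω : 𝓞 K) :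
    Sm (((l : ℝ)⁻¹) ^ k) 1 (fun t : ℤ => F (x + t * ((q : 𝓞 K) * (l : 𝓞 K) ^ k * ω))) := by
  have hl2 : 1 < l := (Fact.out : l.Prime).one_lt
  have hq1 : 1 < q := by
    have h1 : l ^ 2 ≤ q := Nat.le_of_dvd hq hlq
    nlinarith
  have hlr : (1 : ℝ) ≤ (l : ℝ) := by exact_mod_cast hl2.le
  have hr0 : (0 : ℝ) ≤ ((l : ℝ)⁻¹) ^ k := by positivity
  have hr1 : ((l : ℝ)⁻¹) ^ k ≤ 1 := pow_le_one₀ (by positivity) (inv_le_one_of_one_le₀ hlr)
  set q' : 𝓞 K := (q : 𝓞 K) * (l : 𝓞 K) ^ k with hq'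
  have hne : ∀ a : 𝓞 K, q' ∣ a - 1 → a ≠ 0 := fun a ha =>
    ne_zero_of_cong hq1 ((Dvd.intro _ rfl).trans ha)
  have hδ : q' ∣ q' * ω := Dvd.intro _ rfl
  have hy : ∀ t : ℤ, q' ∣ (x + t * (q' * ω)) - 1 := by
    intro t
    have h1 : x + t * (q' * ω) - 1 = (x - 1) + q' * (t * ω) := by ring
    rw [h1]
    exact dvd_add hx (Dvd.intro _ rfl)
  refine sm_of_md hr0 hr1 (fun t => hF.nrm _ (hne _ (hy t))) fun i t => ?_
  have key : ∀ (i : ℕ) (t : ℤ), (md^[i + 1] (fun t : ℤ => F (x + t * (q' * ω)))) t =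
      F ((mdp (q' * ω) i).1.eval (x + t * (q' * ω))) / F ((mdp (q' * ω) i).2.eval (x + t * (q' * ω))) := by
    intro i
    induction i with
    | zero =>
      intro t
      show F (x + ((t + 1 : ℤ) : 𝓞 K) * (q' * ω)) / F (x + t * (q' * ω)) = _
      have h1 : (mdp (q' * ω) 0).1.eval (x + t * (q' * ω)) = x + ((t + 1 : ℤ) : 𝓞 K) * (q' * ω) := by
        show (Polynomial.X + Polynomial.C (q' * ω) : Polynomial (𝓞 K)).eval _ = _
        rw [Polynomial.eval_add, Polynomial.eval_X, Polynomial.eval_C]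
        push_cast
        ring
      have h2 : (mdp (q' * ω) 0).2.eval (x + t * (q' * ω)) = x + t * (q' * ω) := by
        show (Polynomial.X : Polynomial (𝓞 K)).eval _ = _
        rw [Polynomial.eval_X]
      rw [h1, h2]
    | succ i ih =>
      intro t
      rw [Function.iterate_succ_apply']
      show (md^[i + 1] (fun t : ℤ => F (x + t * (q' * ω)))) (t + 1) / (md^[i + 1] (fun t : ℤ => F (x + t * (q' * ω)))) t = _
      rw [ih, ih]
      have h0 : x + ((t + 1 : ℤ) : 𝓞 K) * (q' * ω) = x + t * (q' * ω) + q' * ω := by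
        push_cast
        ring
      have h1 : (mdp (q' * ω) (i + 1)).1.eval (x + t * (q' * ω)) =
          (mdp (q' * ω) i).1.eval (x + t * (q' * ω) + q' * ω) * (mdp (q' * ω) i).2.eval (x + t * (q' * ω)) := by
        show (((mdp (q' * ω) i).1.comp (Polynomial.X + Polynomial.C (q' * ω))) * (mdp (q' * ω) i).2).eval _ = _
        rw [Polynomial.eval_mul, Polynomial.eval_comp, Polynomial.eval_add, Polynomial.eval_X, Polynomial.eval_C]
      have h2 : (mdp (q' * ω) (i + 1)).2.eval (x + t * (q' * ω)) =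
          (mdp (q' * ω) i).2.eval (x + t * (q' * ω) + q' * ω) * (mdp (q' * ω) i).1.eval (x + t * (q' * ω)) := by
        show (((mdp (q' * ω) i).2.comp (Polynomial.X + Polynomial.C (q' * ω))) * (mdp (q' * ω) i).1).eval _ = _
        rw [Polynomial.eval_mul, Polynomial.eval_comp, Polynomial.eval_add, Polynomial.eval_X, Polynomial.eval_C]
      have c1 := mdp_cong hδ i (hy t)
      have c2 : q' ∣ (mdp (q' * ω) i).1.eval (x + t * (q' * ω) + q' * ω) - 1 ∧
          q' ∣ (mdp (q' * ω) i).2.eval (x + t * (q' * ω) + q' * ω) - 1 := by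
        have h3 := hy (t + 1)
        rw [h0] at h3
        exact mdp_cong hδ i h3
      rw [h0, h1, h2, hF.mul _ _ (hne _ c2.1) (hne _ c1.2), hF.mul _ _ (hne _ c2.2) (hne _ c1.1)]
      rw [div_div_div_eq]
  rw [key]
  have c1 := mdp_cong hδ i (hy t)
  have hAB : q' ^ (i + 1) ∣ (mdp (q' * ω) i).1.eval (x + t * (q' * ω)) - (mdp (q' * ω) i).2.eval (x + t * (q' * ω)) := by
    obtain ⟨G, hG⟩ := mdp_sub hδ i
    refine ⟨G.eval (x + t * (q' * ω)), ?_⟩
    rw [← Polynomial.eval_sub, hG, Polynomial.eval_mul, Polynomial.eval_pow, Polynomial.eval_C]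
  have h1 := lip_pair hF hq hlq hL k (j := i + 1) (by omega) c1.1 c1.2 hAB
  have hB : ‖F ((mdp (q' * ω) i).2.eval (x + t * (q' * ω)))‖ = 1 := hF.nrm _ (hne _ c1.2)
  have hB0 : F ((mdp (q' * ω) i).2.eval (x + t * (q' * ω))) ≠ 0 := by
    intro h
    rw [h, norm_zero] at hB
    exact zero_ne_one hB
  have h2 : F ((mdp (q' * ω) i).1.eval (x + t * (q' * ω))) / F ((mdp (q' * ω) i).2.eval (x + t * (q' * ω))) - 1 =
      (F ((mdp (q' * ω) i).1.eval (x + t * (q' * ω))) - F ((mdp (q' * ω) i).2.eval (x + t * (q' * ω)))) /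
        F ((mdp (q' * ω) i).2.eval (x + t * (q' * ω))) := by
    rw [sub_div, div_self hB0]
  rw [h2, norm_div, hB, div_one]
  exact h1

end Pool.Agent.Lib.H84L
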