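import Pool.Agent.Lib.H84L.W0
import Pool.Agent.Lib.H84L.M3
import Pool.Agent.Lib.H84L.S5

/-! # H84L chunk W4: `G` is smooth in each variable -/

set_option autoImplicit false

namespace Pool.Agent.Lib.H84L

open NumberField CFT

variable {K : Type} [Field K] [NumberField K]

/-- PROOF. `Algebra.norm_eq_prod_embeddings` for `ℚ ⊆ K` and the algebraically closed field `Ω`, and the bijection between `K →ₐ[ℚ] Ω` and `K →+* Ω`
(`RingHom.equivRatAlgHom`); `Algebra.coe_norm_int`. -/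
theorem norm_prod {Ω : Type} [Field Ω] [CharZero Ω] [IsAlgClosed Ω] (a : 𝓞 K) :
    ((Algebra.norm ℤ a : ℤ) : Ω) = ∏ τ : K →+* Ω, τ (a : K) := by
  have h1 : ((Algebra.norm ℤ a : ℤ) : Ω) = algebraMap ℚ Ω (Algebra.norm ℚ (a : K)) := by
    rw [← Algebra.coe_norm_int a]
    simp
  rw [h1, Algebra.norm_eq_prod_embeddings ℚ Ω (a : K)]
  exact Fintype.prod_equiv (RingHom.equivRatAlgHom (R := K) (S := Ω)).symm _ _ (fun σ => rfl)

/-- PROOF. `a` is integral over `ℤ`, so `τ a` is: `norm_le_one_of_integral`. -/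
theorem norm_emb_le {Ω : Type} [NormedField Ω] [IsUltrametricDist Ω] [CharZero Ω] (τ : K →+* Ω) (a : 𝓞 K) : ‖τ (a : K)‖ ≤ 1 := by
  apply norm_le_one_of_integral
  exact map_isIntegral_int τ (RingOfIntegers.isIntegral_coe a)

/-- PROOF. `alp (q l) b (update z i x) = x₀ + x * (q * l ^ 1 * b i)` with `x₀ = alp (q l) b (update z i 0)`, `x₀ - 1` divisible by `q l`. `sm_line` with `k = 1` for the factor `F`; for the
norm: `norm_prod`, each `τ (alp ..) = τ x₀ + x * τ (q l b i)` is smooth by `Sm.lin` (`norm_emb_le`, `‖q l‖ ≤ l⁻¹`), then `Sm.prod`, `Sm.pow`, `Sm.mul`. -/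
theorem GG_sm {Ω : Type} [NormedField Ω] [IsUltrametricDist Ω] [CharZero Ω] [IsAlgClosed Ω] {ι : Type} [Fintype ι] [DecidableEq ι]
    {l : ℕ} [Fact l.Prime] (hl : ‖(l : Ω)‖ = (l : ℝ)⁻¹) {F : 𝓞 K → Ω} (hF : MulF F) {q : ℕ} (hq : 0 < q) (hlq : l ^ 2 ∣ q)
    (hL : LpF l q F) (M : ℕ) (b : ι → 𝓞 K) (z : ι → ℤ) (i : ι) :
    Sm ((l : ℝ)⁻¹) 1 (fun x : ℤ => GG M F (q * l) b (Function.update z i x)) := by
  have hlp : l.Prime := Fact.out
  have hl0 : (0 : ℝ) ≤ (l : ℝ)⁻¹ := by positivity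
  have hl1 : (l : ℝ)⁻¹ ≤ 1 := by
    apply inv_le_one_of_one_le₀
    exact_mod_cast hlp.one_le
  have hlin : ∀ x : ℤ, alp (q * l) b (Function.update z i x) =
      alp (q * l) b (Function.update z i 0) + (x : 𝓞 K) * ((q : 𝓞 K) * (l : 𝓞 K) ^ 1 * b i) := by
    intro x
    rw [alp, alp, ← Finset.add_sum_erase _ _ (Finset.mem_univ i),
      ← Finset.add_sum_erase _ (fun j => ((Function.update z i 0 j : ℤ) : 𝓞 K) * b j)
        (Finset.mem_univ i)]
    have h1 : ∀ y : ℤ, ∑ j ∈ Finset.univ.erase i, ((Function.update z i y j : ℤ) : 𝓞 K) * b j =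
        ∑ j ∈ Finset.univ.erase i, ((z j : ℤ) : 𝓞 K) * b j := by
      intro y
      apply Finset.sum_congr rfl
      intro j hj
      rw [Function.update_of_ne (Finset.ne_of_mem_erase hj)]
    rw [h1 x, h1 0]
    simp only [Function.update_self, Int.cast_zero]
    push_cast
    ring
  have hx0 : (q : 𝓞 K) * (l : 𝓞 K) ^ 1 ∣ alp (q * l) b (Function.update z i 0) - 1 := by
    rw [alp]
    refine ⟨∑ j, ((Function.update z i 0 j : ℤ) : 𝓞 K) * b j, ?_⟩
    push_cast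
    ring
  have hF1 := sm_line hF hq hlq hL 1 hx0 (b i)
  rw [pow_one] at hF1
  have hN : Sm ((l : ℝ)⁻¹) 1 (fun x : ℤ =>
      ∏ τ : K →+* Ω, (τ ((alp (q * l) b (Function.update z i 0) : 𝓞 K) : K) +
        (x : Ω) * τ (((q : 𝓞 K) * (l : 𝓞 K) ^ 1 * b i : 𝓞 K) : K))) := by
    apply Sm.prod hl0
    intro τ _
    apply Sm.lin hl0 hl1 (norm_emb_le τ _)
    have e : τ (((q : 𝓞 K) * (l : 𝓞 K) ^ 1 * b i : 𝓞 K) : K) = (q : Ω) * (l : Ω) * τ (b i : K) := by
      simp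
    rw [e, norm_mul, norm_mul, hl]
    calc ‖(q : Ω)‖ * (l : ℝ)⁻¹ * ‖τ (b i : K)‖ ≤ 1 * (l : ℝ)⁻¹ * 1 := by
          gcongr
          · exact IsUltrametricDist.norm_natCast_le_one Ω q
          · exact norm_emb_le τ (b i)
      _ = (l : ℝ)⁻¹ := by ring
  have hfin := Sm.mul hl0 (Sm.pow hl0 hN M) hF1
  have e2 : (fun x : ℤ => GG M F (q * l) b (Function.update z i x)) = fun x : ℤ =>
      (∏ τ : K →+* Ω, (τ ((alp (q * l) b (Function.update z i 0) : 𝓞 K) : K) +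
        (x : Ω) * τ (((q : 𝓞 K) * (l : 𝓞 K) ^ 1 * b i : 𝓞 K) : K))) ^ M *
      F (alp (q * l) b (Function.update z i 0) + (x : 𝓞 K) * ((q : 𝓞 K) * (l : 𝓞 K) ^ 1 * b i)) := by
    funext x
    rw [GG, hlin x, norm_prod]
    congr 2
    apply Finset.prod_congr rfl
    intro τ _
    push_cast
    rw [map_add, map_mul]
    simp
  rw [e2]
  exact hfin

end Pool.Agent.Lib.H84L
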