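import Pool.Agent.Lib.H84L.C1
import Pool.Agent.Lib.H84L.C2
import Pool.Agent.Lib.H84L.W4

/-! # H84L chunk C3: the relation as a relation between polynomials in the conjugates -/

set_option autoImplicit false

namespace Pool.Agent.Lib.H84L

open NumberField MvPolynomial

/-- The coefficients of a polynomial in `l X i` which vanishes on the integral points. -/
theorem c3_coeff {Ω : Type} [Field Ω] [CharZero Ω] {ι : Type} [Fintype ι] [DecidableEq ι] {l L : ℕ} (hl : 0 < l)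
    (v : (ι → Fin L) → ℤ) (h : ∀ z : ι → ℤ, ∑ a : ι → Fin L, (v a : Ω) * (mon l a z : Ω) = 0) (a₀ : ι → Fin L) : v a₀ = 0 := by
  classical
  let f : (ι → Fin L) → (ι →₀ ℕ) := fun a => Finsupp.equivFunOnFinite.symm (fun i => (a i : ℕ))
  have hf : Function.Injective f := by
    intro a a' haa
    funext i
    have h1 := congrArg (fun s : ι →₀ ℕ => s i) haa
    exact Fin.ext h1
  let P : MvPolynomial ι Ω := ∑ a : ι → Fin L, monomial (f a) ((v a : Ω) * (l : Ω) ^ (∑ i, (a i : ℕ)))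
  have hP : P = 0 := by
    apply eq_zero_of_int
    intro z
    rw [map_sum, ← h z]
    refine Finset.sum_congr rfl fun a _ => ?_
    rw [eval_monomial, Finsupp.prod_fintype _ _ (fun i => pow_zero _), mul_assoc, mon]
    congr 1
    push_cast
    rw [← Finset.prod_pow_eq_pow_sum, ← Finset.prod_mul_distrib]
    refine Finset.prod_congr rfl fun i _ => ?_
    rw [mul_pow]
    rfl
  have h1 : coeff (f a₀) P = (v a₀ : Ω) * (l : Ω) ^ (∑ i, (a₀ i : ℕ)) := by
    rw [coeff_sum, Finset.sum_eq_single a₀]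
    · rw [coeff_monomial, if_pos rfl]
    · intro a _ hne
      rw [coeff_monomial, if_neg (fun h2 => hne (hf h2))]
    · intro h2
      exact absurd (Finset.mem_univ _) h2
  rw [hP, coeff_zero] at h1
  have h2 : (l : Ω) ^ (∑ i, (a₀ i : ℕ)) ≠ 0 := pow_ne_zero _ (by exact_mod_cast hl.ne')
  have h3 : (v a₀ : Ω) = 0 := by
    rcases mul_eq_zero.mp h1.symm with h4 | h4
    · exact h4
    · exact absurd h4 h2
  exact_mod_cast h3

/-- PROOF. With `c` of `dual_basis`: `z i = ∑ τ, c i τ (τ (alp z) - 1) / q` (because `τ (alp z) - 1 = q ∑ j z j τ (b j)`). Let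
`R β = (∑ a, p (a, β) ∏ i (C l * ∑ τ, C (c i τ / q) * (X τ - 1)) ^ (a i)) * (∏ τ, X τ) ^ (M β)`. Then `eval (τ (alp z)) (R β) = (∑ a, p (a,β) mon l a z) * (norm (alp z)) ^ (M β)`
(`norm_prod`), and the sum over `β` of this times `F (alp z) ^ β` is `Phi l L p (GG M F q b) z = 0`. If all `R β` were 0, then for all `β`, `z`: `∑ a, p (a,β) mon l a z = 0` (the norm of
`alp z` is not 0 because `alp z ≠ 0`: hypothesis `hne`), so the polynomial `∑ a, p (a,β) l ^ (∑ a i) X ^ a` vanishes on all integral points, it is 0 (`eq_zero_of_int`), and all coefficients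
`p (a, β)` are 0, contradiction. -/
theorem exists_polys {K : Type} [Field K] [NumberField K] {Ω : Type} [NormedField Ω] [CharZero Ω] [IsAlgClosed Ω] {ι : Type} [Fintype ι]
    [DecidableEq ι] (b : Module.Basis ι ℤ (𝓞 K)) {q l : ℕ} (hq : 0 < q) (hl : 0 < l) (F : 𝓞 K → Ω) (M L : ℕ)
    (hne : ∀ z : ι → ℤ, alp q b z ≠ 0) {p : (ι → Fin L) × Fin L → ℤ} (hp : p ≠ 0)
    (h : ∀ z : ι → ℤ, Phi l L p (GG M F q b) z = 0) :
    ∃ R : Fin L → MvPolynomial (K →+* Ω) Ω, R ≠ 0 ∧
      ∀ z : ι → ℤ, ∑ β : Fin L, eval (fun τ : K →+* Ω => τ (alp q b z : K)) (R β) * F (alp q b z) ^ (β : ℕ) = 0 := by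
  classical
  obtain ⟨c, hc1, -, -⟩ := dual_basis (Ω := Ω) b
  have hq0 : (q : Ω) ≠ 0 := by exact_mod_cast hq.ne'
  have halp : ∀ (z : ι → ℤ) (τ : K →+* Ω), τ (alp q b z : K) - 1 = (q : Ω) * ∑ j, (z j : Ω) * τ (b j : K) := by
    intro z τ
    rw [alp]
    push_cast
    simp
  have hz : ∀ (z : ι → ℤ) (i : ι), ∑ τ : K →+* Ω, c i τ / (q : Ω) * (τ (alp q b z : K) - 1) = (z i : Ω) := by
    intro z i
    have h1 : ∀ τ : K →+* Ω, c i τ / (q : Ω) * (τ (alp q b z : K) - 1) = ∑ j, (z j : Ω) * (c i τ * τ (b j : K)) := by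
      intro τ
      rw [halp, ← mul_assoc, div_mul_cancel₀ _ hq0, Finset.mul_sum]
      exact Finset.sum_congr rfl fun j _ => by ring
    rw [Finset.sum_congr rfl fun τ _ => h1 τ, Finset.sum_comm]
    have h2 : ∀ j, ∑ τ : K →+* Ω, (z j : Ω) * (c i τ * τ (b j : K)) = if i = j then (z j : Ω) else 0 := by
      intro j
      rw [← Finset.mul_sum, hc1]
      split_ifs <;> simp
    rw [Finset.sum_congr rfl fun j _ => h2 j, Finset.sum_ite_eq, if_pos (Finset.mem_univ i)]
  let R : Fin L → MvPolynomial (K →+* Ω) Ω := fun β =>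
    (∑ a : ι → Fin L, C ((p (a, β) : ℤ) : Ω) * ∏ i, (C (l : Ω) * ∑ τ : K →+* Ω, C (c i τ / (q : Ω)) * (X τ - 1)) ^ ((a i : Fin L) : ℕ)) *
      (∏ τ : K →+* Ω, X τ) ^ (M * (β : ℕ))
  have hR : ∀ (β : Fin L) (z : ι → ℤ), eval (fun τ : K →+* Ω => τ (alp q b z : K)) (R β) =
      (∑ a : ι → Fin L, ((p (a, β) : ℤ) : Ω) * (mon l a z : Ω)) * ((Algebra.norm ℤ (alp q b z) : ℤ) : Ω) ^ (M * (β : ℕ)) := by
    intro β z
    simp only [R, map_mul, map_sum, map_pow, map_prod, map_sub, map_one, eval_C, eval_X]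
    rw [norm_prod]
    congr 1
    refine Finset.sum_congr rfl fun a _ => ?_
    congr 1
    rw [mon]
    push_cast
    refine Finset.prod_congr rfl fun i _ => ?_
    rw [hz]
  refine ⟨R, ?_, ?_⟩
  · intro hR0
    apply hp
    funext i
    obtain ⟨a₀, β⟩ := i
    refine c3_coeff (Ω := Ω) hl (fun a => p (a, β)) ?_ a₀
    intro z
    have h1 := hR β z
    rw [hR0, Pi.zero_apply, map_zero] at h1
    have h2 : ((Algebra.norm ℤ (alp q b z) : ℤ) : Ω) ^ (M * (β : ℕ)) ≠ 0 := by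
      apply pow_ne_zero
      rw [norm_prod, Finset.prod_ne_zero_iff]
      intro τ _
      rw [map_ne_zero]
      exact RingOfIntegers.coe_ne_zero_iff.mpr (hne z)
    rcases mul_eq_zero.mp h1.symm with h3 | h3
    · exact h3
    · exact absurd h3 h2
  · intro z
    rw [← h z, Phi, Fintype.sum_prod_type_right]
    refine Finset.sum_congr rfl fun β _ => ?_
    rw [hR, Finset.sum_mul, Finset.sum_mul]
    refine Finset.sum_congr rfl fun a _ => ?_
    rw [GG, mul_pow, ← pow_mul]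
    ring

end Pool.Agent.Lib.H84L
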