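import Mathlib

/-! # H84L chunk R1: roots modulo powers of `l` -/

set_option autoImplicit false

namespace Pool.Agent.Lib.H84L

/-- PROOF. Induction on `N`, starting with `N = n + 1`: `γ = 1` (`γ ^ l = 1 ≡ α`). Step: let `N ≥ n + 1`,
`γ ^ l = α + q l ^ N s`, `γ ≡ 1 mod q l ^ n`. Put `γ' := γ - q l ^ (N-1) s`. Then
`γ' ^ l = γ ^ l - l γ ^ (l-1) q l ^ (N-1) s + ∑_{i ≥ 2} C(l,i) γ ^ (l-i) (- q l ^ (N-1) s) ^ i
= α + q l ^ N s (1 - γ ^ (l-1)) + (terms i ≥ 2)`. `1 - γ ^ (l-1)` is divisible by `q`, so by `l`. The terms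
with `i ≥ 2` are divisible by `(q l ^ (N-1)) ^ 2 = q l ^ (2N-2) q`, and `l ^ 2 ∣ q`, so by
`q l ^ (2N)`, `2N ≥ N + 1`. (`add_pow` or `Polynomial.binomExpansion`: `(x + y) ^ l = x ^ l + l x ^ (l-1) y
+ y ^ 2 * k`, see `Polynomial.binomExpansion` / `add_pow_two_...`; in Mathlib `Polynomial.powAddExpansion`.)
`γ' ≡ γ ≡ 1 mod q l ^ n` since `N - 1 ≥ n`. -/
theorem exists_root {R : Type} [CommRing R] {l : ℕ} (hl : 1 < l) {q : ℕ} (hq : l ^ 2 ∣ q) (n : ℕ)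
    {α : R} (hα : (q : R) * (l : R) ^ (n + 1) ∣ α - 1) (N : ℕ) :
    ∃ γ : R, (q : R) * (l : R) ^ n ∣ γ - 1 ∧ (q : R) * (l : R) ^ N ∣ γ ^ l - α := by
  obtain ⟨q', hq'⟩ := hq
  have hqR : (q : R) = (l : R) ^ 2 * (q' : R) := by rw [hq']; push_cast; ring
  rcases le_total N (n + 1) with hN | hN
  · refine ⟨1, by simp, ?_⟩
    rw [one_pow]
    obtain ⟨t, ht⟩ := hα
    obtain ⟨d, hd⟩ := Nat.exists_eq_add_of_le hN
    refine ⟨-((l : R) ^ d * t), ?_⟩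
    have e : (1 : R) - α = -((q : R) * (l : R) ^ (n + 1) * t) := by rw [← ht]; ring
    rw [e, hd]
    ring
  · obtain ⟨d, rfl⟩ := Nat.exists_eq_add_of_le hN
    clear hN
    induction d with
    | zero =>
      refine ⟨1, by simp, ?_⟩
      rw [one_pow]
      obtain ⟨t, ht⟩ := hα
      refine ⟨-t, ?_⟩
      have e : (1 : R) - α = -((q : R) * (l : R) ^ (n + 1) * t) := by rw [← ht]; ring
      rw [e]
      ring
    | succ d ih =>
      obtain ⟨γ, ⟨u, hu⟩, ⟨s, hs⟩⟩ := ih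
      obtain ⟨k, hk⟩ := Polynomial.powAddExpansion γ (-((q : R) * (l : R) ^ (n + d) * s)) l
      obtain ⟨w, hw⟩ := sub_dvd_pow_sub_pow γ 1 (l - 1)
      rw [one_pow] at hw
      refine ⟨γ + -((q : R) * (l : R) ^ (n + d) * s), ⟨u - (l : R) ^ d * s, ?_⟩,
        ⟨-(s * (l * q' * (l : R) ^ n * u * w)) + k * (l : R) ^ (n + d) * q' * s ^ 2, ?_⟩⟩
      · have e : γ + -((q : R) * (l : R) ^ (n + d) * s) - 1 =
            (γ - 1) - (q : R) * (l : R) ^ (n + d) * s := by ring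
        rw [e, hu, pow_add]
        ring
      · rw [hk]
        have e1 : γ ^ l = α + (q : R) * (l : R) ^ (n + 1 + d) * s := by rw [← hs]; ring
        have e2 : γ ^ (l - 1) = 1 + (q : R) * (l : R) ^ n * u * w := by
          rw [← hu]
          linear_combination hw
        rw [e1, e2]
        have e3 : (l : R) ^ (n + 1 + (d + 1)) = (l : R) ^ (n + d) * (l : R) ^ 2 := by
          rw [← pow_add]; congr 1; omega
        have e4 : (l : R) ^ (n + 1 + d) = (l : R) ^ (n + d) * (l : R) := by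
          rw [← pow_succ]; congr 1; omega
        rw [e3, e4]
        rw [hqR]
        ring

/-- PROOF. `β = 1 + Q x`; `β ^ (Q ^ j) ≡ 1 mod Q ^ (j + 1)` by induction: `(1 + Q ^ (j+1) x) ^ Q
= 1 + Q * Q ^ (j+1) x + (Q ^ (j+1)) ^ 2 * (...)`. -/
theorem pow_pow_cong {R : Type} [CommRing R] {Q : ℕ} {β : R} (hβ : (Q : R) ∣ β - 1) (j : ℕ) :
    (Q : R) ^ (j + 1) ∣ β ^ (Q ^ j) - 1 := by
  induction j with
  | zero => simpa using hβ
  | succ j ih =>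
    obtain ⟨x, hx⟩ := ih
    have hb : β ^ (Q ^ j) = 1 + (Q : R) ^ (j + 1) * x := by rw [← hx]; ring
    obtain ⟨k, hk⟩ := Polynomial.powAddExpansion (1 : R) ((Q : R) ^ (j + 1) * x) Q
    rw [pow_succ Q j, pow_mul, hb, hk]
    refine ⟨x + k * (Q : R) ^ j * x ^ 2, ?_⟩
    rw [one_pow, one_pow]
    ring

/-- PROOF. `x = 1 - Q y` has the inverse `1 + Q y + ... + (Q y) ^ (J - 1)` modulo `Q ^ J`. -/
theorem exists_inv {R : Type} [CommRing R] (Q : R) {γ : R} (hγ : Q ∣ γ - 1) (J : ℕ) :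
    ∃ γ' : R, Q ∣ γ' - 1 ∧ Q ^ J ∣ γ * γ' - 1 := by
  obtain ⟨y, hy⟩ := hγ
  have hg : γ = 1 - -(Q * y) := by rw [← hy]; ring
  refine ⟨∑ i ∈ Finset.range (J + 1), (-(Q * y)) ^ i, ?_, ?_⟩
  · rw [geom_sum_succ]
    refine ⟨-y * ∑ i ∈ Finset.range J, (-(Q * y)) ^ i, ?_⟩
    ring
  · rw [hg, mul_neg_geom_sum]
    refine ⟨-((-y) ^ (J + 1) * Q), ?_⟩
    have : (-(Q * y)) ^ (J + 1) = Q ^ (J + 1) * (-y) ^ (J + 1) := by
      rw [← mul_pow]; congr 1; ring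
    rw [this]
    ring

end Pool.Agent.Lib.H84L
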