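import Pool.Agent.Lib.H84L.U3

/-! # H84L chunk R2: powers of elements near 1 -/

set_option autoImplicit false

namespace Pool.Agent.Lib.H84L

variable {Ω : Type} [NormedField Ω] [IsUltrametricDist Ω] {l : ℕ} [Fact l.Prime]

/-- PROOF. `x ^ l - 1 = (x - 1) * (l + ∑_{i ≥ 2} C(l,i) (x-1) ^ (i-1))`; the second factor has norm at
most `1/l`: `‖C(l,i)‖ ≤ 1/l` for `2 ≤ i < l`, and `‖x - 1‖ ^ (l-1) ≤ 1/l`. -/
theorem norm_pow_l (hl : ‖(l : Ω)‖ = (l : ℝ)⁻¹) {x : Ω} {m : ℕ}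
    (hx : ‖x - 1‖ ≤ ((l : ℝ)⁻¹) ^ (m + 1)) : ‖x ^ l - 1‖ ≤ ((l : ℝ)⁻¹) ^ (m + 2) := by
  have hlp : l.Prime := Fact.out
  have hl2 : 2 ≤ l := hlp.two_le
  have hl0 : (0 : ℝ) ≤ (l : ℝ)⁻¹ := by positivity
  have hl1 : (l : ℝ)⁻¹ ≤ 1 := by
    apply inv_le_one_of_one_le₀
    exact_mod_cast hlp.one_le
  obtain ⟨y, rfl⟩ : ∃ y, x = y + 1 := ⟨x - 1, by ring⟩
  rw [add_sub_cancel_right] at hx
  have hy1 : ‖y‖ ≤ 1 := hx.trans (pow_le_one₀ hl0 hl1)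
  rw [add_pow, Finset.sum_range_succ']
  simp only [one_pow, mul_one, pow_zero, Nat.choose_zero_right, Nat.cast_one, add_sub_cancel_right]
  refine IsUltrametricDist.norm_sum_le_of_forall_le_of_nonneg (by positivity) ?_
  intro i hi
  rw [Finset.mem_range] at hi
  rw [norm_mul, norm_pow]
  rcases Nat.lt_or_ge (i + 1) l with hil | hil
  · have h1 : ‖((l.choose (i + 1) : ℕ) : Ω)‖ ≤ (l : ℝ)⁻¹ := by
      obtain ⟨t, ht⟩ := hlp.dvd_choose_self (by omega : i + 1 ≠ 0) hil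
      rw [ht]
      push_cast
      rw [norm_mul, hl]
      exact mul_le_of_le_one_right hl0 (IsUltrametricDist.norm_natCast_le_one Ω t)
    have h2 : ‖y‖ ^ (i + 1) ≤ ((l : ℝ)⁻¹) ^ (m + 1) := by
      rw [pow_succ]
      exact (mul_le_of_le_one_left (norm_nonneg _) (pow_le_one₀ (norm_nonneg _) hy1)).trans hx
    calc ‖y‖ ^ (i + 1) * ‖((l.choose (i + 1) : ℕ) : Ω)‖ ≤ ((l : ℝ)⁻¹) ^ (m + 1) * (l : ℝ)⁻¹ :=
          mul_le_mul h2 h1 (norm_nonneg _) (by positivity)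
      _ = ((l : ℝ)⁻¹) ^ (m + 2) := by rw [← pow_succ]
  · have hil' : i + 1 = l := by omega
    rw [hil', Nat.choose_self, Nat.cast_one, norm_one, mul_one]
    calc ‖y‖ ^ l ≤ (((l : ℝ)⁻¹) ^ (m + 1)) ^ l := pow_le_pow_left₀ (norm_nonneg _) hx l
      _ ≤ (((l : ℝ)⁻¹) ^ (m + 1)) ^ 2 :=
          pow_le_pow_of_le_one (by positivity) (pow_le_one₀ hl0 hl1) hl2
      _ = ((l : ℝ)⁻¹) ^ ((m + 1) * 2) := by rw [← pow_mul]
      _ ≤ ((l : ℝ)⁻¹) ^ (m + 2) := pow_le_pow_of_le_one hl0 hl1 (by omega)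

/-- The third statement (used for the second). -/
theorem r2_mul_sub_one {x y : Ω} {ε : ℝ} (hx1 : ‖y‖ ≤ 1) (hx : ‖x - 1‖ ≤ ε) (hy : ‖y - 1‖ ≤ ε) :
    ‖x * y - 1‖ ≤ ε := by
  have e : x * y - 1 = (x - 1) * y + (y - 1) := by ring
  rw [e]
  refine (IsUltrametricDist.norm_add_le_max _ _).trans (max_le ?_ hy)
  rw [norm_mul]
  exact (mul_le_of_le_one_right (norm_nonneg _) hx1).trans hx

/-- PROOF. `x ^ e - 1 = (x - 1) * (1 + x + ... + x ^ (e-1))`, and the second factor is `e` plus an element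
of norm `< 1`, `‖e‖ = 1` (`norm_int_coprime`). -/
theorem norm_pow_coprime (hl : ‖(l : Ω)‖ = (l : ℝ)⁻¹) {x : Ω} (hx : ‖x - 1‖ < 1) {e : ℕ}
    (he : Nat.Coprime e l) : ‖x ^ e - 1‖ = ‖x - 1‖ := by
  have hx1 : ‖x‖ ≤ 1 := by
    have e1 : x = (x - 1) + 1 := by ring
    rw [e1]
    refine (IsUltrametricDist.norm_add_le_max _ _).trans (max_le hx.le ?_)
    rw [norm_one]
  have hi : ∀ i : ℕ, ‖x ^ i - 1‖ ≤ ‖x - 1‖ := by
    intro i
    induction i with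
    | zero => simp
    | succ i ih => rw [pow_succ]; exact r2_mul_sub_one hx1 ih le_rfl
  have hs : ‖∑ i ∈ Finset.range e, (x ^ i - 1)‖ < 1 :=
    lt_of_le_of_lt (IsUltrametricDist.norm_sum_le_of_forall_le_of_nonneg (norm_nonneg (x - 1))
      (fun i _ => hi i)) hx
  have he1 : ‖(e : Ω)‖ = 1 := by
    have h1 := norm_int_coprime (Ω := Ω) hl (n := (e : ℤ)) (Nat.isCoprime_iff_coprime.mpr he)
    simpa using h1
  have e2 : ∑ i ∈ Finset.range e, x ^ i = ∑ i ∈ Finset.range e, (x ^ i - 1) + (e : Ω) := by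
    rw [Finset.sum_sub_distrib]
    simp
  have h3 : ‖∑ i ∈ Finset.range e, x ^ i‖ = 1 := by
    rw [e2, IsUltrametricDist.norm_add_eq_max_of_norm_ne_norm (by rw [he1]; exact hs.ne), he1,
      max_eq_right hs.le]
  rw [← geom_sum_mul, norm_mul, h3, one_mul]

/-- PROOF. `x y - 1 = (x - 1) y + (y - 1)`. -/
theorem norm_mul_sub_one {x y : Ω} {ε : ℝ} (hx1 : ‖y‖ = 1) (hx : ‖x - 1‖ ≤ ε) (hy : ‖y - 1‖ ≤ ε) :
    ‖x * y - 1‖ ≤ ε :=
  r2_mul_sub_one hx1.le hx hy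

end Pool.Agent.Lib.H84L
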