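import Pool.Agent.Lib.H84L.D1
import Pool.Agent.Lib.H84L.R1
import Pool.Agent.Lib.H84L.R2

/-! # H84L chunk R4: the Lipschitz condition for pairs -/

set_option autoImplicit false

namespace Pool.Agent.Lib.H84L

open NumberField

variable {K : Type} [Field K] [NumberField K] {Ω : Type} [NormedField Ω] [IsUltrametricDist Ω]
  {l : ℕ} [Fact l.Prime]

/-- Elements congruent 1 modulo a number `≥ 2` are nonzero. PROOF. Otherwise `q` divides 1 in `𝓞 K`, so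
`q` is a unit, its norm `q ^ [K:ℚ]` is `± 1`. -/
theorem ne_zero_of_cong {q : ℕ} (hq : 1 < q) {a : 𝓞 K} (h : (q : 𝓞 K) ∣ a - 1) : a ≠ 0 := by
  rintro rfl
  rw [zero_sub, dvd_neg] at h
  have hu : IsUnit (q : 𝓞 K) := isUnit_of_dvd_one h
  have hu2 : IsUnit (Algebra.norm ℤ (q : 𝓞 K)) := hu.map _
  have e : (q : 𝓞 K) = algebraMap ℤ (𝓞 K) (q : ℤ) := by simp
  rw [e, Algebra.norm_algebraMap] at hu2
  have hf : Module.finrank ℤ (𝓞 K) ≠ 0 := by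
    have : 0 < Module.finrank ℤ (𝓞 K) := Module.finrank_pos
    omega
  rw [isUnit_pow_iff hf, Int.isUnit_iff] at hu2
  omega

/-- PROOF. Let `j ≥ 1` and choose (`exists_inv`) `B'` with `q' ∣ B' - 1`, `q' ^ j ∣ B B' - 1`, where
`q' = q l ^ k` as an element of `𝓞 K`. Then `A B' ≡ B B' ≡ 1 mod q' ^ j`, and `q' ^ j` is divisible by
`q l ^ (k j)`. By `LpF`: `‖F (A B') - 1‖, ‖F (B B') - 1‖ ≤ l ^ (-(k j + 1))`, so
`‖F A F B' - F B F B'‖ ≤ l ^ (-k j)`, `‖F B'‖ = 1`. -/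
theorem lip_pair {F : 𝓞 K → Ω} (hF : MulF F) {q : ℕ} (hq : 0 < q) (hlq : l ^ 2 ∣ q)
    (hL : LpF l q F) (k : ℕ) {A B : 𝓞 K} {j : ℕ} (hj : 1 ≤ j)
    (hA : (q : 𝓞 K) * (l : 𝓞 K) ^ k ∣ A - 1) (hB : (q : 𝓞 K) * (l : 𝓞 K) ^ k ∣ B - 1)
    (hAB : ((q : 𝓞 K) * (l : 𝓞 K) ^ k) ^ j ∣ A - B) :
    ‖F A - F B‖ ≤ (((l : ℝ)⁻¹) ^ k) ^ j := by
  have hl2 : 2 ≤ l := (Fact.out : l.Prime).two_le
  have hq1 : 1 < q := by
    have h1 : l ^ 2 ≤ q := Nat.le_of_dvd hq hlq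
    nlinarith
  obtain ⟨B', hB1, hB2⟩ := exists_inv ((q : 𝓞 K) * (l : 𝓞 K) ^ k) hB j
  have hA0 : A ≠ 0 := ne_zero_of_cong hq1 ((Dvd.intro _ rfl).trans hA)
  have hB0 : B ≠ 0 := ne_zero_of_cong hq1 ((Dvd.intro _ rfl).trans hB)
  have hB'0 : B' ≠ 0 := ne_zero_of_cong hq1 ((Dvd.intro _ rfl).trans hB1)
  have hAB' : ((q : 𝓞 K) * (l : 𝓞 K) ^ k) ^ j ∣ A * B' - 1 := by
    have e : A * B' - 1 = (A - B) * B' + (B * B' - 1) := by ring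
    rw [e]
    exact dvd_add (hAB.mul_right _) hB2
  have key : (q : 𝓞 K) * (l : 𝓞 K) ^ (k * j) ∣ ((q : 𝓞 K) * (l : 𝓞 K) ^ k) ^ j := by
    obtain ⟨i, rfl⟩ := Nat.exists_eq_add_of_le hj
    refine ⟨(q : 𝓞 K) ^ i, ?_⟩
    rw [mul_pow, ← pow_mul, pow_add (q : 𝓞 K) 1 i]
    ring
  have h1 := hL (k * j) (A * B') (key.trans hAB')
  have h2 := hL (k * j) (B * B') (key.trans hB2)
  have hlr : (0 : ℝ) ≤ (l : ℝ)⁻¹ := by positivity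
  have hlr1 : (l : ℝ)⁻¹ ≤ 1 := by
    apply inv_le_one_of_one_le₀
    exact_mod_cast (by omega : 1 ≤ l)
  have h3 : ((l : ℝ)⁻¹) ^ (k * j + 1) ≤ (((l : ℝ)⁻¹) ^ k) ^ j := by
    rw [← pow_mul]
    exact pow_le_pow_of_le_one hlr hlr1 (Nat.le_succ _)
  have e1 : ‖F A - F B‖ = ‖(F (A * B') - 1) - (F (B * B') - 1)‖ := by
    rw [hF.mul A B' hA0 hB'0, hF.mul B B' hB0 hB'0]
    have e2 : F A * F B' - 1 - (F B * F B' - 1) = (F A - F B) * F B' := by ring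
    rw [e2, norm_mul, hF.nrm B' hB'0, mul_one]
  rw [e1, sub_eq_add_neg]
  refine (IsUltrametricDist.norm_add_le_max _ _).trans (max_le (h1.trans h3) ?_)
  rw [norm_neg]
  exact h2.trans h3

end Pool.Agent.Lib.H84L
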