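import Pool.Agent.Lib.H84L.C2
import Pool.Agent.Lib.H84L.R4

/-! # H84L chunk C4: Dedekind independence of characters -/

set_option autoImplicit false

namespace Pool.Agent.Lib.H84L

open NumberField MvPolynomial

/-- PROOF. `a - 1 = q x`, `x = ∑ z i b i`. -/
theorem exists_alp {K : Type} [Field K] [NumberField K] {ι : Type} [Fintype ι] (b : Module.Basis ι ℤ (𝓞 K)) {q : ℕ} {a : 𝓞 K}
    (h : (q : 𝓞 K) ∣ a - 1) : ∃ z : ι → ℤ, a = alp q b z := by
  obtain ⟨x, hx⟩ := h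
  refine ⟨fun i => b.repr x i, ?_⟩
  have h1 : ∑ i, ((b.repr x i : ℤ) : 𝓞 K) * b i = x := by
    have h2 := b.sum_repr x
    simpa only [zsmul_eq_mul] using h2
  rw [alp, h1, ← hx]
  ring

/-- The submonoid of the elements congruent 1. -/
def c4_mon (K : Type) [Field K] [NumberField K] (q : ℕ) : Submonoid (𝓞 K) where
  carrier := {a | (q : 𝓞 K) ∣ a - 1}
  one_mem' := by
    show (q : 𝓞 K) ∣ 1 - 1
    rw [sub_self]
    exact dvd_zero _
  mul_mem' := by
    intro a b ha hb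
    show (q : 𝓞 K) ∣ a * b - 1
    have h : a * b - 1 = a * (b - 1) + (a - 1) := by ring
    rw [h]
    exact dvd_add (Dvd.dvd.mul_left hb a) ha

/-- The characters. -/
noncomputable def c4_chi {K : Type} [Field K] [NumberField K] {Ω : Type} [NormedField Ω] [CharZero Ω] [IsAlgClosed Ω] {q : ℕ} (hq : 1 < q)
    {F : 𝓞 K → Ω} (hF : MulF F) {L : ℕ} (p : Fin L × ((K →+* Ω) →₀ ℕ)) : c4_mon K q →* Ω where
  toFun a := (∏ τ : K →+* Ω, τ ((a : 𝓞 K) : K) ^ p.2 τ) * F a ^ (p.1 : ℕ)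
  map_one' := by
    have h1 : (((1 : c4_mon K q) : 𝓞 K) : K) = 1 := by simp
    have h2 : F ((1 : c4_mon K q) : 𝓞 K) = 1 := by
      rw [Submonoid.coe_one, hF.one]
    rw [h1, h2]
    simp
  map_mul' a a' := by
    have h1 : (((a * a' : c4_mon K q) : 𝓞 K) : K) = ((a : 𝓞 K) : K) * ((a' : 𝓞 K) : K) := by simp
    have h2 : F ((a * a' : c4_mon K q) : 𝓞 K) = F a * F a' := by
      rw [Submonoid.coe_mul]
      exact hF.mul _ _ (ne_zero_of_cong hq a.2) (ne_zero_of_cong hq a'.2)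
    rw [h1, h2]
    simp only [map_mul, mul_pow, Finset.prod_mul_distrib]
    ring

/-- PROOF. Let `Mon` be the submonoid of `𝓞 K` of the `a` with `q ∣ a - 1` (all nonzero: `ne_zero_of_cong`), so by `exists_alp` the relation holds for all `a` in `Mon`. For `β : Fin L` and
`m : (K →+* Ω) →₀ ℕ` let `χ (β, m) : Mon →* Ω`, `a ↦ ∏ τ (τ a) ^ (m τ) * F a ^ β`. The relation is a linear relation `∑ (coeff m (R β)) χ (β, m) = 0` (finite sum over the pairs in the supports;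
`MvPolynomial.eval_eq`), with nonzero coefficients and at least one term. If the map `(β, m) ↦ χ (β, m)` were injective on these pairs, this would contradict
`linearIndependent_monoidHom`. So `χ (β, m) = χ (β', m')` for two different pairs. If `β = β'` then (`F a ≠ 0`) `∏ (τ a) ^ (m τ) = ∏ (τ a) ^ (m' τ)` on `Mon`, so the polynomial
`X ^ m - X ^ m'` vanishes on all `alp z`: it is 0 (`eq_zero_of_alp`), `m = m'`, contradiction. So `β ≠ β'`, say `β' < β`; `n = β - β'`, exponents `m' τ - m τ`. -/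
theorem dedekind {K : Type} [Field K] [NumberField K] {Ω : Type} [NormedField Ω] [CharZero Ω] [IsAlgClosed Ω] {ι : Type} [Fintype ι]
    [DecidableEq ι] (b : Module.Basis ι ℤ (𝓞 K)) {q : ℕ} (hq : 1 < q) {F : 𝓞 K → Ω} (hF : MulF F) {L : ℕ}
    {R : Fin L → MvPolynomial (K →+* Ω) Ω} (hR : R ≠ 0)
    (h : ∀ z : ι → ℤ, ∑ β : Fin L, eval (fun τ : K →+* Ω => τ (alp q b z : K)) (R β) * F (alp q b z) ^ (β : ℕ) = 0) :
    ∃ (n : ℕ) (e : (K →+* Ω) → ℤ), 0 < n ∧ ∀ a : 𝓞 K, (q : 𝓞 K) ∣ a - 1 → F a ^ n = ∏ τ : K →+* Ω, τ (a : K) ^ e τ := by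
  classical
  by_contra hcon
  have hne : ∀ a : 𝓞 K, (q : 𝓞 K) ∣ a - 1 → a ≠ 0 := fun a ha => ne_zero_of_cong hq ha
  have hFne : ∀ a : 𝓞 K, (q : 𝓞 K) ∣ a - 1 → F a ≠ 0 := by
    intro a ha h0
    have := hF.nrm a (hne a ha)
    rw [h0, norm_zero] at this
    exact zero_ne_one this
  have hτne : ∀ a : 𝓞 K, (q : 𝓞 K) ∣ a - 1 → ∀ τ : K →+* Ω, τ (a : K) ≠ 0 := by
    intro a ha τ h0
    rw [map_eq_zero] at h0
    exact hne a ha (RingOfIntegers.coe_eq_zero_iff.1 h0)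
  have hlt : ∀ (β β' : ℕ) (m m' : (K →+* Ω) →₀ ℕ), β' < β →
      ¬ ∀ a : 𝓞 K, (q : 𝓞 K) ∣ a - 1 → (∏ τ : K →+* Ω, τ (a : K) ^ m τ) * F a ^ β = (∏ τ : K →+* Ω, τ (a : K) ^ m' τ) * F a ^ β' := by
    intro β β' m m' hβ hall
    apply hcon
    refine ⟨β - β', fun τ => (m' τ : ℤ) - m τ, by omega, fun a ha => ?_⟩
    have h1 := hall a ha
    have h2 : F a ^ β = F a ^ (β - β') * F a ^ β' := by rw [← pow_add]; congr 1; omega
    have h3 : F a ^ β' ≠ 0 := pow_ne_zero _ (hFne a ha)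
    have h4 : (∏ τ : K →+* Ω, τ (a : K) ^ m τ) ≠ 0 := Finset.prod_ne_zero_iff.2 fun τ _ => pow_ne_zero _ (hτne a ha τ)
    have h5 : (∏ τ : K →+* Ω, τ (a : K) ^ ((m' τ : ℤ) - m τ)) = (∏ τ : K →+* Ω, τ (a : K) ^ m' τ) / ∏ τ : K →+* Ω, τ (a : K) ^ m τ := by
      rw [← Finset.prod_div_distrib]
      refine Finset.prod_congr rfl fun τ _ => ?_
      rw [zpow_sub₀ (hτne a ha τ), zpow_natCast, zpow_natCast]
    rw [h5, eq_div_iff h4]
    apply mul_right_cancel₀ h3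
    rw [← h1, h2]
    ring
  have hinj : Function.Injective (c4_chi (K := K) (Ω := Ω) hq hF (L := L)) := by
    rintro ⟨β, m⟩ ⟨β', m'⟩ heq
    have hall : ∀ a : 𝓞 K, (q : 𝓞 K) ∣ a - 1 → (∏ τ : K →+* Ω, τ (a : K) ^ m τ) * F a ^ (β : ℕ) = (∏ τ : K →+* Ω, τ (a : K) ^ m' τ) * F a ^ (β' : ℕ) :=
      fun a ha => DFunLike.congr_fun heq (⟨a, ha⟩ : c4_mon K q)
    rcases lt_trichotomy (β : ℕ) (β' : ℕ) with hlt' | heqβ | hlt'
    · exact absurd (fun a ha => (hall a ha).symm) (hlt _ _ m' m hlt')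
    · have hβ : β = β' := Fin.ext heqβ
      subst hβ
      have h1 : (monomial m (1 : Ω)) - monomial m' 1 = 0 := by
        refine eq_zero_of_alp b (by omega : 0 < q) _ fun z => ?_
        have hz : (q : 𝓞 K) ∣ alp q b z - 1 := by
          rw [alp, add_sub_cancel_left]
          exact Dvd.intro _ rfl
        have h2 := mul_right_cancel₀ (pow_ne_zero _ (hFne _ hz)) (hall _ hz)
        rw [map_sub, eval_monomial, eval_monomial, one_mul, one_mul, Finsupp.prod_fintype _ _ (fun _ => pow_zero _),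
          Finsupp.prod_fintype _ _ (fun _ => pow_zero _), h2, sub_self]
      have h3 := monomial_left_injective (one_ne_zero : (1 : Ω) ≠ 0) (sub_eq_zero.1 h1)
      rw [h3]
    · exact absurd hall (hlt _ _ m m' hlt')
  have hli : LinearIndependent Ω (fun p : Fin L × ((K →+* Ω) →₀ ℕ) => (c4_chi (K := K) (Ω := Ω) hq hF p : c4_mon K q → Ω)) :=
    (linearIndependent_monoidHom (c4_mon K q) Ω).comp _ hinj
  apply hR
  funext β
  rw [Pi.zero_apply]
  ext m
  rw [coeff_zero]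
  by_contra hm
  set M : Finset ((K →+* Ω) →₀ ℕ) := Finset.univ.biUnion fun β : Fin L => (R β).support with hM
  have hsum : ∑ p ∈ (Finset.univ : Finset (Fin L)) ×ˢ M, (coeff p.2 (R p.1)) • (c4_chi (K := K) (Ω := Ω) hq hF p : c4_mon K q → Ω) = 0 := by
    funext a
    rw [Finset.sum_apply, Pi.zero_apply, Finset.sum_product]
    obtain ⟨z, hz⟩ := exists_alp b a.2
    rw [← h z, ← hz]
    refine Finset.sum_congr rfl fun β' _ => ?_
    rw [eval_eq', Finset.sum_mul]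
    have hsub : (R β').support ⊆ M := Finset.subset_biUnion_of_mem (fun β : Fin L => (R β).support) (Finset.mem_univ β')
    rw [← Finset.sum_subset hsub]
    · refine Finset.sum_congr rfl fun d _ => ?_
      show coeff d (R β') * ((∏ τ : K →+* Ω, τ ((a : 𝓞 K) : K) ^ d τ) * F a ^ (β' : ℕ)) = _
      ring
    · intro d _ hd
      rw [Pi.smul_apply, notMem_support_iff.1 hd, zero_smul]
  have h1 := (linearIndependent_iff'.1 hli) _ (fun p => coeff p.2 (R p.1)) hsum (β, m) (by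
    rw [Finset.mem_product]
    refine ⟨Finset.mem_univ _, ?_⟩
    rw [hM, Finset.mem_biUnion]
    exact ⟨β, Finset.mem_univ _, mem_support_iff.2 hm⟩)
  exact hm h1

end Pool.Agent.Lib.H84L
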