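import Pool.Agent.Lib.H84L.P0

/-! # H84L chunk P2: the values of the auxiliary function are algebraic integers with bounded conjugates -/

set_option autoImplicit false

namespace Pool.Agent.Lib.H84L

variable {Ω : Type} [Field Ω] [CharZero Ω] {ι : Type} [Fintype ι] [DecidableEq ι]

/-- PROOF. Each factor is at most `l T` in absolute value, `1 ≤ l T`, the exponent is at most `L`. -/
theorem mon_abs_le {l L T : ℕ} (hl : 1 ≤ l) (hT : 1 ≤ T) (a : ι → Fin L) {z : ι → ℤ} (hz : Box T z) :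
    |(mon l a z : ℝ)| ≤ ((l : ℝ) * T) ^ (Fintype.card ι * L) := by
  have hlT : (1 : ℝ) ≤ (l : ℝ) * T := by
    have h1 : (1 : ℝ) ≤ (l : ℝ) := by exact_mod_cast hl
    have h2 : (1 : ℝ) ≤ (T : ℝ) := by exact_mod_cast hT
    nlinarith
  unfold mon
  push_cast
  rw [Finset.abs_prod]
  have h3 : ∀ i ∈ (Finset.univ : Finset ι), |((l : ℝ) * (z i : ℝ)) ^ ((a i : Fin L) : ℕ)| ≤ ((l : ℝ) * T) ^ L := by
    intro i _
    rw [abs_pow]
    have h4 : |(l : ℝ) * (z i : ℝ)| ≤ (l : ℝ) * T := by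
      rw [abs_mul, abs_of_nonneg (Nat.cast_nonneg l)]
      refine mul_le_mul_of_nonneg_left ?_ (Nat.cast_nonneg l)
      have := hz i
      have h5 : ((|z i| : ℤ) : ℝ) ≤ ((T : ℤ) : ℝ) := by exact_mod_cast this
      simpa using h5
    calc |(l : ℝ) * (z i : ℝ)| ^ ((a i : Fin L) : ℕ) ≤ ((l : ℝ) * T) ^ ((a i : Fin L) : ℕ) :=
          pow_le_pow_left₀ (abs_nonneg _) h4 _
      _ ≤ ((l : ℝ) * T) ^ L := pow_le_pow_right₀ hlT (a i).2.le
  refine (Finset.prod_le_prod (fun i _ => abs_nonneg _) h3).trans ?_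
  rw [Finset.prod_const, Finset.card_univ, ← pow_mul, mul_comm L]

/-- PROOF. `Phi = ∑ b, R b * (G z) ^ b` with `R b = ∑ a, p (a, b) * mon l a z`, `|R b| ≤ L ^ d * P * (l T) ^ (d L)` (`mon_abs_le`,
`card (ι → Fin L) = L ^ d`). By `Bd.lin`: `Bd D (∑ b, |R b| Q ^ b)`, and `∑ b, |R b| Q ^ b ≤ L * (L ^ d P (l T) ^ (d L)) Q ^ L` with `Q = (C T) ^ M ≥ 1`. -/
theorem phi_bd {l L T C M D P : ℕ} (hl : 1 ≤ l) (hT : 1 ≤ T) (hC : 1 ≤ C) {p : (ι → Fin L) × Fin L → ℤ} (hp : ∀ i, |p i| ≤ (P : ℤ))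
    {G : (ι → ℤ) → Ω} {z : ι → ℤ} (hz : Box T z) (hG : Bd D (((C : ℝ) * T) ^ M) (G z)) :
    Bd D (VB l (Fintype.card ι) C M L P T : ℝ) (Phi l L p G z) := by
  set R : Fin L → ℤ := fun b => ∑ a : ι → Fin L, p (a, b) * mon l a z with hR
  have h1 : Phi l L p G z = ∑ b : Fin L, (R b : Ω) * G z ^ (b : ℕ) := by
    unfold Phi
    rw [Fintype.sum_prod_type_right]
    refine Finset.sum_congr rfl fun b _ => ?_
    rw [hR]
    push_cast
    rw [Finset.sum_mul]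
  rw [h1]
  have hQ : (1 : ℝ) ≤ ((C : ℝ) * T) ^ M := by
    refine one_le_pow₀ ?_
    have h1 : (1 : ℝ) ≤ (C : ℝ) := by exact_mod_cast hC
    have h2 : (1 : ℝ) ≤ (T : ℝ) := by exact_mod_cast hT
    nlinarith
  refine (Bd.lin hG R).mono le_rfl ?_
  have hRb : ∀ b : Fin L, |(R b : ℝ)| ≤ (L : ℝ) ^ (Fintype.card ι) * ((P : ℝ) * ((l : ℝ) * T) ^ (Fintype.card ι * L)) := by
    intro b
    rw [hR]
    push_cast
    refine (Finset.abs_sum_le_sum_abs _ _).trans ?_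
    have h3 : ∀ a ∈ (Finset.univ : Finset (ι → Fin L)), |(p (a, b) : ℝ) * (mon l a z : ℝ)| ≤
        (P : ℝ) * ((l : ℝ) * T) ^ (Fintype.card ι * L) := by
      intro a _
      rw [abs_mul]
      refine mul_le_mul ?_ (mon_abs_le hl hT a hz) (abs_nonneg _) (Nat.cast_nonneg P)
      have := hp (a, b)
      have h5 : ((|p (a, b)| : ℤ) : ℝ) ≤ ((P : ℤ) : ℝ) := by exact_mod_cast this
      simpa using h5
    refine (Finset.sum_le_sum h3).trans ?_
    rw [Finset.sum_const, Finset.card_univ, nsmul_eq_mul, Fintype.card_fun, Fintype.card_fin]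
    push_cast
    exact le_rfl
  have hsum : ∀ b ∈ (Finset.univ : Finset (Fin L)), |(R b : ℝ)| * (((C : ℝ) * T) ^ M) ^ (b : ℕ) ≤
      ((L : ℝ) ^ (Fintype.card ι) * ((P : ℝ) * ((l : ℝ) * T) ^ (Fintype.card ι * L))) * (((C : ℝ) * T) ^ M) ^ L := by
    intro b _
    refine mul_le_mul (hRb b) (pow_le_pow_right₀ hQ b.2.le) (by positivity) (by positivity)
  refine (Finset.sum_le_sum hsum).trans ?_
  rw [Finset.sum_const, Finset.card_univ, nsmul_eq_mul, Fintype.card_fin]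
  unfold VB
  push_cast
  apply le_of_eq
  ring

end Pool.Agent.Lib.H84L
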