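import Pool.Agent.Lib.H84L.P0
import Pool.Agent.Lib.H84L.P2

/-! # H84L chunk P4: the auxiliary polynomial exists -/

set_option autoImplicit false

namespace Pool.Agent.Lib.H84L

variable {Ω : Type} [Field Ω] [CharZero Ω] {ι : Type} [Fintype ι] [DecidableEq ι]

/-- PROOF. `siegel` with `Z` = the box of size `T` (as a subtype of a `Finset`, `Fintype.piFinset (fun _ => Finset.Icc (-T) T)`, cardinality `(2T+1) ^ d`; it
contains 0), `I = (ι → Fin L) × Fin L` (cardinality `L ^ d * L`), `c i z = mon l i.1 z` (`mon_abs_le`, `T' = (l T) ^ (d L) ≥ 1`), `e i = i.2 ≤ L`,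
`Q = (C T) ^ M ≥ 1`. The bound of `siegel` is exactly `PB` (as a real number; compare integers with `Int.cast_le`). -/
theorem phi_start {l L T C M D : ℕ} (hl : 1 ≤ l) (hT : 1 ≤ T) (hC : 1 ≤ C) (hD : 1 ≤ D) {G : (ι → ℤ) → Ω}
    (hG : ∀ z : ι → ℤ, Box T z → Bd D (((C : ℝ) * T) ^ M) (G z))
    (hcard : 2 * ((2 * T + 1) ^ Fintype.card ι * D) ≤ L ^ (Fintype.card ι + 1)) :
    ∃ p : (ι → Fin L) × Fin L → ℤ, p ≠ 0 ∧ (∀ z : ι → ℤ, Box T z → Phi l L p G z = 0) ∧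
      ∀ i, |p i| ≤ (PB l (Fintype.card ι) C M L D T : ℤ) := by
  classical
  have hbox : ∀ z : ι → ℤ, z ∈ Fintype.piFinset (fun _ : ι => Finset.Icc (-(T : ℤ)) T) ↔ Box T z := by
    intro z
    simp only [Fintype.mem_piFinset, Finset.mem_Icc, Box, abs_le]
  have h0 : (0 : ι → ℤ) ∈ Fintype.piFinset (fun _ : ι => Finset.Icc (-(T : ℤ)) T) := by
    rw [hbox]
    intro i
    simp
  have : Nonempty {z // z ∈ Fintype.piFinset (fun _ : ι => Finset.Icc (-(T : ℤ)) T)} := ⟨⟨0, h0⟩⟩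
  have hcZ : Fintype.card {z // z ∈ Fintype.piFinset (fun _ : ι => Finset.Icc (-(T : ℤ)) T)} =
      (2 * T + 1) ^ Fintype.card ι := by
    rw [Fintype.card_coe, Fintype.card_piFinset, Finset.prod_const, Finset.card_univ, Int.card_Icc]
    congr 1
    omega
  have hcI : Fintype.card ((ι → Fin L) × Fin L) = L ^ (Fintype.card ι + 1) := by
    rw [Fintype.card_prod, Fintype.card_fun, Fintype.card_fin, pow_succ]
  have hCT : (1 : ℝ) ≤ (C : ℝ) * T := by
    have : 1 ≤ C * T := Nat.one_le_iff_ne_zero.mpr (by positivity)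
    exact_mod_cast this
  have hlT : (1 : ℝ) ≤ (l : ℝ) * T := by
    have : 1 ≤ l * T := Nat.one_le_iff_ne_zero.mpr (by positivity)
    exact_mod_cast this
  obtain ⟨p, hp0, hp1, hp2⟩ := siegel
    (Z := {z // z ∈ Fintype.piFinset (fun _ : ι => Finset.Icc (-(T : ℤ)) T)})
    (I := (ι → Fin L) × Fin L) (B := D) (L := L) hD
    (Q := ((C : ℝ) * T) ^ M) (T := ((l : ℝ) * T) ^ (Fintype.card ι * L))
    (one_le_pow₀ hCT) (one_le_pow₀ hlT) (fun z => G z.1) (fun z => hG z.1 ((hbox z.1).mp z.2))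
    (fun i z => mon l i.1 z.1) (fun i z => mon_abs_le hl hT i.1 ((hbox z.1).mp z.2))
    (fun i => (i.2 : ℕ)) (fun i => i.2.2.le) (by rw [hcZ, hcI]; exact hcard)
  refine ⟨p, hp0, fun z hz => hp1 ⟨z, (hbox z).mpr hz⟩, fun i => ?_⟩
  have h1 := hp2 i
  rw [hcI] at h1
  have h2 : ((|p i| : ℤ) : ℝ) ≤ ((PB l (Fintype.card ι) C M L D T : ℤ) : ℝ) := by
    rw [PB]
    push_cast
    push_cast at h1
    exact h1
  exact_mod_cast h2

end Pool.Agent.Lib.H84L
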