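import Mathlib

/-! # H84L chunk P7: first inequality between the parameters (natural numbers) -/

set_option autoImplicit false

namespace Pool.Agent.Lib.H84L

/-- PROOF. With `T₀ = n ^ (4(d+1)) ≥ 1`: `(2 T₀ + 1) ^ d ≤ 3 ^ d T₀ ^ d`, `D ≤ D ^ 4 ≤ A n`; the left side is at most `2 * 3 ^ d * A * n * n ^ (4 d (d+1))
≤ n ^ (2 + 4 d (d+1))` and `(4 d + 3) (d + 1) = 4 d (d+1) + 3 (d + 1) ≥ 4 d (d+1) + 2`. -/
theorem fst_ineq {d A n D : ℕ} (hn : 1 ≤ n) (hnA : 2 * 3 ^ d * A ≤ n) (hD : D ^ 4 ≤ A * n) :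
    2 * ((2 * n ^ (4 * (d + 1)) + 1) ^ d * D) ≤ (n ^ (4 * d + 3)) ^ (d + 1) := by
  have hD1 : D ≤ A * n := (Nat.le_self_pow (by norm_num) D).trans hD
  have hT : 1 ≤ n ^ (4 * (d + 1)) := Nat.one_le_pow _ _ hn
  have h1 : (2 * n ^ (4 * (d + 1)) + 1) ^ d ≤ 3 ^ d * (n ^ (4 * (d + 1))) ^ d := by
    rw [← mul_pow]
    exact Nat.pow_le_pow_left (by omega) _
  calc 2 * ((2 * n ^ (4 * (d + 1)) + 1) ^ d * D) ≤ 2 * ((3 ^ d * (n ^ (4 * (d + 1))) ^ d) * (A * n)) :=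
        Nat.mul_le_mul_left _ (Nat.mul_le_mul h1 hD1)
    _ = (2 * 3 ^ d * A) * n * (n ^ (4 * (d + 1))) ^ d := by ring
    _ ≤ n * n * (n ^ (4 * (d + 1))) ^ d := Nat.mul_le_mul_right _ (Nat.mul_le_mul_right _ hnA)
    _ = n ^ (2 + 4 * (d + 1) * d) := by rw [← pow_mul, pow_add, pow_two]
    _ ≤ n ^ ((4 * d + 3) * (d + 1)) := Nat.pow_le_pow_right hn (by nlinarith)
    _ = (n ^ (4 * d + 3)) ^ (d + 1) := by rw [pow_mul]

/-- PROOF. `(D ^ 4) ^ (4(d+1)) ≤ A n ^ (4(d+1)) ≤ (A n) ^ (4(d+1))`, `lt_of_pow_lt_pow_left` / `pow_le_pow_iff_left`. (If `A = 0` then `D = 0`.) -/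
theorem pow_four_le {d A n D : ℕ} (h : D ^ (16 * (d + 1)) ≤ A * n ^ (4 * (d + 1))) : D ^ 4 ≤ A * n := by
  have hk : 4 * (d + 1) ≠ 0 := by omega
  have h1 : (D ^ 4) ^ (4 * (d + 1)) ≤ (A * n) ^ (4 * (d + 1)) := by
    calc (D ^ 4) ^ (4 * (d + 1)) = D ^ (16 * (d + 1)) := by
          rw [← pow_mul]
          congr 1
          ring
      _ ≤ A * n ^ (4 * (d + 1)) := h
      _ ≤ A ^ (4 * (d + 1)) * n ^ (4 * (d + 1)) := Nat.mul_le_mul_right _ (Nat.le_self_pow hk A)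
      _ = (A * n) ^ (4 * (d + 1)) := (mul_pow _ _ _).symm
  exact (Nat.pow_le_pow_iff_left hk).1 h1

end Pool.Agent.Lib.H84L
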