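import Pool.Agent.Lib.H84L.P6
import Pool.Agent.Lib.H84L.P7

/-! # H84L chunk P8: second inequality between the parameters (natural numbers) -/

set_option autoImplicit false

namespace Pool.Agent.Lib.H84L

/-- PROOF. Let `e = 4 (d+1)`, `b = e`, `c = e + Nat.log 2 (2 l C) + 1`, `n₀ ≥ 1` such that `log_growth` (with `a = K ^ 2 A`, `b`, `c`) holds for
`m ≥ n₀`. Given `n, T, D₀, D₁`, choose `m` with `m ^ e ≤ T + 1 < (m+1) ^ e` (`exists_root_floor`); `n ^ e ≤ T` gives `n ≤ m`. Then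
`D₁ ^ (16(d+1)) ≤ A (T+1) ≤ A (m+1) ^ e` gives `D₁ ^ 4 ≤ A (m+1)` (`pow_four_le`), `D₀ ^ 4 ≤ A n ≤ A (m+1)`, so `(D₀ D₁) ^ 2 ≤ A (m+1)`. With `s = b Nat.log 2 (m+1) + c`:
`2 l C (T+1) ≤ 2 ^ (Nat.log 2 (2 l C) + 1) * (2 ^ (Nat.log 2 (m+1) + 1)) ^ e = 2 ^ s` (`Nat.lt_pow_succ_log_self`). Let `E = K (n ^ (4d+3) D₀) D₁`.
`(s E) ^ 2 ≤ s ^ 2 K ^ 2 m ^ (8d+6) A (m+1) ≤ m ^ (8d+6) m ^ 2 = (m ^ e) ^ 2 ≤ (T+1) ^ 2`, so `s E ≤ T + 1`, and the left side is at most `2 ^ (s E) ≤ 2 ^ (T+1) < 2 ^ (2T+1)`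
(`T ≥ 1`). -/
theorem snd_ineq (l d C K A : ℕ) (hl : 1 ≤ l) (hC : 1 ≤ C) : ∃ n₀ : ℕ, ∀ n T D₀ D₁ : ℕ, n₀ ≤ n → 1 ≤ n → n ^ (4 * (d + 1)) ≤ T →
    D₀ ^ 4 ≤ A * n → D₁ ^ (16 * (d + 1)) ≤ A * (T + 1) →
    (2 * l * C * (T + 1)) ^ (K * (n ^ (4 * d + 3) * D₀) * D₁) < 2 ^ (2 * T + 1) := by
  set e := 4 * (d + 1) with he
  set c := e + Nat.log 2 (2 * l * C) + 1 with hc
  obtain ⟨m₀, hm₀⟩ := log_growth (K ^ 2 * A) e c
  refine ⟨m₀, fun n T D₀ D₁ hn hn1 hT hD₀ hD₁ => ?_⟩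
  have hT1 : 1 ≤ T := le_trans (Nat.one_le_pow _ _ hn1) hT
  obtain ⟨m, hm1, hm2, hm3⟩ := exists_root_floor (e := e) (x := T + 1) (by omega) (by omega)
  have hnm : n ≤ m := by
    by_contra hcon
    have h1 : (m + 1) ^ e ≤ n ^ e := Nat.pow_le_pow_left (by omega) _
    omega
  have hg := hm₀ m (hn.trans hnm)
  have hD1' : D₁ ^ 4 ≤ A * (m + 1) := by
    refine pow_four_le (d := d) (hD₁.trans ?_)
    rw [← he]
    exact Nat.mul_le_mul_left _ hm3.le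
  have hD0' : D₀ ^ 4 ≤ A * (m + 1) := hD₀.trans (Nat.mul_le_mul_left _ (by omega))
  have hDD : (D₀ * D₁) ^ 2 ≤ A * (m + 1) := by
    have h1 : ((D₀ * D₁) ^ 2) ^ 2 ≤ (A * (m + 1)) ^ 2 := by
      calc ((D₀ * D₁) ^ 2) ^ 2 = D₀ ^ 4 * D₁ ^ 4 := by ring
        _ ≤ (A * (m + 1)) * (A * (m + 1)) := Nat.mul_le_mul hD0' hD1'
        _ = (A * (m + 1)) ^ 2 := by ring
    exact (Nat.pow_le_pow_iff_left (by norm_num)).1 h1
  set s := e * Nat.log 2 (m + 1) + c with hs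
  set E := K * (n ^ (4 * d + 3) * D₀) * D₁ with hE
  have hbase : 2 * l * C * (T + 1) ≤ 2 ^ s := by
    have h1 : 2 * l * C ≤ 2 ^ (Nat.log 2 (2 * l * C) + 1) := (Nat.lt_pow_succ_log_self (by norm_num) _).le
    have h2 : m + 1 ≤ 2 ^ (Nat.log 2 (m + 1) + 1) := (Nat.lt_pow_succ_log_self (by norm_num) _).le
    have h3 : T + 1 ≤ (2 ^ (Nat.log 2 (m + 1) + 1)) ^ e := hm3.le.trans (Nat.pow_le_pow_left h2 _)
    calc 2 * l * C * (T + 1) ≤ 2 ^ (Nat.log 2 (2 * l * C) + 1) * (2 ^ (Nat.log 2 (m + 1) + 1)) ^ e := Nat.mul_le_mul h1 h3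
      _ = 2 ^ s := by
        rw [← pow_mul, ← pow_add]
        congr 1
        rw [hs, hc]
        ring
  have hsE : s * E ≤ T + 1 := by
    have h1 : (s * E) ^ 2 ≤ (T + 1) ^ 2 := by
      calc (s * E) ^ 2 = s ^ 2 * K ^ 2 * n ^ (8 * d + 6) * (D₀ * D₁) ^ 2 := by
            rw [hE]
            have h2 : (n ^ (4 * d + 3)) ^ 2 = n ^ (8 * d + 6) := by
              rw [← pow_mul]
              congr 1
              ring
            rw [← h2]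
            ring
        _ ≤ s ^ 2 * K ^ 2 * m ^ (8 * d + 6) * (A * (m + 1)) :=
            Nat.mul_le_mul (Nat.mul_le_mul_left _ (Nat.pow_le_pow_left hnm _)) hDD
        _ = m ^ (8 * d + 6) * (K ^ 2 * A * (m + 1) * s ^ 2) := by ring
        _ ≤ m ^ (8 * d + 6) * m ^ 2 := Nat.mul_le_mul_left _ hg
        _ = (m ^ e) ^ 2 := by
            rw [← pow_add, ← pow_mul]
            congr 1
            rw [he]
            ring
        _ ≤ (T + 1) ^ 2 := Nat.pow_le_pow_left hm2 _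
    exact (Nat.pow_le_pow_iff_left (by norm_num)).1 h1
  calc (2 * l * C * (T + 1)) ^ E ≤ (2 ^ s) ^ E := Nat.pow_le_pow_left hbase _
    _ = 2 ^ (s * E) := by rw [← pow_mul]
    _ ≤ 2 ^ (T + 1) := Nat.pow_le_pow_right (by norm_num) hsE
    _ < 2 ^ (2 * T + 1) := Nat.pow_lt_pow_right (by norm_num) (by omega)

end Pool.Agent.Lib.H84L
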