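import Pool.Agent.Lib.H84L.P5
import Pool.Agent.Lib.H84L.P8

/-! # H84L chunk P9: the choice of the parameters -/

set_option autoImplicit false

namespace Pool.Agent.Lib.H84L

/-- PROOF. `A` from `hDg (16(d+1))` (`A ≥ 1` because `Dg 1 ≥ 1`), `n₀` from `snd_ineq` with `K = 4d + 2M + 4`; `n := n₀ + 2 * 3 ^ d * A + 1`,
`T₀ := n ^ (4(d+1))`, `L := n ^ (4d+3) ≤ T₀`. `pow_four_le` gives `(Dg T₀) ^ 4 ≤ A n`, `fst_ineq` gives the first inequality (`D = Dg T₀`). Second: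
`vb_le`, raised to the power `Dg (T+1)` (`pow_mul`), then `snd_ineq`, then `2 ≤ l`. -/
theorem params (l d C M : ℕ) (hl : 2 ≤ l) (hC : 1 ≤ C) (Dg : ℕ → ℕ) (h1 : ∀ T, 1 ≤ Dg T)
    (hDg : ∀ h : ℕ, ∃ A : ℕ, ∀ T, 1 ≤ T → Dg T ^ h ≤ A * T) :
    ∃ T₀ L : ℕ, 1 ≤ T₀ ∧ 1 ≤ L ∧ 2 * ((2 * T₀ + 1) ^ d * Dg T₀) ≤ L ^ (d + 1) ∧
      ∀ T, T₀ ≤ T → (VB l d C M L (PB l d C M L (Dg T₀) T₀) (T + 1)) ^ Dg (T + 1) < l ^ (2 * T + 1) := by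
  obtain ⟨A, hA⟩ := hDg (16 * (d + 1))
  obtain ⟨n₀, hn₀⟩ := snd_ineq l d C (4 * d + 2 * M + 4) A (by omega) hC
  obtain ⟨n, hn⟩ : ∃ n : ℕ, n = n₀ + 2 * 3 ^ d * A + 1 := ⟨_, rfl⟩
  have hn1 : 1 ≤ n := by omega
  have hnA : 2 * 3 ^ d * A ≤ n := by omega
  have hT1 : 1 ≤ n ^ (4 * (d + 1)) := Nat.one_le_pow _ _ hn1
  have hL1 : 1 ≤ n ^ (4 * d + 3) := Nat.one_le_pow _ _ hn1
  have hLT : n ^ (4 * d + 3) ≤ n ^ (4 * (d + 1)) := Nat.pow_le_pow_right hn1 (by omega)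
  have h4 : Dg (n ^ (4 * (d + 1))) ^ 4 ≤ A * n := pow_four_le (d := d) (hA _ hT1)
  refine ⟨n ^ (4 * (d + 1)), n ^ (4 * d + 3), hT1, hL1, fst_ineq hn1 hnA h4, fun T hT => ?_⟩
  have h5 := vb_le (l := l) (d := d) (C := C) (M := M) (by omega) hC hL1 hLT hT (h1 (n ^ (4 * (d + 1))))
  calc (VB l d C M (n ^ (4 * d + 3)) (PB l d C M (n ^ (4 * d + 3)) (Dg (n ^ (4 * (d + 1)))) (n ^ (4 * (d + 1)))) (T + 1)) ^ Dg (T + 1)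
      ≤ ((2 * l * C * (T + 1)) ^ ((4 * d + 2 * M + 4) * (n ^ (4 * d + 3) * Dg (n ^ (4 * (d + 1)))))) ^ Dg (T + 1) :=
        Nat.pow_le_pow_left h5 _
    _ = (2 * l * C * (T + 1)) ^ ((4 * d + 2 * M + 4) * (n ^ (4 * d + 3) * Dg (n ^ (4 * (d + 1)))) * Dg (T + 1)) := by
        rw [← pow_mul]
    _ < 2 ^ (2 * T + 1) := hn₀ n T _ _ (by omega) hn1 hT h4 (hA (T + 1) (by omega))
    _ ≤ l ^ (2 * T + 1) := Nat.pow_le_pow_left hl _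

end Pool.Agent.Lib.H84L
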