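import Pool.Agent.Lib.H84L.P3
import Pool.Agent.Lib.H84L.P4
import Pool.Agent.Lib.H84L.P9

/-! # H84L chunk P10: a polynomial relation on the whole lattice -/

set_option autoImplicit false

namespace Pool.Agent.Lib.H84L

variable {Ω : Type} [NormedField Ω] [IsUltrametricDist Ω] [CharZero Ω] {ι : Type} [Fintype ι] [DecidableEq ι] {l : ℕ} [Fact l.Prime]

/-- PROOF. `Dg T` := the maximum of `dg z` over the box of size `T` (the finite set `Fintype.piFinset (fun _ => Finset.Icc (-T) T)`, nonempty, the maximum is attained: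
`Finset.exists_mem_eq_sup`), so `1 ≤ Dg T`, `Dg T ^ h ≤ A T` for `1 ≤ T`, and `Bd (Dg T) ..` on the box (`Bd.mono`). `params` with `d = card ι`: `T₀, L`. `phi_start` at
`T₀`: `p`, with `|p i| ≤ P = PB ..`, `1 ≤ P`. By induction on `T ≥ T₀` (`Nat.le_induction`) `Phi` vanishes on the box of size `T` (`phi_step`). Every `z` is in a box of size
`T ≥ T₀` (`T = T₀ + ∑ i, |z i|.toNat`). -/
theorem exists_relation (hl : ‖(l : Ω)‖ = (l : ℝ)⁻¹) {G : (ι → ℤ) → Ω}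
    (hG : ∀ z i, Sm ((l : ℝ)⁻¹) 1 (fun x : ℤ => G (Function.update z i x))) {C M : ℕ} (hC : 1 ≤ C) (dg : (ι → ℤ) → ℕ)
    (h1 : ∀ z, 1 ≤ dg z) (hBd : ∀ T : ℕ, 1 ≤ T → ∀ z : ι → ℤ, Box T z → Bd (dg z) (((C : ℝ) * T) ^ M) (G z))
    (hdg : ∀ h : ℕ, ∃ A : ℕ, ∀ T : ℕ, 1 ≤ T → ∀ z : ι → ℤ, Box T z → dg z ^ h ≤ A * T) :
    ∃ (L : ℕ) (p : (ι → Fin L) × Fin L → ℤ), p ≠ 0 ∧ ∀ z : ι → ℤ, Phi l L p G z = 0 := by
  classical
  have hl2 : 2 ≤ l := (Fact.out : l.Prime).two_le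
  set B : ℕ → Finset (ι → ℤ) := fun T => Fintype.piFinset fun _ => Finset.Icc (-(T : ℤ)) T with hB
  have hmem : ∀ (T : ℕ) (z : ι → ℤ), z ∈ B T ↔ Box T z := by
    intro T z
    rw [hB]
    simp only [Fintype.mem_piFinset, Finset.mem_Icc, Box, abs_le]
  have hne : ∀ T, (B T).Nonempty := fun T => ⟨0, (hmem T 0).2 fun i => by simp⟩
  set Dg : ℕ → ℕ := fun T => (B T).sup dg with hDgd
  have hle : ∀ T z, Box T z → dg z ≤ Dg T := fun T z hz => Finset.le_sup (f := dg) ((hmem T z).2 hz)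
  have hatt : ∀ T, ∃ z, Box T z ∧ Dg T = dg z := by
    intro T
    obtain ⟨z, hz, h⟩ := Finset.exists_mem_eq_sup (B T) (hne T) dg
    exact ⟨z, (hmem T z).1 hz, h⟩
  have hD1 : ∀ T, 1 ≤ Dg T := by
    intro T
    obtain ⟨z, _, h⟩ := hatt T
    rw [h]
    exact h1 z
  have hDg : ∀ h : ℕ, ∃ A : ℕ, ∀ T, 1 ≤ T → Dg T ^ h ≤ A * T := by
    intro h
    obtain ⟨A, hA⟩ := hdg h
    refine ⟨A, fun T hT => ?_⟩
    obtain ⟨z, hz, h⟩ := hatt T
    rw [h]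
    exact hA T hT z hz
  have hBd' : ∀ T : ℕ, 1 ≤ T → ∀ z : ι → ℤ, Box T z → Bd (Dg T) (((C : ℝ) * T) ^ M) (G z) :=
    fun T hT z hz => (hBd T hT z hz).mono (hle T z hz) le_rfl
  obtain ⟨T₀, L, hT0, hL, hcard, hV⟩ := params l (Fintype.card ι) C M hl2 hC Dg hD1 hDg
  obtain ⟨p, hp0, hpz, hpP⟩ := phi_start (l := l) (L := L) (T := T₀) (C := C) (M := M) (D := Dg T₀) (G := G)
    (by omega) hT0 hC (hD1 T₀) (hBd' T₀ hT0) hcard
  have hP1 : 1 ≤ PB l (Fintype.card ι) C M L (Dg T₀) T₀ := by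
    unfold PB
    have hl0 : 0 < l := by omega
    have hL0 : 0 < L := hL
    have hT00 : 0 < T₀ := hT0
    have h2 : 0 < L ^ (Fintype.card ι + 1) * ((l * T₀) ^ (Fintype.card ι * L) * (1 + (2 * (C * T₀) ^ M) ^ Dg T₀) ^ L) := by
      positivity
    exact h2
  have key : ∀ T, T₀ ≤ T → ∀ z : ι → ℤ, Box T z → Phi l L p G z = 0 := by
    intro T hT
    induction T, hT using Nat.le_induction with
    | base => exact hpz
    | succ T hT ih =>
      refine phi_step hl hC hpP hP1 hL hG (D := Dg (T + 1)) (T := T) (fun z hz => ?_) ih (hV T hT)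
      exact hBd' (T + 1) (by omega) z hz
  refine ⟨L, p, hp0, fun z => key (T₀ + ∑ i, (z i).natAbs) (by omega) z fun i => ?_⟩
  have h3 : (z i).natAbs ≤ ∑ i, (z i).natAbs :=
    Finset.single_le_sum (f := fun i => (z i).natAbs) (fun _ _ => Nat.zero_le _) (Finset.mem_univ i)
  rw [Int.abs_eq_natAbs]
  omega

end Pool.Agent.Lib.H84L
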