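import Pool.Agent.Lib.H84L.W0
import Pool.Agent.Lib.H84L.S2
import Pool.Agent.Lib.CFT.B05

/-! # H84L chunk W2: the values of the character are algebraic integers up to a power of the norm -/

set_option autoImplicit false

namespace Pool.Agent.Lib.H84L

open NumberField CFT

variable {K : Type} [Field K] [NumberField K] {Ω : Type} [NormedField Ω] [CharZero Ω]

theorem w2_norm {a : 𝓞 K} (ha : a ≠ 0) :
    (Algebra.norm ℤ a).natAbs = ∏ v ∈ (dv (a : K)).support, Nm v ^ (od v (a : K)).toNat := by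
  have ha' : (a : K) ≠ 0 := fun h => ha (RingOfIntegers.coe_eq_zero_iff.1 h)
  have h1 := nD_dv ha'
  rw [← Algebra.coe_norm_int, ← Int.cast_abs, ← Nat.cast_natAbs] at h1
  have h2 : nD (dv (a : K)) = ((∏ v ∈ (dv (a : K)).support, Nm v ^ (od v (a : K)).toNat : ℕ) : ℚ) := by
    unfold nD Finsupp.prod
    rw [Nat.cast_prod]
    refine Finset.prod_congr rfl fun v _ => ?_
    rw [Nat.cast_pow, dv_apply, ← zpow_natCast, Int.toNat_of_nonneg (od_nonneg v a)]
  rw [h2] at h1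
  exact (Nat.cast_injective (R := ℚ) h1).symm

theorem w2_FD (D : Dv K →+ Additive Ωˣ) (a : 𝓞 K) :
    FD D a = ∏ v ∈ (dv (a : K)).support, ((D (Finsupp.single v 1)).toMul : Ω) ^ (od v (a : K)).toNat := by
  have h1 : dv (a : K) = ∑ v ∈ (dv (a : K)).support, (od v (a : K)).toNat • Finsupp.single v (1 : ℤ) := by
    conv_lhs => rw [← Finsupp.sum_single (dv (a : K))]
    unfold Finsupp.sum
    refine Finset.sum_congr rfl fun v _ => ?_
    rw [dv_apply, Finsupp.smul_single, nsmul_one]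
    congr 1
    exact (Int.toNat_of_nonneg (od_nonneg v a)).symm
  unfold FD
  conv_lhs => rw [h1]
  rw [map_sum, toMul_sum, Units.coe_prod]
  refine Finset.prod_congr rfl fun v _ => ?_
  rw [map_nsmul, toMul_nsmul, Units.val_pow_eq_pow_val]

/-- PROOF. Let `s` be the support of `dv a`, `n v = (od v a).toNat` (`od_nonneg`). `dv a = ∑ v ∈ s, n v • single v 1`, so `FD D a = ∏ v ∈ s, y v ^ n v`, `y v` the value of `D` at
`single v 1`; `|norm a| = ∏ v ∈ s, Nm v ^ n v` (`nD_dv`, `nD`). So the number is `∏ v ∈ s, ((Nm v) ^ m * y v) ^ n v`: `Bd.pow`, `Bd.prod`. -/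
theorem bd_value (D : Dv K →+ Additive Ωˣ) (B m : ℕ)
    (hD : ∀ v : Pr K, Bd B ((Nm v : ℝ) ^ m) ((Nm v : Ω) ^ m * ((D (Finsupp.single v 1)).toMul : Ω))) {a : 𝓞 K} (ha : a ≠ 0) :
    Bd (B ^ om a) ((((Algebra.norm ℤ a).natAbs : ℕ) : ℝ) ^ m) ((((Algebra.norm ℤ a).natAbs : ℕ) : Ω) ^ m * FD D a) := by
  have h1 := Bd.prod (dv (a : K)).support B (fun v => ((Nm v : ℝ) ^ m) ^ (od v (a : K)).toNat)
    (fun v => ((Nm v : Ω) ^ m * ((D (Finsupp.single v 1)).toMul : Ω)) ^ (od v (a : K)).toNat)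
    (fun v _ => (hD v).pow _)
  have h2 : (∏ v ∈ (dv (a : K)).support, ((Nm v : ℝ) ^ m) ^ (od v (a : K)).toNat) =
      (((Algebra.norm ℤ a).natAbs : ℕ) : ℝ) ^ m := by
    rw [w2_norm ha, Nat.cast_prod, ← Finset.prod_pow]
    refine Finset.prod_congr rfl fun v _ => ?_
    rw [Nat.cast_pow, ← pow_mul, ← pow_mul, mul_comm]
  have h3 : (∏ v ∈ (dv (a : K)).support, ((Nm v : Ω) ^ m * ((D (Finsupp.single v 1)).toMul : Ω)) ^ (od v (a : K)).toNat) =
      (((Algebra.norm ℤ a).natAbs : ℕ) : Ω) ^ m * FD D a := by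
    rw [w2_norm ha, w2_FD, Nat.cast_prod, ← Finset.prod_pow, ← Finset.prod_mul_distrib]
    refine Finset.prod_congr rfl fun v _ => ?_
    rw [Nat.cast_pow, mul_pow, ← pow_mul, ← pow_mul, mul_comm (od v (a : K)).toNat m]
  rw [h2, h3] at h1
  exact h1

end Pool.Agent.Lib.H84L
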