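import Pool.Agent.Lib.H84L.W0

/-! # H84L chunk W3: the norm of `alp` is polynomially bounded -/

set_option autoImplicit false

namespace Pool.Agent.Lib.H84L

open NumberField CFT

variable {K : Type} [Field K] [NumberField K]

/-- PROOF. For every embedding `σ : K →+* ℂ`: `|σ (alp z)| ≤ 1 + q ∑ T |σ (b i)| ≤ C T` with `C = ⌈max over σ of 1 + q ∑ i |σ (b i)|⌉` (`1 ≤ T`). The norm is the product over the
`finrank` embeddings (`Algebra.norm_eq_prod_embeddings`). -/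
theorem norm_alp_le {ι : Type} [Fintype ι] (q : ℕ) (b : ι → 𝓞 K) : ∃ C : ℕ, 1 ≤ C ∧ ∀ T : ℕ, 1 ≤ T → ∀ z : ι → ℤ, Box T z →
    (Algebra.norm ℤ (alp q b z)).natAbs ≤ (C * T) ^ Module.finrank ℚ K := by
  classical
  obtain ⟨C, hC⟩ : ∃ C : ℕ, ∀ σ : K →+* ℂ, 1 + (q : ℝ) * ∑ i, ‖σ (b i : K)‖ ≤ C := by
    refine ⟨⌈∑ σ : K →+* ℂ, (1 + (q : ℝ) * ∑ i, ‖σ (b i : K)‖)⌉₊, fun σ => ?_⟩
    refine le_trans ?_ (Nat.le_ceil _)
    exact Finset.single_le_sum (f := fun σ : K →+* ℂ => 1 + (q : ℝ) * ∑ i, ‖σ (b i : K)‖)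
      (fun τ _ => by positivity) (Finset.mem_univ σ)
  refine ⟨max C 1, le_max_right _ _, fun T hT z hz => ?_⟩
  have hT' : (1 : ℝ) ≤ T := by exact_mod_cast hT
  have hbound : ∀ σ : K →ₐ[ℚ] ℂ, ‖σ ((alp q b z : 𝓞 K) : K)‖ ≤ (max C 1 : ℕ) * (T : ℝ) := by
    intro σ
    have e : ((alp q b z : 𝓞 K) : K) = 1 + (q : K) * ∑ i, (z i : K) * (b i : K) := by
      unfold alp
      push_cast
      rfl
    rw [e, map_add, map_one, map_mul, map_natCast, map_sum]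
    have h1 : ‖∑ i, σ ((z i : K) * (b i : K))‖ ≤ ∑ i, (T : ℝ) * ‖σ (b i : K)‖ := by
      refine (norm_sum_le _ _).trans (Finset.sum_le_sum fun i _ => ?_)
      rw [map_mul, map_intCast, norm_mul]
      refine mul_le_mul_of_nonneg_right ?_ (norm_nonneg _)
      rw [Complex.norm_intCast]
      exact_mod_cast hz i
    calc ‖(1 : ℂ) + (q : ℂ) * ∑ i, σ ((z i : K) * (b i : K))‖ ≤ ‖(1 : ℂ)‖ + ‖(q : ℂ) * ∑ i, σ ((z i : K) * (b i : K))‖ := norm_add_le _ _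
      _ ≤ 1 + (q : ℝ) * ∑ i, (T : ℝ) * ‖σ (b i : K)‖ := by
          rw [norm_one, norm_mul, Complex.norm_natCast]
          gcongr
      _ ≤ (1 + (q : ℝ) * ∑ i, ‖σ (b i : K)‖) * T := by
          rw [← Finset.mul_sum]
          nlinarith [hT']
      _ ≤ (C : ℝ) * T := by
          gcongr
          exact hC σ.toRingHom
      _ ≤ _ := by
          gcongr
          exact le_max_left _ _
  have hn : (((Algebra.norm ℤ (alp q b z)).natAbs : ℕ) : ℝ) = ‖((Algebra.norm ℚ ((alp q b z : 𝓞 K) : K) : ℚ) : ℂ)‖ := by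
    rw [← Algebra.coe_norm_int]
    push_cast
    rw [Complex.norm_intCast, Nat.cast_natAbs, Int.cast_abs]
  have h2 : ((Algebra.norm ℚ ((alp q b z : 𝓞 K) : K) : ℚ) : ℂ) = ∏ σ : K →ₐ[ℚ] ℂ, σ ((alp q b z : 𝓞 K) : K) := by
    have := Algebra.norm_eq_prod_embeddings ℚ ℂ ((alp q b z : 𝓞 K) : K)
    simpa using this
  have h3 : (((Algebra.norm ℤ (alp q b z)).natAbs : ℕ) : ℝ) ≤ ((max C 1 : ℕ) * (T : ℝ)) ^ Module.finrank ℚ K := by
    rw [hn, h2, norm_prod, ← AlgHom.card ℚ K ℂ]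
    refine (Finset.prod_le_prod (fun σ _ => norm_nonneg _) (fun σ _ => hbound σ)).trans ?_
    rw [Finset.prod_const, Finset.card_univ]
  exact_mod_cast h3

end Pool.Agent.Lib.H84L
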