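import Pool.Agent.Lib.H84L.W1
import Pool.Agent.Lib.H84L.W2
import Pool.Agent.Lib.H84L.W3
import Pool.Agent.Lib.H84L.W4
import Pool.Agent.Lib.H84L.P10

/-! # H84L chunk W5: the polynomial relation for a character of the divisor group -/

set_option autoImplicit false

namespace Pool.Agent.Lib.H84L

open NumberField CFT

variable {K : Type} [Field K] [NumberField K]

/-- PROOF. `exists_relation` with `G = GG (2 m) F (q l) b`, `F = FD D`, `d = finrank ≥ 1`, `dg z = B ^ om (alp z)`, `C` from `norm_alp_le`, `M = d * (2 m)`. `alp z ≠ 0` (`ne_zero_of_cong`). `GG_sm`. `bd_value` for `2 m`: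
`((norm).natAbs) ^ (2m) = (norm) ^ (2m)` because the exponent is even; the bound `|norm| ^ (2m) ≤ (C T) ^ (d 2m)`. The hypothesis of `bd_value` for `2 m` follows from that
for `m`: `(Nm v)^(2m) y = (Nm v)^m ((Nm v)^m y)` (`Bd.mul` with `Bd.natCast`). `dg`: `om_bound` with exponent `h d`:
`(dg z ^ h) ^ d ≤ A |norm| ≤ A (C T) ^ d ≤ (A C T) ^ d` (`1 ≤ A` may be assumed), so `dg z ^ h ≤ A C T` (`pow_le_pow_iff_left`). -/
theorem relation {Ω : Type} [NormedField Ω] [IsUltrametricDist Ω] [CharZero Ω] [IsAlgClosed Ω] {ι : Type} [Fintype ι] [DecidableEq ι]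
    {l : ℕ} [Fact l.Prime] (hl : ‖(l : Ω)‖ = (l : ℝ)⁻¹) (D : Dv K →+ Additive Ωˣ) (hF : MulF (FD D)) {q : ℕ} (hq : 0 < q)
    (hlq : l ^ 2 ∣ q) (hL : LpF l q (FD D)) {B m : ℕ} (hB : 1 ≤ B)
    (hD : ∀ v : Pr K, Bd B ((Nm v : ℝ) ^ m) ((Nm v : Ω) ^ m * ((D (Finsupp.single v 1)).toMul : Ω))) (b : ι → 𝓞 K) :
    ∃ (L : ℕ) (p : (ι → Fin L) × Fin L → ℤ), p ≠ 0 ∧ ∀ z : ι → ℤ, Phi l L p (GG (2 * m) (FD D) (q * l) b) z = 0 := by
  obtain ⟨C, hC, hCn⟩ := norm_alp_le (K := K) (q * l) b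
  have hl2 : 2 ≤ l := (Fact.out : l.Prime).two_le
  have hd : Module.finrank ℚ K ≠ 0 := (Module.finrank_pos).ne'
  have halp : ∀ z : ι → ℤ, alp (q * l) b z ≠ 0 := by
    intro z
    have hql : 2 ≤ q * l := le_trans hl2 (Nat.le_mul_of_pos_left l hq)
    refine ne_zero_of_cong hql ⟨∑ i, (z i : 𝓞 K) * b i, ?_⟩
    unfold alp
    ring
  have hD2 : ∀ v : Pr K, Bd B ((Nm v : ℝ) ^ (2 * m)) ((Nm v : Ω) ^ (2 * m) * ((D (Finsupp.single v 1)).toMul : Ω)) := by
    intro v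
    have h1 := (Bd.natCast (Ω := Ω) (Nm v ^ m)).mul (hD v)
    rw [one_mul] at h1
    have e1 : ((Nm v ^ m : ℕ) : ℝ) * (Nm v : ℝ) ^ m = (Nm v : ℝ) ^ (2 * m) := by
      push_cast
      ring
    have e2 : ((Nm v ^ m : ℕ) : Ω) * ((Nm v : Ω) ^ m * ((D (Finsupp.single v 1)).toMul : Ω)) =
        (Nm v : Ω) ^ (2 * m) * ((D (Finsupp.single v 1)).toMul : Ω) := by
      push_cast
      ring
    rw [e1, e2] at h1
    exact h1
  refine exists_relation hl (G := GG (2 * m) (FD D) (q * l) b) (GG_sm hl hF hq hlq hL (2 * m) b) (C := C)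
    (M := Module.finrank ℚ K * (2 * m)) hC (fun z => B ^ om (alp (q * l) b z)) (fun z => Nat.one_le_pow _ _ hB) ?_ ?_
  · intro T hT z hz
    have h1 := bd_value D B (2 * m) hD2 (halp z)
    have e1 : (((Algebra.norm ℤ (alp (q * l) b z)).natAbs : ℕ) : Ω) ^ (2 * m) = ((Algebra.norm ℤ (alp (q * l) b z) : ℤ) : Ω) ^ (2 * m) := by
      have e2 : (((Algebra.norm ℤ (alp (q * l) b z)).natAbs : ℤ)) ^ 2 = (Algebra.norm ℤ (alp (q * l) b z)) ^ 2 := Int.natAbs_sq _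
      have e3 := congrArg (Int.cast (R := Ω)) e2
      push_cast at e3
      rw [pow_mul, pow_mul, ← e3]
      congr 1
      rw [Nat.cast_natAbs]
    rw [e1] at h1
    refine h1.mono le_rfl ?_
    have h2 : (((Algebra.norm ℤ (alp (q * l) b z)).natAbs : ℕ) : ℝ) ≤ ((C : ℝ) * T) ^ Module.finrank ℚ K := by
      exact_mod_cast hCn T hT z hz
    rw [pow_mul ((C : ℝ) * T)]
    exact pow_le_pow_left₀ (Nat.cast_nonneg _) h2 _
  · intro h
    obtain ⟨A, hA⟩ := om_bound K B (h * Module.finrank ℚ K)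
    refine ⟨max A 1 * C, fun T hT z hz => ?_⟩
    have h1 := hA _ (halp z)
    have h2 := hCn T hT z hz
    have h3 : ((B ^ om (alp (q * l) b z)) ^ h) ^ Module.finrank ℚ K ≤ (max A 1 * C * T) ^ Module.finrank ℚ K := by
      calc ((B ^ om (alp (q * l) b z)) ^ h) ^ Module.finrank ℚ K = (B ^ om (alp (q * l) b z)) ^ (h * Module.finrank ℚ K) := by
            rw [← pow_mul]
        _ ≤ A * (Algebra.norm ℤ (alp (q * l) b z)).natAbs := h1
        _ ≤ max A 1 * (C * T) ^ Module.finrank ℚ K := Nat.mul_le_mul (le_max_left _ _) h2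
        _ ≤ (max A 1) ^ Module.finrank ℚ K * (C * T) ^ Module.finrank ℚ K :=
            Nat.mul_le_mul_right _ (Nat.le_self_pow hd _)
        _ = (max A 1 * C * T) ^ Module.finrank ℚ K := by
            rw [← mul_pow, mul_assoc]
    exact (Nat.pow_le_pow_iff_left hd).1 h3

end Pool.Agent.Lib.H84L
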