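import Pool.Agent.Lib.H84L.R3
import Pool.Agent.Lib.H84L.W5
import Pool.Agent.Lib.H84L.C3
import Pool.Agent.Lib.H84L.C4

/-! # H84L chunk C5: assembly: some power of a near-continuous character of bounded degree is algebraic -/

set_option autoImplicit false

namespace Pool.Agent.Lib.H84L

open NumberField CFT

/-- PROOF. `lip_of_ct`: `q`. `b` = an integral basis (`RingOfIntegers.basis K`), `relation` gives `L, p ≠ 0`; `exists_polys` with `q l` and `M = 2 m` (`alp ≠ 0` by `ne_zero_of_cong`), `dedekind` with `q l`. -/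
theorem alg_of_ct {K : Type} [Field K] [NumberField K] {Ω : Type} [NormedField Ω] [IsUltrametricDist Ω] [CharZero Ω] [IsAlgClosed Ω]
    {l : ℕ} [Fact l.Prime] (hl : ‖(l : Ω)‖ = (l : ℝ)⁻¹) (D : Dv K →+ Additive Ωˣ) (hF : MulF (FD D)) {Q : ℕ} (hQ : 0 < Q)
    (hlQ : l ∣ Q) (hc : CtF Q (FD D)) {B m : ℕ} (hB : 1 ≤ B)
    (hD : ∀ v : Pr K, Bd B ((Nm v : ℝ) ^ m) ((Nm v : Ω) ^ m * ((D (Finsupp.single v 1)).toMul : Ω))) :
    ∃ (q n : ℕ) (e : (K →+* Ω) → ℤ), 1 < q ∧ l ∣ q ∧ 0 < n ∧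
      ∀ a : 𝓞 K, (q : 𝓞 K) ∣ a - 1 → FD D a ^ n = ∏ τ : K →+* Ω, τ (a : K) ^ e τ := by
  classical
  have hlp : l.Prime := Fact.out
  obtain ⟨q, hq, hlq, -, hL⟩ := lip_of_ct hl hF hQ hlQ hc
  have hql : 1 < q * l := by
    have h1 := hlp.two_le
    nlinarith
  obtain ⟨L, p, hp, hrel⟩ := relation hl D hF hq hlq hL hB hD (RingOfIntegers.basis K)
  have hne : ∀ z, alp (q * l) (RingOfIntegers.basis K) z ≠ 0 := by
    intro z
    apply ne_zero_of_cong hql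
    rw [alp, add_sub_cancel_left]
    exact Dvd.intro _ rfl
  obtain ⟨R, hR, hR2⟩ := exists_polys (RingOfIntegers.basis K) (by omega : 0 < q * l) hlp.pos (FD D)
    (2 * m) L hne hp hrel
  obtain ⟨n, e, hn, hne2⟩ := dedekind (RingOfIntegers.basis K) hql hF hR hR2
  exact ⟨q * l, n, e, hql, Dvd.intro_left _ rfl, hn, hne2⟩

end Pool.Agent.Lib.H84L
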