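import Mathlib

/-!
# H84L (local algebraicity, client MP_32ceeb): definitions for the ultrametric part

`Ω` is an ultrametric field containing the rational numbers with `‖l‖ = 1/l`. `Sm r c f`: the
differences of order `j` of `f : ℤ → Ω` are bounded by `c * r ^ j`. Think of `r = l ^ (-k)`: `f` is
analytic on the disc of radius `1/r`.
-/

set_option autoImplicit false

namespace Pool.Agent.Lib.H84L

variable {Ω : Type} [NormedField Ω]

/-- The differences of order `j` are at most `c * r ^ j`. -/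
def Sm (r c : ℝ) (f : ℤ → Ω) : Prop := ∀ (j : ℕ) (z : ℤ), ‖((fwdDiff (1 : ℤ))^[j] f) z‖ ≤ c * r ^ j

/-- The same for `j ≤ J`. -/
def SmJ (r c : ℝ) (J : ℕ) (f : ℤ → Ω) : Prop :=
  ∀ j ≤ J, ∀ z : ℤ, ‖((fwdDiff (1 : ℤ))^[j] f) z‖ ≤ c * r ^ j

theorem sm_iff {r c : ℝ} {f : ℤ → Ω} : Sm r c f ↔ ∀ J, SmJ r c J f :=
  ⟨fun h _ j _ z => h j z, fun h j z => h j j le_rfl z⟩

end Pool.Agent.Lib.H84L
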