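import Pool.Agent.Lib.H84L.D0

/-!
# H84L: multiplicative functions on the integers of a number field

`MulF F`: `F (a b) = F a * F b`, `‖F a‖ = 1` for nonzero `a, b`. `CtF Q F`: `F a` tends to 1 when `a - 1` is
divisible by high powers of the integer `Q`.
-/

set_option autoImplicit false

namespace Pool.Agent.Lib.H84L

open NumberField

variable {K : Type} [Field K] [NumberField K] {Ω : Type} [NormedField Ω]

/-- `F` is multiplicative with values of norm 1. -/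
structure MulF (F : 𝓞 K → Ω) : Prop where
  one : F 1 = 1
  mul : ∀ a b, a ≠ 0 → b ≠ 0 → F (a * b) = F a * F b
  nrm : ∀ a, a ≠ 0 → ‖F a‖ = 1

/-- `F a` is near 1 if `a - 1` is divisible by a high power of `Q`. -/
def CtF (Q : ℕ) (F : 𝓞 K → Ω) : Prop :=
  ∀ ε : ℝ, 0 < ε → ∃ j : ℕ, ∀ a : 𝓞 K, ((Q : 𝓞 K)) ^ j ∣ a - 1 → ‖F a - 1‖ ≤ ε

/-- Lipschitz condition with respect to `l`, with an auxiliary modulus `q`. -/
def LpF (l q : ℕ) (F : 𝓞 K → Ω) : Prop :=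
  ∀ (n : ℕ) (a : 𝓞 K), (q : 𝓞 K) * (l : 𝓞 K) ^ n ∣ a - 1 → ‖F a - 1‖ ≤ ((l : ℝ)⁻¹) ^ (n + 1)

end Pool.Agent.Lib.H84L
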