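import Mathlib
import Pool.Agent.Lib.CFT.D1

/-! # H84L: the prime ideal under an embedding of number fields (definition) -/

set_option autoImplicit false

namespace Pool.Agent.Lib.H84L

open NumberField IsDedekindDomain CFT

variable {M : Type} [Field M] [NumberField M] {L : Type} [Field L] [NumberField L]

/-- The prime of `M` under the prime `w` of `L`, with respect to the embedding `σ`. -/
noncomputable def pull (σ : M →+* L) (w : Pr L) : Pr M :=
  letI := σ.toAlgebra
  below M w

end Pool.Agent.Lib.H84L
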