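import Pool.Agent.Lib.CFT.D1
import Pool.Agent.Lib.CFT.ZB
import Pool.Agent.Lib.CFT.ZC
import Pool.Agent.Lib.CFT.B06

/-! # H84L chunk I1: infinitely many primes split completely -/

set_option autoImplicit false

namespace Pool.Agent.Lib.H84L

open NumberField IsDedekindDomain

/-- Primes of the rational numbers. -/
private theorem rat_prime (v : CFT.Pr ℚ) : (Rat.HeightOneSpectrum.natGenerator v).Prime ∧
    v.asIdeal = Ideal.span {((Rat.HeightOneSpectrum.natGenerator v : ℕ) : 𝓞 ℚ)} := by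
  have hp := Rat.HeightOneSpectrum.prime_natGenerator v
  refine ⟨hp, ?_⟩
  have h1 := Rat.HeightOneSpectrum.span_natGenerator v
  ext x
  rw [← Ideal.apply_mem_of_equiv_iff (f := Rat.IsIntegralClosure.intEquiv (𝓞 ℚ)), ← h1, Ideal.mem_span_singleton,
    Ideal.mem_span_singleton]
  constructor
  · rintro ⟨y, hy⟩
    refine ⟨(Rat.IsIntegralClosure.intEquiv (𝓞 ℚ)).symm y, ?_⟩
    apply (Rat.IsIntegralClosure.intEquiv (𝓞 ℚ)).injective
    rw [hy, map_mul, map_natCast, RingEquiv.apply_symm_apply]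
  · rintro ⟨y, hy⟩
    refine ⟨Rat.IsIntegralClosure.intEquiv (𝓞 ℚ) y, ?_⟩
    rw [hy, map_mul, map_natCast]

private theorem rat_inj {v v' : CFT.Pr ℚ}
    (h : Rat.HeightOneSpectrum.natGenerator v = Rat.HeightOneSpectrum.natGenerator v') : v = v' := by
  apply HeightOneSpectrum.ext
  rw [(rat_prime v).2, (rat_prime v').2, h]

/-- PROOF. `CFTZ.density_split ℚ L`: `PS {v | Spl ℚ L v} s ≥ (1/n) log (1/(s-1)) - C` is unbounded for `s → 1+`, so the set of split primes `v` of `ℚ` is infinite (for a finite set `PS` is at most the number of elements). The map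
`v ↦ Nm v = absNorm v` is injective on the primes of `ℚ` and its values are prime numbers (`v = (p)`), so there is a split `v` with `p = absNorm v ∉ T`. For a prime `w` of `L` with `p ∈ w`: `w` is above `v`, `f = 1` gives
`Nm w = absNorm v = p` and `e = 1` gives `od w p = e * od v p = 1`. -/
theorem split_prime (L : Type) [Field L] [NumberField L] [IsGalois ℚ L] (T : Finset ℕ) :
    ∃ p : ℕ, p.Prime ∧ p ∉ T ∧ ∀ w : CFT.Pr L, (p : 𝓞 L) ∈ w.asIdeal → CFT.Nm w = p ∧ CFT.od w (p : L) = 1 := by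
  classical
  -- a split prime whose generator is not in T
  obtain ⟨v, hv, hvT⟩ : ∃ v : H55R.Pl ℚ, H55R.Spl ℚ L v ∧ Rat.HeightOneSpectrum.natGenerator v ∉ T := by
    by_contra hcon
    push Not at hcon
    have hfin : {v : H55R.Pl ℚ | Rat.HeightOneSpectrum.natGenerator v ∈ T}.Finite :=
      T.finite_toSet.preimage (fun v _ v' _ h => rat_inj h)
    obtain ⟨C, hC⟩ := CFTZ.density_split ℚ L
    have hfr : (0 : ℝ) < Module.finrank ℚ L := by exact_mod_cast Module.finrank_pos
    have h1 : (1 / Module.finrank ℚ L : ℝ) ≤ 0 := by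
      refine CFTZ.lead_le (C := C + hfin.toFinset.card) fun s hs => ?_
      have e1 := (abs_le.1 (hC s hs)).1
      have e2 : H55R.PS {v : H55R.Pl ℚ | H55R.Spl ℚ L v} s ≤ H55R.PS (∅ : Set (H55R.Pl ℚ)) s + hfin.toFinset.card :=
        CFTZ.PS_le hfin.toFinset (fun v hv hn => (hn (hfin.mem_toFinset.2 (hcon v hv))).elim) hs.1
      have e3 : H55R.PS (∅ : Set (H55R.Pl ℚ)) s = 0 := by
        unfold H55R.PS
        simp
      rw [e3] at e2
      rw [zero_mul]
      linarith
    have h2 : (0 : ℝ) < 1 / Module.finrank ℚ L := by positivity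
    linarith
  obtain ⟨hp, hvp⟩ := rat_prime v
  set p := Rat.HeightOneSpectrum.natGenerator v with hpdef
  refine ⟨p, hp, hvT, fun w hw => ?_⟩
  -- the prime below w is v
  have hbel : CFT.below ℚ w = v := by
    apply HeightOneSpectrum.ext
    have hle : v.asIdeal ≤ (CFT.below ℚ w).asIdeal := by
      rw [hvp, Ideal.span_singleton_le_iff_mem]
      show ((p : ℕ) : 𝓞 ℚ) ∈ w.asIdeal.under (𝓞 ℚ)
      rw [Ideal.under_def, Ideal.mem_comap, map_natCast]
      exact hw
    exact (v.isMaximal.eq_of_le (CFT.below ℚ w).isPrime.ne_top hle).symm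
  have hvm := v.isMaximal
  have hwp := w.isPrime
  have hvpr := v.isPrime
  have hNv : Ideal.absNorm v.asIdeal = p := by
    rw [hvp, Ideal.absNorm_span_natCast, RingOfIntegers.rank, Module.finrank_self, pow_one]
  refine ⟨?_, ?_⟩
  · have h1 := CFTZ.D5_norm v w hbel
    unfold CFT.Nm
    rw [h1, hv.2, pow_one, hNv]
  · have h1 := CFT.od_alg (K := ℚ) ((p : ℕ) : ℚ) w
    rw [map_natCast] at h1
    rw [h1, hbel]
    have hl : w.asIdeal.LiesOver v.asIdeal := by
      rw [← hbel]
      exact ⟨rfl⟩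
    have he : w.asIdeal.ramificationIdx (𝓞 ℚ) = 1 := by
      rw [← Ideal.ramificationIdxIn_eq_ramificationIdx v.asIdeal w.asIdeal Gal(L/ℚ)]
      exact hv.1
    rw [he]
    have h2 : v.valuation ℚ ((p : ℕ) : ℚ) = WithZero.exp (-1) := by
      have h3 := v.intValuation_singleton (r := ((p : ℕ) : 𝓞 ℚ)) (by exact_mod_cast hp.ne_zero) hvp
      have e : ((p : ℕ) : ℚ) = algebraMap (𝓞 ℚ) ℚ ((p : ℕ) : 𝓞 ℚ) := (map_natCast (algebraMap (𝓞 ℚ) ℚ) p).symm
      rw [e]
      exact (v.valuation_of_algebraMap (K := ℚ) ((p : ℕ) : 𝓞 ℚ)).trans h3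
    unfold CFT.od
    rw [h2]
    simp

end Pool.Agent.Lib.H84L
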