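import Pool.Agent.Lib.H84L.D0

/-! # H84L chunk N1: Newton's interpolation formula, one variable -/

set_option autoImplicit false

namespace Pool.Agent.Lib.H84L

variable {Ω : Type} [NormedField Ω] [IsUltrametricDist Ω]

theorem n1_neg (f : ℤ → Ω) (j : ℕ) (z : ℤ) :
    ((fwdDiff (1 : ℤ))^[j] (fun z => f (-z))) z = (-1) ^ j * ((fwdDiff (1 : ℤ))^[j] f) (-z - j) := by
  induction j generalizing z with
  | zero => simp
  | succ j ih =>
    rw [Function.iterate_succ_apply', Function.iterate_succ_apply']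
    show ((fwdDiff (1 : ℤ))^[j] (fun z => f (-z))) (z + 1) - ((fwdDiff (1 : ℤ))^[j] (fun z => f (-z))) z =
      (-1) ^ (j + 1) * (((fwdDiff (1 : ℤ))^[j] f) (-z - ((j + 1 : ℕ) : ℤ) + 1) - ((fwdDiff (1 : ℤ))^[j] f) (-z - ((j + 1 : ℕ) : ℤ)))
    rw [ih, ih]
    have h1 : -(z + 1) - (j : ℤ) = -z - ((j + 1 : ℕ) : ℤ) := by push_cast; ring
    have h2 : -z - ((j + 1 : ℕ) : ℤ) + 1 = -z - (j : ℤ) := by push_cast; ring
    rw [h1, h2]
    ring

/-- PROOF. By induction on `j` (or by `fwdDiff_iter_eq_sum_shift`): the `j`-th difference of `z ↦ f (-z)` at `z`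
is `(-1) ^ j` times the `j`-th difference of `f` at `-z - j`. -/
theorem Sm.neg_arg {r c : ℝ} {f : ℤ → Ω} (h : Sm r c f) : Sm r c (fun z => f (-z)) := by
  intro j z
  rw [n1_neg, norm_mul, norm_pow, norm_neg, norm_one, one_pow, one_mul]
  exact h j _

/-- PROOF. `f (a + n) = ∑ k ≤ n, C(n,k) (Δ^k f) a` (`shift_eq_sum_fwdDiff_iter`), `‖C(n,k)‖ ≤ 1`. For `k < t`:
`(Δ^k f) a` is an integral combination of the `f (a + i)`, `i ≤ k` (`fwdDiff_iter_eq_sum_shift`), so its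
norm is at most `ε`; for `k ≥ t` its norm is at most `c r ^ k ≤ c r ^ t ≤ ε`. The norm of a finite sum is
at most `ε` if all terms are (`IsUltrametricDist.norm_sum_le_of_forall_le_of_nonneg`). -/
theorem newton_ge {r c ε : ℝ} (hr : 0 ≤ r) (hr1 : r ≤ 1) (hc : 0 ≤ c) (hε : 0 ≤ ε) {f : ℤ → Ω}
    (hf : Sm r c f) (a : ℤ) (t : ℕ) (ht : c * r ^ t ≤ ε) (h : ∀ i : ℕ, i < t → ‖f (a + i)‖ ≤ ε)
    (n : ℕ) : ‖f (a + n)‖ ≤ ε := by
  have h1 := shift_eq_sum_fwdDiff_iter (1 : ℤ) f n a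
  rw [nsmul_eq_mul, mul_one] at h1
  rw [h1]
  refine IsUltrametricDist.norm_sum_le_of_forall_le_of_nonneg hε fun k _ => ?_
  rw [nsmul_eq_mul, norm_mul]
  have h2 : ‖((n.choose k : ℕ) : Ω)‖ ≤ 1 := IsUltrametricDist.norm_natCast_le_one Ω _
  have h3 : ‖((fwdDiff (1 : ℤ))^[k] f) a‖ ≤ ε := by
    rcases lt_or_ge k t with hk | hk
    · rw [fwdDiff_iter_eq_sum_shift]
      refine IsUltrametricDist.norm_sum_le_of_forall_le_of_nonneg hε fun i hi => ?_
      rw [zsmul_eq_mul, norm_mul]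
      have h4 : ‖((((-1 : ℤ) ^ (k - i) * (k.choose i : ℤ)) : ℤ) : Ω)‖ ≤ 1 := IsUltrametricDist.norm_intCast_le_one Ω _
      have h5 : ‖f (a + i • (1 : ℤ))‖ ≤ ε := by
        rw [nsmul_eq_mul, mul_one]
        exact h i (by have := Finset.mem_range.1 hi; omega)
      calc _ ≤ 1 * ε := mul_le_mul h4 h5 (norm_nonneg _) zero_le_one
        _ = ε := one_mul ε
    · refine (hf k a).trans (le_trans ?_ ht)
      exact mul_le_mul_of_nonneg_left (pow_le_pow_of_le_one hr hr1 hk) hc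
  calc _ ≤ 1 * ε := mul_le_mul h2 h3 (norm_nonneg _) zero_le_one
    _ = ε := one_mul ε

/-- PROOF. If `z = a + n` with `n ≥ 0` use `newton_ge`. Otherwise apply `newton_ge` to `g w = f (-w)`
(`Sm.neg_arg`) with the starting point `-(a + t - 1)` instead of `a`:
`g (-(a + t - 1) + i) = f (a + (t - 1 - i))`. If `t = 0` use `newton_ge` with `a := z`, `n := 0`. -/
theorem newton {r c ε : ℝ} (hr : 0 ≤ r) (hr1 : r ≤ 1) (hc : 0 ≤ c) (hε : 0 ≤ ε) {f : ℤ → Ω}
    (hf : Sm r c f) (a : ℤ) (t : ℕ) (ht : c * r ^ t ≤ ε) (h : ∀ i : ℕ, i < t → ‖f (a + i)‖ ≤ ε)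
    (z : ℤ) : ‖f z‖ ≤ ε := by
  rcases Nat.eq_zero_or_pos t with rfl | htp
  · have h1 := newton_ge hr hr1 hc hε hf z 0 ht (fun i hi => absurd hi (by omega)) 0
    simpa using h1
  · rcases le_or_gt a z with haz | haz
    · have h1 := newton_ge hr hr1 hc hε hf a t ht h (z - a).toNat
      have h2 : a + ((z - a).toNat : ℤ) = z := by
        rw [Int.toNat_of_nonneg (by omega)]
        ring
      rwa [h2] at h1
    · have h1 := newton_ge hr hr1 hc hε hf.neg_arg (-(a + t - 1)) t ht (fun i hi => by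
        have h3 : -(-(a + (t : ℤ) - 1) + (i : ℤ)) = a + ((t - 1 - i : ℕ) : ℤ) := by
          have : ((t - 1 - i : ℕ) : ℤ) = (t : ℤ) - 1 - i := by omega
          rw [this]
          ring
        rw [h3]
        exact h _ (by omega)) (-z + (a + t - 1)).toNat
      have h2 : -(-(a + (t : ℤ) - 1) + ((-z + (a + t - 1)).toNat : ℤ)) = z := by
        rw [Int.toNat_of_nonneg (by omega)]
        ring
      rwa [h2] at h1

end Pool.Agent.Lib.H84L
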