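import Pool.Agent.Lib.H84L.N1

/-! # H84L chunk N2: functions of several variables which are small on a box are small everywhere -/

set_option autoImplicit false

namespace Pool.Agent.Lib.H84L

variable {Ω : Type} [NormedField Ω] [IsUltrametricDist Ω]

/-- PROOF. Induction on the finite set `s` of coordinates (for all `z`): if `a ≤ z i < a + t` for all `i ∉ s`
then `‖Φ z‖ ≤ ε`. `s = ∅` is the hypothesis. Step `insert i s`, `i ∉ s`: apply `newton` to
`x ↦ Φ (Function.update z i x)`: for `a ≤ x < a + t` the point `Function.update z i x` satisfies the condition for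
`s`, so the value is at most `ε`; hence it is for `x = z i` (`Function.update_eq_self`). Finally `s = univ`. -/
theorem newton_box {ι : Type} [Fintype ι] [DecidableEq ι] {r ε : ℝ} (hr : 0 ≤ r) (hr1 : r ≤ 1)
    {Φ : (ι → ℤ) → Ω} (hΦ : ∀ z i, Sm r 1 (fun x : ℤ => Φ (Function.update z i x))) (a : ℤ) (t : ℕ)
    (ht : r ^ t ≤ ε) (h : ∀ z : ι → ℤ, (∀ i, a ≤ z i ∧ z i < a + t) → ‖Φ z‖ ≤ ε) (z : ι → ℤ) :
    ‖Φ z‖ ≤ ε := by
  have hε : 0 ≤ ε := (pow_nonneg hr t).trans ht
  have key : ∀ s : Finset ι, ∀ z : ι → ℤ, (∀ i, i ∉ s → a ≤ z i ∧ z i < a + t) → ‖Φ z‖ ≤ ε := by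
    intro s
    induction s using Finset.induction_on with
    | empty => exact fun z hz => h z fun i => hz i (Finset.notMem_empty i)
    | insert i s hi ih =>
      intro z hz
      have h1 := newton hr hr1 zero_le_one hε (hΦ z i) a t (by rwa [one_mul]) (fun x hx => by
        refine ih _ fun j hj => ?_
        rcases eq_or_ne j i with rfl | hji
        · rw [Function.update_self]
          constructor <;> omega
        · rw [Function.update_of_ne hji]
          exact hz j fun hmem => (Finset.mem_insert.1 hmem).elim hji hj) (z i)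
      rwa [Function.update_eq_self] at h1
  exact key Finset.univ z fun i hi => absurd (Finset.mem_univ i) hi

end Pool.Agent.Lib.H84L
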