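import Pool.Agent.Lib.H84L.P0

/-! # H84L chunk P1: the auxiliary function is smooth in each variable -/

set_option autoImplicit false

namespace Pool.Agent.Lib.H84L

variable {Ω : Type} [NormedField Ω] [IsUltrametricDist Ω] {ι : Type} [Fintype ι] [DecidableEq ι]

/-- Integers have norm at most 1. -/
theorem p1_norm_int (n : ℤ) : ‖(n : Ω)‖ ≤ 1 := IsUltrametricDist.norm_intCast_le_one Ω n

/-- PROOF. For fixed `z, i` and variable `x`: the factor `l * (update z i x) j` is `0 + x * l` for `j = i` (`Sm.lin`, `‖l‖ ≤ l⁻¹`) and a constant of norm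
at most 1 for `j ≠ i` (`Sm.const`). So `mon` is smooth (`Sm.pow`, `Sm.prod`; `Int.cast_prod`), the integers `p i` have norm at most 1,
`G` is smooth by hypothesis; `Sm.mul`, `Sm.sum`. -/
theorem phi_sm {l : ℕ} (hl : ‖(l : Ω)‖ = (l : ℝ)⁻¹) (L : ℕ) (p : (ι → Fin L) × Fin L → ℤ) {G : (ι → ℤ) → Ω}
    (hG : ∀ z i, Sm ((l : ℝ)⁻¹) 1 (fun x : ℤ => G (Function.update z i x))) (z : ι → ℤ) (i : ι) :
    Sm ((l : ℝ)⁻¹) 1 (fun x : ℤ => Phi l L p G (Function.update z i x)) := by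
  have hr : (0 : ℝ) ≤ (l : ℝ)⁻¹ := inv_nonneg.2 (Nat.cast_nonneg l)
  unfold Phi
  refine Sm.sum hr _ _ fun q _ => ?_
  refine Sm.mul hr (Sm.mul hr (Sm.const hr zero_le_one (p1_norm_int _)) ?_) (Sm.pow hr (hG z i) _)
  have h1 : (fun x : ℤ => ((mon l q.1 (Function.update z i x) : ℤ) : Ω)) =
      fun x : ℤ => ∏ j : ι, (((l : ℤ) * (Function.update z i x) j : ℤ) : Ω) ^ ((q.1 j : Fin L) : ℕ) := by
    funext x
    unfold mon
    push_cast
    rfl
  rw [h1]
  refine Sm.prod hr _ (fun j (x : ℤ) => (((l : ℤ) * (Function.update z i x) j : ℤ) : Ω) ^ ((q.1 j : Fin L) : ℕ)) fun j _ => ?_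
  refine Sm.pow hr (f := fun x : ℤ => (((l : ℤ) * (Function.update z i x) j : ℤ) : Ω)) ?_ _
  rcases eq_or_ne j i with rfl | hji
  · have h2 : (fun x : ℤ => (((l : ℤ) * (Function.update z j x) j : ℤ) : Ω)) = fun x : ℤ => (0 : Ω) + x * (l : Ω) := by
      funext x
      rw [Function.update_self]
      push_cast
      ring
    rw [h2]
    exact Sm.lin hr (Nat.cast_inv_le_one l) (by rw [norm_zero]; exact zero_le_one) hl.le
  · have h2 : (fun x : ℤ => (((l : ℤ) * (Function.update z i x) j : ℤ) : Ω)) = fun _ : ℤ => (((l : ℤ) * z j : ℤ) : Ω) := by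
      funext x
      rw [Function.update_of_ne hji]
    rw [h2]
    exact Sm.const hr zero_le_one (p1_norm_int _)

end Pool.Agent.Lib.H84L
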