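import Pool.Agent.Lib.H84L.P0
import Pool.Agent.Lib.H84L.P1
import Pool.Agent.Lib.H84L.P2

/-! # H84L chunk P3: extrapolation from the box of size `T` to the box of size `T + 1` -/

set_option autoImplicit false

namespace Pool.Agent.Lib.H84L

variable {Ω : Type} [NormedField Ω] [IsUltrametricDist Ω] [CharZero Ω] {ι : Type} [Fintype ι] [DecidableEq ι] {l : ℕ} [Fact l.Prime]

/-- PROOF. `newton_box` with `r = l⁻¹`, `a = -T`, `t = 2T + 1`, `ε = r ^ t` (`phi_sm`; the values on the box are 0): `‖Phi z‖ ≤ l ^ (-(2T+1))` for all `z`. If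
`z` is in the box of size `T + 1` and `Phi z ≠ 0` then `liouville` (`phi_bd` with `T + 1`) gives `1 ≤ ‖Phi z‖ * V ^ D ≤ l ^ (-(2T+1)) V ^ D < 1`. -/
theorem phi_step (hl : ‖(l : Ω)‖ = (l : ℝ)⁻¹) {L T C M D P : ℕ} (hC : 1 ≤ C) {p : (ι → Fin L) × Fin L → ℤ}
    (hp : ∀ i, |p i| ≤ (P : ℤ)) (hP : 1 ≤ P) (hL : 1 ≤ L) {G : (ι → ℤ) → Ω}
    (hG : ∀ z i, Sm ((l : ℝ)⁻¹) 1 (fun x : ℤ => G (Function.update z i x)))
    (hB : ∀ z : ι → ℤ, Box (T + 1) z → Bd D (((C : ℝ) * ((T + 1 : ℕ) : ℝ)) ^ M) (G z))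
    (h0 : ∀ z : ι → ℤ, Box T z → Phi l L p G z = 0)
    (hV : (VB l (Fintype.card ι) C M L P (T + 1)) ^ D < l ^ (2 * T + 1)) :
    ∀ z : ι → ℤ, Box (T + 1) z → Phi l L p G z = 0 := by
  have hlp : 1 < l := (Fact.out : l.Prime).one_lt
  have hl1 : (1 : ℝ) < (l : ℝ) := by exact_mod_cast hlp
  have hl0 : (0 : ℝ) < (l : ℝ) := by linarith
  intro z hz
  by_contra hne
  have hnb : ‖Phi l L p G z‖ ≤ ((l : ℝ)⁻¹) ^ (2 * T + 1) := by
    refine newton_box (inv_nonneg.2 hl0.le) (inv_le_one_of_one_le₀ hl1.le)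
      (fun z i => phi_sm hl L p hG z i) (-(T : ℤ)) (2 * T + 1) le_rfl (fun z hz => ?_) z
    rw [h0 z fun i => ?_, norm_zero]
    · positivity
    · have h1 := hz i
      rw [abs_le]
      constructor
      · exact h1.1
      · have := h1.2
        push_cast at this
        omega
  have hVB1 : 1 ≤ VB l (Fintype.card ι) C M L P (T + 1) := by
    unfold VB
    have h1 : 0 < L ^ (Fintype.card ι + 1) * (P * ((l * (T + 1)) ^ (Fintype.card ι * L) * ((C * (T + 1)) ^ M) ^ L)) := by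
      have := (Fact.out : l.Prime).pos
      positivity
    exact h1
  have hbd : Bd D ((VB l (Fintype.card ι) C M L P (T + 1) : ℕ) : ℝ) (Phi l L p G z) :=
    phi_bd hlp.le (Nat.succ_pos T) hC hp hz (hB z hz)
  have hli := liouville (l := l) hl (by exact_mod_cast hVB1) hbd hne
  have hV' : (((VB l (Fintype.card ι) C M L P (T + 1) : ℕ) : ℝ)) ^ D < (l : ℝ) ^ (2 * T + 1) := by exact_mod_cast hV
  have h2 : ‖Phi l L p G z‖ * (((VB l (Fintype.card ι) C M L P (T + 1) : ℕ) : ℝ)) ^ D < 1 := by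
    calc ‖Phi l L p G z‖ * (((VB l (Fintype.card ι) C M L P (T + 1) : ℕ) : ℝ)) ^ D
        ≤ ((l : ℝ)⁻¹) ^ (2 * T + 1) * (((VB l (Fintype.card ι) C M L P (T + 1) : ℕ) : ℝ)) ^ D :=
          mul_le_mul_of_nonneg_right hnb (by positivity)
      _ < ((l : ℝ)⁻¹) ^ (2 * T + 1) * (l : ℝ) ^ (2 * T + 1) :=
          mul_lt_mul_of_pos_left hV' (by positivity)
      _ = 1 := by rw [← mul_pow, inv_mul_cancel₀ hl0.ne', one_pow]
  linarith

end Pool.Agent.Lib.H84L
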