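import Pool.Agent.Lib.H84L.P0

/-! # H84L chunk P5: an upper bound for `VB` (natural numbers) -/

set_option autoImplicit false

namespace Pool.Agent.Lib.H84L

/-- PROOF. Let `Y = 2 l C (T+1)`: `2 ≤ Y` and `L, l T₀, C T₀, l (T+1), C (T+1) ≤ Y`. Then `PB ≤ Y ^ (d+1) * Y ^ (d L) * (1 + Y ^ ((M+1) D₀)) ^ L
≤ Y ^ (d + 1 + d L + ((M+1) D₀ + 1) L)` (`2 (C T₀) ^ M ≤ Y ^ (M+1)` because `2 ≤ Y`; `1 + x ≤ Y x` for `x ≥ 1`), and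
`VB ≤ Y ^ (d+1) * PB * Y ^ (d L) * Y ^ (M L)`. The exponent is `2 (d+1) + 2 d L + M L + ((M+1) D₀ + 1) L ≤ (4d + 2M + 4) L D₀`, because `1 ≤ L`,
`1 ≤ D₀`. -/
theorem vb_le {l d C M L D₀ T₀ T : ℕ} (hl : 1 ≤ l) (hC : 1 ≤ C) (hL : 1 ≤ L) (hLT : L ≤ T₀) (hT : T₀ ≤ T) (hD : 1 ≤ D₀) :
    VB l d C M L (PB l d C M L D₀ T₀) (T + 1) ≤ (2 * l * C * (T + 1)) ^ ((4 * d + 2 * M + 4) * (L * D₀)) := by
  obtain ⟨Y, hY⟩ : ∃ Y : ℕ, Y = 2 * l * C * (T + 1) := ⟨_, rfl⟩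
  rw [← hY]
  have hlC : 1 ≤ l * C := Nat.one_le_iff_ne_zero.2 (Nat.mul_ne_zero (by omega) (by omega))
  have h2l : 1 ≤ 2 * l := by omega
  have hT1 : T + 1 ≤ Y := by
    rw [hY]
    exact Nat.le_mul_of_pos_left _ (by positivity)
  have hlT1 : l * (T + 1) ≤ Y := by
    rw [hY]
    exact Nat.mul_le_mul_right _ (by nlinarith)
  have hCT1 : C * (T + 1) ≤ Y := by
    rw [hY]
    refine Nat.mul_le_mul_right _ ?_
    exact Nat.le_mul_of_pos_left _ (by omega)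
  have hY2 : 2 ≤ Y := by
    rw [hY]
    calc 2 = 2 * 1 * 1 * 1 := rfl
      _ ≤ 2 * l * C * (T + 1) := by gcongr; omega
  have hLY : L ≤ Y := by omega
  have hlT0 : l * T₀ ≤ Y := (Nat.mul_le_mul_left l (by omega)).trans hlT1
  have hCT0 : C * T₀ ≤ Y := (Nat.mul_le_mul_left C (by omega)).trans hCT1
  have hY1 : 1 ≤ Y := by omega
  have h1 : 1 + (2 * (C * T₀) ^ M) ^ D₀ ≤ Y ^ ((M + 1) * D₀ + 1) := by
    have h2 : 2 * (C * T₀) ^ M ≤ Y ^ (M + 1) := by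
      rw [pow_succ, mul_comm]
      exact Nat.mul_le_mul (Nat.pow_le_pow_left hCT0 M) hY2
    have h3 : (2 * (C * T₀) ^ M) ^ D₀ ≤ Y ^ ((M + 1) * D₀) := by
      rw [pow_mul]
      exact Nat.pow_le_pow_left h2 D₀
    have h4 : 1 ≤ Y ^ ((M + 1) * D₀) := Nat.one_le_pow _ _ (by omega)
    calc 1 + (2 * (C * T₀) ^ M) ^ D₀ ≤ Y ^ ((M + 1) * D₀) + Y ^ ((M + 1) * D₀) := add_le_add h4 h3
      _ = Y ^ ((M + 1) * D₀) * 2 := by ring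
      _ ≤ Y ^ ((M + 1) * D₀) * Y := Nat.mul_le_mul_left _ hY2
      _ = Y ^ ((M + 1) * D₀ + 1) := (pow_succ _ _).symm
  have hPB : PB l d C M L D₀ T₀ ≤ Y ^ (d + 1) * (Y ^ (d * L) * Y ^ (((M + 1) * D₀ + 1) * L)) := by
    unfold PB
    refine Nat.mul_le_mul (Nat.pow_le_pow_left hLY _) (Nat.mul_le_mul (Nat.pow_le_pow_left hlT0 _) ?_)
    rw [pow_mul]
    exact Nat.pow_le_pow_left h1 L
  have hVB : VB l d C M L (PB l d C M L D₀ T₀) (T + 1) ≤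
      Y ^ (d + 1) * ((Y ^ (d + 1) * (Y ^ (d * L) * Y ^ (((M + 1) * D₀ + 1) * L))) * (Y ^ (d * L) * Y ^ (M * L))) := by
    unfold VB
    refine Nat.mul_le_mul (Nat.pow_le_pow_left hLY _) (Nat.mul_le_mul hPB
      (Nat.mul_le_mul (Nat.pow_le_pow_left hlT1 _) ?_))
    rw [pow_mul]
    exact Nat.pow_le_pow_left (Nat.pow_le_pow_left hCT1 M) L
  refine hVB.trans ?_
  rw [← pow_add, ← pow_add, ← pow_add, ← pow_add, ← pow_add]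
  refine Nat.pow_le_pow_right hY1 ?_
  obtain ⟨L', rfl⟩ : ∃ L', L = L' + 1 := ⟨L - 1, by omega⟩
  obtain ⟨D', rfl⟩ : ∃ D', D₀ = D' + 1 := ⟨D₀ - 1, by omega⟩
  have e : (4 * d + 2 * M + 4) * ((L' + 1) * (D' + 1)) = d + 1 + (d + 1 + (d * (L' + 1) + ((M + 1) * (D' + 1) + 1) * (L' + 1)) +
      (d * (L' + 1) + M * (L' + 1))) + (2 * (d + 1) * (L' * D' + L' + D') + 2 * d * (D' * (L' + 1)) + M * (D' * (L' + 1)) + D' * (L' + 1)) := by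
    ring
  rw [e]
  exact Nat.le_add_right _ _

end Pool.Agent.Lib.H84L
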