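import Mathlib

/-! # H84L chunk P6: logarithms grow slowly (natural numbers) -/

set_option autoImplicit false

namespace Pool.Agent.Lib.H84L

/-- PROOF. Let `k = Nat.log 2 (m+1)`, `2 ^ k ≤ m + 1`. As `m ≥ (m+1)/2` (for `m ≥ 1`) it is enough that `4 a (b k + c) ^ 2 ≤ 2 ^ k ≤ m + 1`, true for
`k ≥ k₀` (exponential against polynomial, for example `tendsto_pow_const_div_const_pow_of_one_lt` or induction), that is for `m ≥ 2 ^ k₀`
(`Nat.log_mono_right`). -/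
theorem log_growth (a b c : ℕ) : ∃ m₀ : ℕ, ∀ m, m₀ ≤ m → a * (m + 1) * (b * Nat.log 2 (m + 1) + c) ^ 2 ≤ m ^ 2 := by
  -- exponential against polynomial
  have hexp : ∃ k₀ : ℕ, 1 ≤ k₀ ∧ ∀ k, k₀ ≤ k → 4 * a * (b * k + c) ^ 2 ≤ 2 ^ k := by
    set K : ℕ := 4 * a * (b + c) ^ 2 with hK
    have h1 := tendsto_pow_const_div_const_pow_of_one_lt 2 (show (1 : ℝ) < 2 by norm_num)
    have h2 : (0 : ℝ) < 1 / ((K : ℝ) + 1) := by positivity
    obtain ⟨k₀, hk₀⟩ := Filter.eventually_atTop.mp (h1.eventually (gt_mem_nhds h2))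
    refine ⟨max k₀ 1, le_max_right _ _, fun k hk => ?_⟩
    have h3 := hk₀ k ((le_max_left _ _).trans hk)
    have h4 : 1 ≤ k := (le_max_right _ _).trans hk
    have h5 : (0 : ℝ) < 2 ^ k := by positivity
    rw [div_lt_div_iff₀ h5 (by positivity), one_mul] at h3
    have h6 : k ^ 2 * (K + 1) < 2 ^ k := by exact_mod_cast h3
    have h7 : b * k + c ≤ (b + c) * k := by nlinarith
    calc 4 * a * (b * k + c) ^ 2 ≤ 4 * a * ((b + c) * k) ^ 2 := by gcongr
      _ = k ^ 2 * K := by rw [hK]; ring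
      _ ≤ k ^ 2 * (K + 1) := by gcongr; omega
      _ ≤ 2 ^ k := h6.le
  obtain ⟨k₀, hk1, hk₀⟩ := hexp
  refine ⟨2 ^ k₀, fun m hm => ?_⟩
  have hm1 : 1 ≤ m := Nat.one_le_two_pow.trans hm
  have hlog : k₀ ≤ Nat.log 2 (m + 1) := by
    have h := Nat.log_mono_right (b := 2) (hm.trans (Nat.le_succ m))
    rwa [Nat.log_pow (by norm_num)] at h
  have h1 := hk₀ _ hlog
  have h2 : 2 ^ Nat.log 2 (m + 1) ≤ m + 1 := Nat.pow_log_le_self 2 (Nat.succ_ne_zero m)
  have h3 := h1.trans h2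
  set t := (b * Nat.log 2 (m + 1) + c) ^ 2 with ht
  have h4 : 4 * (a * (m + 1) * t) ≤ 4 * m ^ 2 := by
    calc 4 * (a * (m + 1) * t) = (4 * a * t) * (m + 1) := by ring
      _ ≤ (m + 1) * (m + 1) := by gcongr
      _ ≤ (2 * m) * (2 * m) := by gcongr <;> omega
      _ = 4 * m ^ 2 := by ring
  omega

/-- PROOF. The largest `m` with `m ^ e ≤ x` (`Nat.findGreatest` or `Nat.nthRoot`). -/
theorem exists_root_floor {e x : ℕ} (he : 1 ≤ e) (hx : 1 ≤ x) : ∃ m : ℕ, 1 ≤ m ∧ m ^ e ≤ x ∧ x < (m + 1) ^ e := by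
  classical
  have h1 : Nat.findGreatest (fun m => m ^ e ≤ x) x ^ e ≤ x :=
    Nat.findGreatest_spec (P := fun m => m ^ e ≤ x) hx (by simpa using hx)
  have h2 : 1 ≤ Nat.findGreatest (fun m => m ^ e ≤ x) x :=
    Nat.le_findGreatest (P := fun m => m ^ e ≤ x) hx (by simpa using hx)
  refine ⟨_, h2, h1, ?_⟩
  rcases lt_or_ge x (Nat.findGreatest (fun m => m ^ e ≤ x) x + 1) with h3 | h3
  · exact h3.trans_le (Nat.le_self_pow (by omega) _)
  · have h4 := Nat.findGreatest_is_greatest (P := fun m => m ^ e ≤ x) (Nat.lt_succ_self _) h3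
    simpa using h4

end Pool.Agent.Lib.H84L
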