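import Pool.Agent.Lib.H84L.D1
import Pool.Agent.Lib.H84L.R1
import Pool.Agent.Lib.H84L.R2
import Pool.Agent.Lib.H84L.R4

/-! # H84L chunk R3: continuity implies the Lipschitz condition -/

set_option autoImplicit false

namespace Pool.Agent.Lib.H84L

open NumberField

variable {K : Type} [Field K] [NumberField K] {Ω : Type} [NormedField Ω] [IsUltrametricDist Ω]
  {l : ℕ} [Fact l.Prime]

omit [NumberField K] [IsUltrametricDist Ω] in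
theorem r3_pow {F : 𝓞 K → Ω} (hF : MulF F) {a : 𝓞 K} (ha : a ≠ 0) (e : ℕ) :
    F (a ^ e) = F a ^ e := by
  induction e with
  | zero => simp [hF.one]
  | succ e ih => rw [pow_succ, hF.mul _ _ (pow_ne_zero _ ha) ha, ih, pow_succ]

theorem r3_pow_near {x : Ω} {ε : ℝ} (hε : 0 ≤ ε) (hx1 : ‖x‖ = 1) (hx : ‖x - 1‖ ≤ ε) (m : ℕ) :
    ‖x ^ m - 1‖ ≤ ε := by
  induction m with
  | zero => simpa using hε
  | succ m ih => rw [pow_succ]; exact norm_mul_sub_one hx1 ih hx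

/-- PROOF. `j₁` with `‖F a - 1‖ ≤ 1/l` whenever `Q ^ j₁ ∣ a - 1`; `q := Q ^ (j₁ + 2)`, so `l ^ 2 ∣ q`.
Write `Q = l ^ a₀ Q₁`, `Q₁` prime to `l` (`a₀ ≥ 1`). Induction on `n`. `n = 0`: `Q ^ j₁ ∣ a - 1`.
Step: let `q l ^ (n+1) ∣ α - 1`, `ε := l ^ (-(n+2))`, `j ≥ 1` such that `‖F a - 1‖ ≤ ε` if `Q ^ j ∣ a - 1`.
Choose `N` with `l ^ (a₀ j) ∣ l ^ N`, `N ≥ n + 1`, and (`exists_root`) `γ ≡ 1 mod q l ^ n`,
`γ ^ l ≡ α mod q l ^ N`. Choose `J` with `q l ^ N ∣ Q ^ J`, `J ≥ j`, and (`exists_inv`, `Q ∣ γ - 1`) `γ'` with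
`Q ∣ γ' - 1`, `Q ^ J ∣ γ γ' - 1`. `β := α γ' ^ l`: `β ≡ γ ^ l γ' ^ l = (γ γ') ^ l ≡ 1 mod q l ^ N`. So
`Q ^ j₁ ∣ β - 1` and `l ^ (a₀ j) ∣ β - 1`, `Q₁ ∣ β - 1`. `e := Q₁ ^ j`: `Q₁ ^ j ∣ β ^ e - 1` (`pow_pow_cong`),
`l ^ (a₀ j) ∣ β ^ e - 1`, coprime, so `Q ^ j ∣ β ^ e - 1`: `‖F (β ^ e) - 1‖ ≤ ε`, `F (β ^ e) = (F β) ^ e`.
`‖F β - 1‖ ≤ 1/l < 1`, so `‖F β - 1‖ ≤ ε` (`norm_pow_coprime`). `‖F γ - 1‖ ≤ l ^ (-(n+1))` by induction, so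
`‖(F γ) ^ l - 1‖ ≤ ε` (`norm_pow_l`). `‖F (γ γ') - 1‖ ≤ ε`. Finally `F α (F (γ γ')) ^ l = F β (F γ) ^ l`
(`F β = F α (F γ') ^ l`), so `‖F α - 1‖ ≤ ε`. All elements are nonzero because they are `≡ 1` modulo
`Q ≥ 2` (a unit congruent 0 is impossible: if `a = 0` then `Q ∣ 1` in `𝓞 K`, norm, contradiction). -/
theorem lip_of_ct (hl : ‖(l : Ω)‖ = (l : ℝ)⁻¹) {F : 𝓞 K → Ω} (hF : MulF F) {Q : ℕ} (hQ : 0 < Q)
    (hlQ : l ∣ Q) (hc : CtF Q F) : ∃ q : ℕ, 0 < q ∧ l ^ 2 ∣ q ∧ Q ∣ q ∧ LpF l q F := by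
  have hlp : l.Prime := Fact.out
  have hl2 : 2 ≤ l := hlp.two_le
  have hlQ' : l ≤ Q := Nat.le_of_dvd hQ hlQ
  have hlr : (0 : ℝ) < (l : ℝ)⁻¹ := by
    apply inv_pos.mpr
    exact_mod_cast (by omega : 0 < l)
  have hlr1 : (l : ℝ)⁻¹ < 1 := by
    apply inv_lt_one_of_one_lt₀
    exact_mod_cast (by omega : 1 < l)
  obtain ⟨j₁, hj₁⟩ := hc _ hlr
  have hq0 : 0 < Q ^ (j₁ + 2) := pow_pos hQ _
  have hQq : Q ∣ Q ^ (j₁ + 2) := dvd_pow_self _ (by omega)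
  have hlq : l ^ 2 ∣ Q ^ (j₁ + 2) := (pow_dvd_pow_of_dvd hlQ 2).trans (pow_dvd_pow Q (by omega))
  obtain ⟨a₀, Q₁, hQ₁, hQe⟩ := Nat.exists_eq_pow_mul_and_not_dvd (by omega : Q ≠ 0) l (by omega)
  have hcop : Nat.Coprime Q₁ l := ((Nat.Prime.coprime_iff_not_dvd hlp).mpr hQ₁).symm
  have hQ1 : 1 < Q := by omega
  refine ⟨Q ^ (j₁ + 2), hq0, hlq, hQq, ?_⟩
  have hQj : (Q : 𝓞 K) ^ j₁ ∣ ((Q ^ (j₁ + 2) : ℕ) : 𝓞 K) := by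
    push_cast
    exact pow_dvd_pow _ (by omega)
  have hQR : (Q : 𝓞 K) ∣ ((Q ^ (j₁ + 2) : ℕ) : 𝓞 K) := by
    push_cast
    exact dvd_pow_self _ (by omega)
  intro n
  induction n with
  | zero =>
    intro a ha
    rw [pow_zero, mul_one] at ha
    simpa using hj₁ a (hQj.trans ha)
  | succ n ih =>
    intro α hα
    have hε : (0 : ℝ) < ((l : ℝ)⁻¹) ^ (n + 1 + 1) := pow_pos hlr _
    obtain ⟨j, hj⟩ := hc _ hε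
    obtain ⟨γ, hγ1, hγ2⟩ := exists_root (R := 𝓞 K) (by omega : 1 < l) hlq n hα (a₀ * j)
    have hQγ : (Q : 𝓞 K) ∣ γ - 1 := hQR.trans ((Dvd.intro _ rfl).trans hγ1)
    obtain ⟨γ', hγ'1, hγ'2⟩ := exists_inv (Q : 𝓞 K) hQγ (j₁ + 2 + a₀ * j + j)
    have hα0 : α ≠ 0 := ne_zero_of_cong hQ1 (hQR.trans ((Dvd.intro _ rfl).trans hα))
    have hγ0 : γ ≠ 0 := ne_zero_of_cong hQ1 hQγ
    have hγ'0 : γ' ≠ 0 := ne_zero_of_cong hQ1 hγ'1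
    have hlQR : (l : 𝓞 K) ∣ (Q : 𝓞 K) := by
      obtain ⟨t, ht⟩ := hlQ
      exact ⟨(t : 𝓞 K), by rw [ht]; push_cast; ring⟩
    have hqJ : ((Q ^ (j₁ + 2) : ℕ) : 𝓞 K) * (l : 𝓞 K) ^ (a₀ * j) ∣
        (Q : 𝓞 K) ^ (j₁ + 2 + a₀ * j + j) := by
      push_cast
      rw [pow_add (Q : 𝓞 K) (j₁ + 2 + a₀ * j) j, pow_add (Q : 𝓞 K) (j₁ + 2) (a₀ * j)]
      exact (mul_dvd_mul_left _ (pow_dvd_pow_of_dvd hlQR _)).mul_right _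
    have hβ : ((Q ^ (j₁ + 2) : ℕ) : 𝓞 K) * (l : 𝓞 K) ^ (a₀ * j) ∣ α * γ' ^ l - 1 := by
      have e : α * γ' ^ l - 1 = -((γ ^ l - α) * γ' ^ l) + ((γ * γ') ^ l - 1) := by
        rw [mul_pow]; ring
      rw [e]
      refine dvd_add ((hγ2.mul_right _).neg_right) ?_
      have h1 : γ * γ' - 1 ∣ (γ * γ') ^ l - 1 := by
        simpa using sub_dvd_pow_sub_pow (γ * γ') 1 l
      exact hqJ.trans (hγ'2.trans h1)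
    have hβ0 : α * γ' ^ l ≠ 0 := mul_ne_zero hα0 (pow_ne_zero _ hγ'0)
    have hβ1 : ‖F (α * γ' ^ l) - 1‖ ≤ (l : ℝ)⁻¹ :=
      hj₁ _ (hQj.trans ((Dvd.intro _ rfl).trans hβ))
    have hβe : (Q : 𝓞 K) ^ j ∣ (α * γ' ^ l) ^ (Q₁ ^ j) - 1 := by
      have h1 : (l : 𝓞 K) ^ (a₀ * j) ∣ (α * γ' ^ l) ^ (Q₁ ^ j) - 1 := by
        have h2 : (α * γ' ^ l) - 1 ∣ (α * γ' ^ l) ^ (Q₁ ^ j) - 1 := by
          simpa using sub_dvd_pow_sub_pow (α * γ' ^ l) 1 (Q₁ ^ j)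
        exact (Dvd.intro_left _ rfl).trans (hβ.trans h2)
      have h3 : (Q₁ : 𝓞 K) ^ j ∣ (α * γ' ^ l) ^ (Q₁ ^ j) - 1 := by
        have h4 : (Q₁ : 𝓞 K) ∣ α * γ' ^ l - 1 := by
          have h5 : (Q₁ : 𝓞 K) ∣ (Q : 𝓞 K) := by
            rw [hQe]; push_cast; exact Dvd.intro_left _ rfl
          exact h5.trans (hQR.trans ((Dvd.intro _ rfl).trans hβ))
        exact (pow_dvd_pow _ (Nat.le_succ j)).trans (pow_pow_cong h4 j)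
      have h6 : IsCoprime ((l : 𝓞 K) ^ (a₀ * j)) ((Q₁ : 𝓞 K) ^ j) := by
        apply IsCoprime.pow
        have h7 : IsCoprime (l : ℤ) (Q₁ : ℤ) := Nat.isCoprime_iff_coprime.mpr hcop.symm
        simpa using h7.map (algebraMap ℤ (𝓞 K))
      have h8 := h6.mul_dvd h1 h3
      have h9 : (Q : 𝓞 K) ^ j = (l : 𝓞 K) ^ (a₀ * j) * (Q₁ : 𝓞 K) ^ j := by
        rw [pow_mul, ← mul_pow, hQe]
        push_cast
        rfl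
      rw [h9]
      exact h8
    have hβ2 : ‖F (α * γ' ^ l) - 1‖ ≤ ((l : ℝ)⁻¹) ^ (n + 1 + 1) := by
      have h1 := hj _ hβe
      rw [r3_pow hF hβ0, norm_pow_coprime hl (lt_of_le_of_lt hβ1 hlr1)
        (Nat.Coprime.pow_left j hcop)] at h1
      exact h1
    have hγ3 : ‖F γ ^ l - 1‖ ≤ ((l : ℝ)⁻¹) ^ (n + 1 + 1) := norm_pow_l hl (ih γ hγ1)
    have hγγ : ‖F (γ * γ') - 1‖ ≤ ((l : ℝ)⁻¹) ^ (n + 1 + 1) := by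
      apply hj
      exact (pow_dvd_pow _ (by omega)).trans hγ'2
    have hn0 : ‖F (γ * γ')‖ = 1 := hF.nrm _ (mul_ne_zero hγ0 hγ'0)
    have hz : ‖F (γ * γ') ^ l - 1‖ ≤ ((l : ℝ)⁻¹) ^ (n + 1 + 1) := r3_pow_near hε.le hn0 hγγ l
    have hy : ‖F (α * γ' ^ l) * F γ ^ l - 1‖ ≤ ((l : ℝ)⁻¹) ^ (n + 1 + 1) := by
      refine norm_mul_sub_one ?_ hβ2 hγ3
      rw [norm_pow, hF.nrm γ hγ0, one_pow]
    have hid : F α * F (γ * γ') ^ l = F (α * γ' ^ l) * F γ ^ l := by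
      rw [hF.mul _ _ hα0 (pow_ne_zero _ hγ'0), hF.mul _ _ hγ0 hγ'0, r3_pow hF hγ'0, mul_pow]
      ring
    have e1 : ‖F α - 1‖ = ‖(F (α * γ' ^ l) * F γ ^ l - 1) - (F (γ * γ') ^ l - 1)‖ := by
      rw [← hid]
      have e2 : F α * F (γ * γ') ^ l - 1 - (F (γ * γ') ^ l - 1) =
          (F α - 1) * F (γ * γ') ^ l := by ring
      rw [e2, norm_mul, norm_pow, hn0, one_pow, mul_one]
    rw [e1, sub_eq_add_neg]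
    refine (IsUltrametricDist.norm_add_le_max _ _).trans (max_le hy ?_)
    rw [norm_neg]
    exact hz

end Pool.Agent.Lib.H84L
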