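import Pool.Agent.Lib.H84L.S0

/-! # H84L chunk S1: `Bd` through embeddings of a finite extension of `ℚ` -/

set_option autoImplicit false

namespace Pool.Agent.Lib.H84L

open Polynomial

variable {Ω : Type} [Field Ω] [CharZero Ω]

/-- PROOF. Let `g = minpoly ℤ (y : Ω)`. `ℤ` is integrally closed, so `g.map (algebraMap ℤ ℚ) = minpoly ℚ (y : Ω)
= minpoly ℚ y` (`minpoly.isIntegrallyClosed_eq_field_fractions'`, `IntermediateField.minpoly_eq` or
`minpoly.algebraMap_eq`). Degree: `minpoly.natDegree_le`. A complex root `z` of `g` is a root of `minpoly ℚ y`, so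
`z = φ y` for some `φ : E →ₐ[ℚ] ℂ` (`Algebra.IsAlgebraic.range_eval_eq_rootSet_minpoly`). -/
theorem Bd.of_field (E : IntermediateField ℚ Ω) [FiniteDimensional ℚ E] {B : ℕ} {Q : ℝ} (hE : Module.finrank ℚ E ≤ B)
    (y : E) (hy : IsIntegral ℤ (y : Ω)) (h : ∀ φ : E →ₐ[ℚ] ℂ, ‖φ y‖ ≤ Q) : Bd B Q (y : Ω) := by
  have hmap : (minpoly ℤ (y : Ω)).map (algebraMap ℤ ℚ) = minpoly ℚ y := by
    rw [← minpoly.isIntegrallyClosed_eq_field_fractions' ℚ hy]
    exact minpoly.algebraMap_eq (algebraMap E Ω).injective y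
  refine ⟨hy, ?_, ?_⟩
  · have h1 : (minpoly ℤ (y : Ω)).natDegree = (minpoly ℚ y).natDegree := by
      rw [← hmap]
      exact ((minpoly.monic hy).natDegree_map _).symm
    rw [h1]
    exact (minpoly.natDegree_le y).trans hE
  · intro z hz
    have h2 : aeval z (minpoly ℚ y) = 0 := by
      rw [← hmap, aeval_map_algebraMap]
      exact hz
    have h3 : z ∈ (minpoly ℚ y).rootSet ℂ := by
      rw [mem_rootSet]
      exact ⟨minpoly.ne_zero (Algebra.IsIntegral.isIntegral y), h2⟩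
    rw [← Algebra.IsAlgebraic.range_eval_eq_rootSet_minpoly (F := ℚ) (K := E) ℂ y] at h3
    obtain ⟨φ, hφ⟩ := h3
    rw [← hφ]
    exact h φ

/-- PROOF. `φ y` is a root of `minpoly ℤ (y : Ω)`: `aeval y (minpoly ℤ (y : Ω)) = 0` holds in `E` (the inclusion
`E → Ω` is injective), apply `φ`. -/
theorem Bd.norm_le {E : IntermediateField ℚ Ω} {B : ℕ} {Q : ℝ} {y : E} (h : Bd B Q (y : Ω)) (φ : E →ₐ[ℚ] ℂ) :
    ‖φ y‖ ≤ Q := by
  apply h.2.2
  have h1 : aeval y (minpoly ℤ (y : Ω)) = 0 := by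
    have h2 : (algebraMap E Ω) (aeval y (minpoly ℤ (y : Ω))) = 0 := by
      rw [← aeval_algebraMap_apply]
      exact minpoly.aeval ℤ (y : Ω)
    exact (map_eq_zero_iff _ (algebraMap E Ω).injective).mp h2
  have h3 : aeval (φ y) (minpoly ℤ (y : Ω)) = φ (aeval y (minpoly ℤ (y : Ω))) := by
    exact aeval_algHom_apply (φ.restrictScalars ℤ) y (minpoly ℤ (y : Ω))
  rw [h3, h1, map_zero]

/-- PROOF. `minpoly ℤ w` divides `g` (`minpoly.isIntegrallyClosed_dvd`), `g ≠ 0`: the degree is at most that of `g` and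
the roots are roots of `g`. -/
theorem Bd.of_monic {B : ℕ} {Q : ℝ} {w : Ω} {g : ℤ[X]} (hg : g.Monic) (hd : g.natDegree ≤ B) (h0 : aeval w g = 0)
    (hr : ∀ z : ℂ, aeval z g = 0 → ‖z‖ ≤ Q) : Bd B Q w := by
  have hw : IsIntegral ℤ w := ⟨g, hg, h0⟩
  have hdv : minpoly ℤ w ∣ g := minpoly.isIntegrallyClosed_dvd hw h0
  refine ⟨hw, (natDegree_le_of_dvd hdv hg.ne_zero).trans hd, ?_⟩
  intro z hz
  apply hr
  obtain ⟨t, ht⟩ := hdv
  rw [ht, map_mul, hz, zero_mul]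

/-- PROOF. `Bd.of_monic` with `g = X - n`. -/
theorem Bd.natCast (n : ℕ) : Bd 1 (n : ℝ) (n : Ω) := by
  refine Bd.of_monic (g := X - C (n : ℤ)) (monic_X_sub_C _) (natDegree_X_sub_C _).le ?_ ?_
  · simp
  · intro z hz
    have : z = (n : ℂ) := by
      have h1 : aeval z (X - C (n : ℤ)) = z - (n : ℂ) := by simp
      rw [h1] at hz
      exact sub_eq_zero.mp hz
    rw [this]
    simp

end Pool.Agent.Lib.H84L
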