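import Pool.Agent.Lib.H84L.S0

/-! # H84L chunk S3: powers of an algebraic integer in terms of a power basis, with bounds -/

set_option autoImplicit false

namespace Pool.Agent.Lib.H84L

open Polynomial

variable {Ω : Type} [Field Ω] [CharZero Ω]

/-- PROOF. `minpoly ℤ w` is monic, its complex roots have absolute value at most `Q`, `n = natDegree ≤ B`, `1 ≤ Q`: `|coeff i| ≤ Q ^ (n - i) C(n,i)
≤ Q ^ n 2 ^ n ≤ (2 Q) ^ B` (`Polynomial.coeff_le_of_roots_le`). -/
theorem coeff_bound {B : ℕ} {Q : ℝ} (hQ : 1 ≤ Q) {w : Ω} (h : Bd B Q w) (i : ℕ) :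
    |((minpoly ℤ w).coeff i : ℝ)| ≤ (2 * Q) ^ B := by
  obtain ⟨hint, hdeg, hroots⟩ := h
  set g := minpoly ℤ w with hg
  have hmon : g.Monic := minpoly.monic hint
  have hm : (g.map (algebraMap ℤ ℂ)).Monic := hmon.map _
  have h2 := coeff_le_of_roots_le (F := ℂ) (K := ℂ) (f := RingHom.id ℂ) (B := Q) i hm (IsAlgClosed.splits _) (by
    intro z hz
    rw [Polynomial.map_id, mem_roots hm.ne_zero, IsRoot.def, eval_map_algebraMap] at hz
    exact hroots z hz)
  rw [Polynomial.map_id, coeff_map, hmon.natDegree_map] at h2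
  have h3 : ‖(algebraMap ℤ ℂ) (g.coeff i)‖ = |((g.coeff i : ℤ) : ℝ)| := by
    rw [eq_intCast, Complex.norm_intCast]
  rw [h3] at h2
  refine h2.trans ?_
  have h4 : ((g.natDegree.choose i : ℕ) : ℝ) ≤ 2 ^ g.natDegree := by
    exact_mod_cast Nat.choose_le_two_pow _ _
  calc Q ^ (g.natDegree - i) * (g.natDegree.choose i : ℝ) ≤ Q ^ g.natDegree * 2 ^ g.natDegree := by
        refine mul_le_mul (pow_le_pow_right₀ hQ (Nat.sub_le _ _)) h4 (by positivity) (by positivity)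
    _ = (2 * Q) ^ g.natDegree := by rw [mul_pow, mul_comm]
    _ ≤ (2 * Q) ^ B := pow_le_pow_right₀ (by linarith) hdeg

/-- Vectors indexed by the natural numbers below the degree. -/
theorem s3_nat {B : ℕ} {Q : ℝ} (hQ : 1 ≤ Q) {w : Ω} (h : Bd B Q w) (b : ℕ) :
    ∃ ρ : ℕ → ℤ, w ^ b = ∑ i ∈ Finset.range (minpoly ℤ w).natDegree, (ρ i : Ω) * w ^ i ∧
      ∀ i, |(ρ i : ℝ)| ≤ (1 + (2 * Q) ^ B) ^ b := by
  have hint := h.1
  set g := minpoly ℤ w with hg
  have hmon : g.Monic := minpoly.monic hint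
  have hpos : 0 < g.natDegree := minpoly.natDegree_pos hint
  have hrel : w ^ g.natDegree = -∑ i ∈ Finset.range g.natDegree, (g.coeff i : Ω) * w ^ i := by
    have h3 : aeval w g = 0 := minpoly.aeval ℤ w
    rw [aeval_eq_sum_range, Finset.sum_range_succ, hmon.coeff_natDegree, one_smul] at h3
    rw [eq_neg_iff_add_eq_zero, add_comm, ← h3]
    simp
  have hcb : ∀ i, |(g.coeff i : ℝ)| ≤ (2 * Q) ^ B := fun i => coeff_bound hQ h i
  have hR : 0 ≤ (2 * Q) ^ B := by positivity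
  induction b with
  | zero =>
    refine ⟨fun i => if i = 0 then 1 else 0, ?_, fun i => ?_⟩
    · rw [pow_zero, Finset.sum_eq_single 0]
      · simp
      · intro i _ hi
        simp [hi]
      · intro h0
        exact absurd (Finset.mem_range.2 hpos) h0
    · rw [pow_zero]
      show |((if i = 0 then 1 else 0 : ℤ) : ℝ)| ≤ 1
      split_ifs <;> simp
  | succ b ih =>
    obtain ⟨ρ, h1, h2⟩ := ih
    obtain ⟨m, hm⟩ : ∃ m, g.natDegree = m + 1 := ⟨g.natDegree - 1, by omega⟩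
    refine ⟨fun i => (if i = 0 then 0 else ρ (i - 1)) - ρ m * g.coeff i, ?_, fun i => ?_⟩
    · have e1 : w ^ (b + 1) = ∑ i ∈ Finset.range m, (ρ i : Ω) * w ^ (i + 1) + (ρ m : Ω) * w ^ (m + 1) := by
        rw [pow_succ, h1, hm, Finset.sum_mul, Finset.sum_range_succ]
        congr 1
        · refine Finset.sum_congr rfl fun i _ => by ring
        · ring
      rw [e1]
      have e2 : (ρ m : Ω) * w ^ (m + 1) = -∑ i ∈ Finset.range (m + 1), ((ρ m * g.coeff i : ℤ) : Ω) * w ^ i := by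
        rw [← hm, hrel, mul_neg, Finset.mul_sum]
        congr 1
        refine Finset.sum_congr rfl fun i _ => by push_cast; ring
      have e3 : ∑ i ∈ Finset.range m, (ρ i : Ω) * w ^ (i + 1) =
          ∑ i ∈ Finset.range (m + 1), ((if i = 0 then 0 else ρ (i - 1) : ℤ) : Ω) * w ^ i := by
        rw [Finset.sum_range_succ']
        simp
      rw [e2, e3, hm, ← sub_eq_add_neg, ← Finset.sum_sub_distrib]
      refine Finset.sum_congr rfl fun i _ => ?_
      push_cast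
      ring
    · have e1 : |((if i = 0 then 0 else ρ (i - 1) : ℤ) : ℝ)| ≤ (1 + (2 * Q) ^ B) ^ b := by
        split_ifs
        · rw [Int.cast_zero, abs_zero]
          positivity
        · exact h2 _
      have e2 : |(ρ m * g.coeff i : ℝ)| ≤ (1 + (2 * Q) ^ B) ^ b * (2 * Q) ^ B := by
        rw [abs_mul]
        exact mul_le_mul (h2 m) (hcb i) (abs_nonneg _) (by positivity)
      calc |(((if i = 0 then 0 else ρ (i - 1)) - ρ m * g.coeff i : ℤ) : ℝ)|
          = |((if i = 0 then 0 else ρ (i - 1) : ℤ) : ℝ) - (ρ m * g.coeff i : ℝ)| := by push_cast; rfl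
        _ ≤ |((if i = 0 then 0 else ρ (i - 1) : ℤ) : ℝ)| + |(ρ m * g.coeff i : ℝ)| := abs_sub _ _
        _ ≤ (1 + (2 * Q) ^ B) ^ b + (1 + (2 * Q) ^ B) ^ b * (2 * Q) ^ B := add_le_add e1 e2
        _ = (1 + (2 * Q) ^ B) ^ (b + 1) := by ring

/-- PROOF. `n := natDegree (minpoly ℤ w)`, `1 ≤ n ≤ B`; `ρ i = 0` for `i ≥ n`. Induction on `b`: `b = 0`: `ρ = (1, 0, ..)`.
Step: `w ^ (b+1) = ∑ i < n, ρ i w ^ (i+1)` and `w ^ n = - ∑ i < n, c i w ^ i` (`c i` the coefficients of `minpoly ℤ w`), so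
`ρ' i = ρ (i-1) - ρ (n-1) c i`, `|ρ' i| ≤ (1 + (2Q) ^ B) * (1 + (2Q) ^ B) ^ b` by `coeff_bound`. -/
theorem pow_expand {B : ℕ} {Q : ℝ} (hQ : 1 ≤ Q) {w : Ω} (h : Bd B Q w) (b : ℕ) :
    ∃ ρ : Fin B → ℤ, w ^ b = ∑ i : Fin B, (ρ i : Ω) * w ^ (i : ℕ) ∧ ∀ i, |(ρ i : ℝ)| ≤ (1 + (2 * Q) ^ B) ^ b := by
  obtain ⟨ρ, h1, h2⟩ := s3_nat hQ h b
  refine ⟨fun i => if (i : ℕ) < (minpoly ℤ w).natDegree then ρ i else 0, ?_, fun i => ?_⟩
  · rw [h1, Fin.sum_univ_eq_sum_range (fun i => (((if i < (minpoly ℤ w).natDegree then ρ i else 0 : ℤ)) : Ω) * w ^ i) B]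
    have hsub : Finset.range (minpoly ℤ w).natDegree ⊆ Finset.range B := Finset.range_subset_range.2 h.2.1
    rw [← Finset.sum_subset hsub]
    · refine Finset.sum_congr rfl fun i hi => ?_
      rw [if_pos (Finset.mem_range.1 hi)]
    · intro i _ hi
      rw [if_neg (fun h' => hi (Finset.mem_range.2 h')), Int.cast_zero, zero_mul]
  · show |(((if (i : ℕ) < (minpoly ℤ w).natDegree then ρ i else 0 : ℤ)) : ℝ)| ≤ _
    split_ifs
    · exact h2 i
    · rw [Int.cast_zero, abs_zero]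
      positivity

end Pool.Agent.Lib.H84L
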