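import Pool.Agent.Lib.H84L.W0
import Pool.Agent.Lib.CFT.B05

/-! # H84L chunk W1: the number of prime divisors is small -/

set_option autoImplicit false

namespace Pool.Agent.Lib.H84L

open NumberField CFT

theorem w1_fin (K : Type) [Field K] [NumberField K] (P : ℕ) : {v : Pr K | Nm v < P}.Finite := by
  have h1 := Ideal.finite_setOfPred_absNorm_le (S := 𝓞 K) P
  refine Set.Finite.of_finite_image (f := fun v : Pr K => v.asIdeal) (h1.subset ?_) ?_
  · rintro _ ⟨v, hv, rfl⟩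
    have h2 : Nm v < P := hv
    exact h2.le
  · intro v _ w _ h
    exact IsDedekindDomain.HeightOneSpectrum.ext h

/-- PROOF. `B = 0, 1`: the left side is at most 1 and the norm is at least 1. Let `P = B ^ h ≥ 1`. The primes `v` with `Nm v < P` form a finite set
(`Ideal.finite_setOf_absNorm_le`) with `n₀` elements. `(B ^ om a) ^ h = P ^ om a ≤ P ^ n₀ * ∏ (v in the support, Nm v ≥ P) Nm v ≤ P ^ n₀ * nD (dv a)`, because the orders
of `a` at the primes of the support are at least 1 (`od_nonneg`), and `nD (dv a) = |norm a|` (`nD_dv`, `Algebra.norm ℚ (a : K) = Algebra.norm ℤ a`: `Algebra.coe_norm_int`). `A = P ^ n₀`. -/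
theorem om_bound (K : Type) [Field K] [NumberField K] (B h : ℕ) : ∃ A : ℕ, ∀ a : 𝓞 K, a ≠ 0 →
    (B ^ om a) ^ h ≤ A * (Algebra.norm ℤ a).natAbs := by
  classical
  rcases Nat.lt_or_ge B 1 with hB | hB
  · refine ⟨1, fun a ha => ?_⟩
    have hB0 : B = 0 := by omega
    have h1 : 1 ≤ (Algebra.norm ℤ a).natAbs := by
      rw [Nat.one_le_iff_ne_zero, Int.natAbs_ne_zero]
      exact Algebra.norm_ne_zero_iff.2 ha
    have h2 : B ^ om a ≤ 1 := by
      rw [hB0]
      exact pow_le_one₀ (le_refl 0) zero_le_one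
    calc (B ^ om a) ^ h ≤ 1 := pow_le_one₀ (Nat.zero_le _) h2
      _ ≤ 1 * (Algebra.norm ℤ a).natAbs := by omega
  obtain ⟨P, hP⟩ : ∃ P : ℕ, P = B ^ h := ⟨_, rfl⟩
  have hP1 : 1 ≤ P := by
    rw [hP]
    exact Nat.one_le_pow _ _ hB
  obtain ⟨E, hE⟩ : ∃ E : Finset (Pr K), ∀ v, v ∈ E ↔ Nm v < P :=
    ⟨(w1_fin K P).toFinset, fun v => by rw [Set.Finite.mem_toFinset]; rfl⟩
  refine ⟨P ^ E.card, fun a ha => ?_⟩
  have ha' : (a : K) ≠ 0 := fun h => ha (RingOfIntegers.coe_eq_zero_iff.1 h)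
  have h1 : ((Algebra.norm ℤ a).natAbs : ℚ) = nD (dv (a : K)) := by
    rw [nD_dv ha', ← Algebra.coe_norm_int, Nat.cast_natAbs, Int.cast_abs]
  have h2 : (((B ^ om a) ^ h : ℕ) : ℚ) = ∏ v ∈ (dv (a : K)).support, (P : ℚ) := by
    rw [Finset.prod_const, hP]
    unfold om
    push_cast
    rw [← pow_mul, ← pow_mul, mul_comm]
  have h3 : ∏ v ∈ (dv (a : K)).support, (P : ℚ) ≤
      (∏ v ∈ (dv (a : K)).support, if v ∈ E then (P : ℚ) else 1) * nD (dv (a : K)) := by
    unfold nD Finsupp.prod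
    rw [← Finset.prod_mul_distrib]
    refine Finset.prod_le_prod (fun v _ => by positivity) fun v hv => ?_
    have h4 : 1 ≤ (dv (a : K)) v := by
      have h5 : 0 ≤ (dv (a : K)) v := od_nonneg v a
      have h6 : (dv (a : K)) v ≠ 0 := Finsupp.mem_support_iff.1 hv
      omega
    have h7 : (1 : ℚ) ≤ Nm v := by exact_mod_cast Nm_pos v
    have h8 : (Nm v : ℚ) ≤ (Nm v : ℚ) ^ ((dv (a : K)) v) := by
      calc (Nm v : ℚ) = (Nm v : ℚ) ^ (1 : ℤ) := (zpow_one _).symm
        _ ≤ (Nm v : ℚ) ^ ((dv (a : K)) v) := zpow_le_zpow_right₀ h7 h4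
    have hP1' : (1 : ℚ) ≤ P := by exact_mod_cast hP1
    by_cases hvE : v ∈ E
    · rw [if_pos hvE]
      calc (P : ℚ) = P * 1 := (mul_one _).symm
        _ ≤ P * (Nm v : ℚ) ^ ((dv (a : K)) v) :=
          mul_le_mul_of_nonneg_left (h7.trans h8) (by linarith)
    · rw [if_neg hvE, one_mul]
      have h9 : P ≤ Nm v := by
        rw [hE] at hvE
        omega
      exact (by exact_mod_cast h9 : (P : ℚ) ≤ Nm v).trans h8
  have h4 : (∏ v ∈ (dv (a : K)).support, if v ∈ E then (P : ℚ) else 1) ≤ (P : ℚ) ^ E.card := by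
    have hP1' : (1 : ℚ) ≤ P := by exact_mod_cast hP1
    rw [Finset.prod_ite_mem, Finset.prod_const]
    exact pow_le_pow_right₀ hP1' (Finset.card_le_card Finset.inter_subset_right)
  have h5 : 0 ≤ nD (dv (a : K)) := by
    rw [← h1]
    positivity
  have h6 : (((B ^ om a) ^ h : ℕ) : ℚ) ≤ ((P ^ E.card * (Algebra.norm ℤ a).natAbs : ℕ) : ℚ) := by
    rw [h2, Nat.cast_mul, h1, Nat.cast_pow]
    exact h3.trans (mul_le_mul_of_nonneg_right h4 h5)
  exact_mod_cast h6

end Pool.Agent.Lib.H84L
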