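import Pool.Agent.Lib.H84L.R2

/-! # H84L chunk Z0: elements near 1 in an ultrametric field -/

set_option autoImplicit false

namespace Pool.Agent.Lib.H84L

variable {Ω : Type} [NormedField Ω] [IsUltrametricDist Ω]

theorem z0_norm {x : Ω} (hx : ‖x - 1‖ < 1) : ‖x‖ = 1 := by
  have e1 : x = (x - 1) + 1 := by ring
  rw [e1, IsUltrametricDist.norm_add_eq_max_of_norm_ne_norm (by rw [norm_one]; exact hx.ne), norm_one, max_eq_right hx.le]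

theorem z0_pow {ε : ℝ} (hε0 : 0 ≤ ε) (hε : ε < 1) {x : Ω} (hx : ‖x - 1‖ ≤ ε) (n : ℕ) : ‖x ^ n - 1‖ ≤ ε := by
  induction n with
  | zero => simpa using hε0
  | succ n ih =>
    rw [pow_succ]
    exact norm_mul_sub_one (z0_norm (hx.trans_lt hε)) ih hx

theorem z0_inv {ε : ℝ} (hε : ε < 1) {x : Ω} (hx : ‖x - 1‖ ≤ ε) : ‖x⁻¹ - 1‖ ≤ ε := by
  have h1 := z0_norm (hx.trans_lt hε)
  have h0 : x ≠ 0 := by
    intro h
    rw [h, norm_zero] at h1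
    exact zero_ne_one h1
  have e : x⁻¹ - 1 = -((x - 1) * x⁻¹) := by
    field_simp
    ring
  rw [e, norm_neg, norm_mul, norm_inv, h1, inv_one, mul_one]
  exact hx

/-- PROOF. `‖x‖ = 1` (`ε < 1`); `x⁻¹ - 1 = (1 - x) x⁻¹`; positive powers by `x y - 1 = (x - 1) y + (y - 1)`. -/
theorem near_zpow {ε : ℝ} (hε0 : 0 ≤ ε) (hε : ε < 1) {x : Ω} (hx : ‖x - 1‖ ≤ ε) (n : ℤ) : ‖x ^ n - 1‖ ≤ ε := by
  obtain ⟨m, rfl | rfl⟩ := n.eq_nat_or_neg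
  · rw [zpow_natCast]
    exact z0_pow hε0 hε hx m
  · rw [zpow_neg, zpow_natCast]
    exact z0_inv hε (z0_pow hε0 hε hx m)

theorem near_prod {ε : ℝ} (hε0 : 0 ≤ ε) (hε : ε < 1) {ι : Type} (s : Finset ι) (f : ι → Ω) (hf : ∀ i ∈ s, ‖f i - 1‖ ≤ ε) :
    ‖∏ i ∈ s, f i - 1‖ ≤ ε := by
  classical
  induction s using Finset.induction_on with
  | empty => simpa using hε0
  | insert a s ha ih =>
    rw [Finset.prod_insert ha]
    have h1 := ih fun i hi => hf i (Finset.mem_insert_of_mem hi)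
    exact norm_mul_sub_one (z0_norm (h1.trans_lt hε)) (hf a (Finset.mem_insert_self a s)) h1

theorem z0_prime {l : ℕ} [Fact l.Prime] (hl : ‖(l : Ω)‖ = (l : ℝ)⁻¹) {p : ℕ} (hp : p.Prime) {ζ : Ω} (hζ : ζ ^ p = 1)
    (h : ‖ζ - 1‖ ≤ ((l : ℝ)⁻¹) ^ 2) : ζ = 1 := by
  have hlp : l.Prime := Fact.out
  have hl2 : 2 ≤ l := hlp.two_le
  have hl0 : (0 : ℝ) < (l : ℝ)⁻¹ := inv_pos.2 (by exact_mod_cast hlp.pos)
  have hl1 : (l : ℝ)⁻¹ < 1 := inv_lt_one_of_one_lt₀ (by exact_mod_cast hlp.one_lt)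
  have h1 : ‖ζ - 1‖ < 1 := h.trans_lt (pow_lt_one₀ hl0.le hl1 (by norm_num))
  by_cases hpl : p = l
  · subst hpl
    obtain ⟨t, rfl⟩ : ∃ t, ζ = t + 1 := ⟨ζ - 1, by ring⟩
    rw [add_sub_cancel_right] at h h1
    by_contra hne
    have ht0 : t ≠ 0 := fun h0 => hne (by rw [h0, zero_add])
    have ht : 0 < ‖t‖ := norm_pos_iff.2 ht0
    obtain ⟨k, hk⟩ : ∃ k, p = k + 2 := ⟨p - 2, by omega⟩
    have h2 := add_pow t 1 p
    rw [hζ, show p + 1 = (k + 1) + 1 + 1 by omega, Finset.sum_range_succ', Finset.sum_range_succ'] at h2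
    simp only [one_pow, mul_one, pow_zero, Nat.choose_zero_right, Nat.cast_one, zero_add, pow_one, Nat.choose_one_right] at h2
    have h3 : t * (p : Ω) = -∑ i ∈ Finset.range (k + 1), t ^ (i + 1 + 1) * ((p.choose (i + 1 + 1) : ℕ) : Ω) := by
      linear_combination -h2
    have h4 : ‖t * (p : Ω)‖ ≤ ((p : ℝ)⁻¹) ^ 2 * ‖t‖ := by
      rw [h3, norm_neg]
      refine IsUltrametricDist.norm_sum_le_of_forall_le_of_nonneg (by positivity) ?_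
      intro i hi
      rw [Finset.mem_range] at hi
      rw [norm_mul, norm_pow]
      have h5 : ‖t‖ ^ (i + 1 + 1) ≤ ‖t‖ * ‖t‖ := by
        have h6 : ‖t‖ ^ (i + 1 + 1) = ‖t‖ ^ i * (‖t‖ * ‖t‖) := by ring
        rw [h6]
        exact mul_le_of_le_one_left (by positivity) (pow_le_one₀ ht.le h1.le)
      have h7 : ‖((p.choose (i + 1 + 1) : ℕ) : Ω)‖ ≤ 1 := IsUltrametricDist.norm_natCast_le_one Ω _
      calc ‖t‖ ^ (i + 1 + 1) * ‖((p.choose (i + 1 + 1) : ℕ) : Ω)‖ ≤ ‖t‖ ^ (i + 1 + 1) * 1 := mul_le_mul_of_nonneg_left h7 (by positivity)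
        _ ≤ ‖t‖ * ‖t‖ := by rw [mul_one]; exact h5
        _ ≤ ((p : ℝ)⁻¹) ^ 2 * ‖t‖ := mul_le_mul_of_nonneg_right h ht.le
    rw [norm_mul, hl] at h4
    have h8 : (p : ℝ)⁻¹ ≤ ((p : ℝ)⁻¹) ^ 2 := by
      rw [mul_comm] at h4
      exact le_of_mul_le_mul_right h4 ht
    nlinarith
  · have h2 := norm_pow_coprime hl h1 (e := p) ((Nat.coprime_primes hp hlp).2 hpl)
    rw [hζ, sub_self, norm_zero] at h2
    exact sub_eq_zero.1 (norm_eq_zero.1 h2.symm)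

/-- A root of unity near 1 is 1. PROOF. Suppose `ζ ≠ 1`, `n` its order, `p` a prime dividing `n`, `ζ' = ζ ^ (n / p)`: order `p`, `‖ζ' - 1‖ ≤ l ^ (-2)` (`near_zpow`). If `p ≠ l`:
`0 = ‖ζ' ^ p - 1‖ = ‖ζ' - 1‖` (`norm_pow_coprime`), contradiction. If `p = l`: with `t = ζ' - 1 ≠ 0`: `0 = (1 + t) ^ l - 1 = t (l + ∑ i = 2 .. l, C(l,i) t ^ (i-1))`; the terms `2 ≤ i < l` have norm
at most `l⁻¹ ‖t‖ < l⁻¹`, the term `i = l` has norm `‖t‖ ^ (l-1) ≤ ‖t‖ ≤ l ^ (-2) < l⁻¹`, so the second factor has norm `l⁻¹ ≠ 0`, contradiction. -/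
theorem root_of_unity_near {l : ℕ} [Fact l.Prime] (hl : ‖(l : Ω)‖ = (l : ℝ)⁻¹) {ζ : Ω} {j : ℕ} (hj : 0 < j) (hζ : ζ ^ j = 1)
    (h : ‖ζ - 1‖ ≤ ((l : ℝ)⁻¹) ^ 2) : ζ = 1 := by
  have hlp : l.Prime := Fact.out
  have hl0 : (0 : ℝ) < (l : ℝ)⁻¹ := inv_pos.2 (by exact_mod_cast hlp.pos)
  have hl1 : (l : ℝ)⁻¹ < 1 := inv_lt_one_of_one_lt₀ (by exact_mod_cast hlp.one_lt)
  induction j using Nat.strong_induction_on with
  | _ j ih =>
    by_cases hj1 : j = 1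
    · rw [hj1, pow_one] at hζ
      exact hζ
    · obtain ⟨p, hp, j', rfl⟩ := Nat.exists_prime_and_dvd hj1
      have hj' : 0 < j' := Nat.pos_of_mul_pos_left hj
      refine ih j' ?_ hj' ?_
      · exact lt_mul_of_one_lt_left hj' hp.one_lt
      · refine z0_prime hl hp ?_ (z0_pow (by positivity) (pow_lt_one₀ hl0.le hl1 (by norm_num)) h j')
        rw [← pow_mul, mul_comm, hζ]

end Pool.Agent.Lib.H84L
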