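import Mathlib
import Pool.Agent.Lib.CFT.B01
import Pool.Agent.Lib.CFT.B02
import Pool.Agent.Lib.CFT.B03

/-! # H84L chunk Z1: elements congruent 1 modulo `q` as quotients of integers congruent 1 modulo `q` -/

set_option autoImplicit false

namespace Pool.Agent.Lib.H84L

open NumberField IsDedekindDomain CFT

theorem z1_fin {K : Type} [Field K] [NumberField K] {q : ℕ} (hq : 0 < q) : {v : Pr K | (q : 𝓞 K) ∈ v.asIdeal}.Finite := by
  have hq0 : (q : 𝓞 K) ≠ 0 := Nat.cast_ne_zero.2 hq.ne'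
  refine (fin_int (K := K) hq0).subset fun v hv => ?_
  have h1 : 0 < od v ((q : 𝓞 K) : K) := (od_pos_iff v hq0).2 hv
  show v.valuation K ((q : 𝓞 K) : K) ≠ 1
  intro h2
  have hqK : ((q : 𝓞 K) : K) ≠ 0 := fun h => hq0 (RingOfIntegers.coe_eq_zero_iff.1 h)
  rw [val_eq v hqK, ← WithZero.exp_zero, WithZero.exp_inj] at h2
  omega

theorem z1_lt {K : Type} [Field K] [NumberField K] {q : ℕ} (hq : 0 < q) (v : Pr K) (hv : (q : 𝓞 K) ∈ v.asIdeal) :
    v.valuation K (q : K) < 1 := by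
  have hq0 : (q : 𝓞 K) ≠ 0 := Nat.cast_ne_zero.2 hq.ne'
  have h1 : 0 < od v ((q : 𝓞 K) : K) := (od_pos_iff v hq0).2 hv
  have hqK : (q : K) ≠ 0 := Nat.cast_ne_zero.2 hq.ne'
  have e : ((q : 𝓞 K) : K) = (q : K) := map_natCast (algebraMap (𝓞 K) K) q
  rw [e] at h1
  rw [val_eq v hqK, ← WithZero.exp_zero, WithZero.exp_lt_exp]
  omega

/-- PROOF. The set `S'` of the primes `v` with `q ∈ v` is finite (`q ≠ 0`). For `v` in `S'`: `v (x - 1) ≤ v q < 1`, so `od v x = 0`. `frac_prime`: `x = r / s` with `s` in no `v` of `S'`, so `s` and `q` are coprime in `𝓞 K`: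
there is `s'` with `q ∣ s s' - 1`. Put `a = r s'`, `b = s s'`: `x = a / b`, `a - b = s' (r - s)`, and `q ∣ r - s = s (x - 1)`: at the primes of `S'` by hypothesis, at the others because `r - s` is integral
(`int_of_od` for `(r - s) / q`). If `x = 1` take `a = b = 1`. -/
theorem quot_near {K : Type} [Field K] [NumberField K] {q : ℕ} (hq : 0 < q) {x : K} (hx : x ≠ 0)
    (h : ∀ v : Pr K, (q : 𝓞 K) ∈ v.asIdeal → v.valuation K (x - 1) ≤ v.valuation K (q : K)) :
    ∃ a b : 𝓞 K, a ≠ 0 ∧ b ≠ 0 ∧ (q : 𝓞 K) ∣ a - 1 ∧ (q : 𝓞 K) ∣ b - 1 ∧ x = (a : K) / (b : K) := by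
  classical
  have hq0 : (q : 𝓞 K) ≠ 0 := Nat.cast_ne_zero.2 hq.ne'
  have hqK : (q : K) ≠ 0 := Nat.cast_ne_zero.2 hq.ne'
  set S' : Finset (Pr K) := (z1_fin (K := K) hq).toFinset with hS'
  have hmem : ∀ v : Pr K, v ∈ S' ↔ (q : 𝓞 K) ∈ v.asIdeal := by
    intro v
    rw [hS', Set.Finite.mem_toFinset]
    rfl
  have hval : ∀ v ∈ S', v.valuation K x = 1 := by
    intro v hv
    have h1 := (h v ((hmem v).1 hv)).trans_lt (z1_lt hq v ((hmem v).1 hv))
    have h2 : x = 1 + (x - 1) := by ring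
    rw [h2]
    exact Valuation.map_one_add_of_lt _ h1
  have hod : ∀ v ∈ S', 0 ≤ od v x := by
    intro v hv
    have h1 := hval v hv
    rw [val_eq v hx, ← WithZero.exp_zero, WithZero.exp_inj] at h1
    omega
  obtain ⟨r, s, hs, hxrs, hsS⟩ := frac_prime S' hod
  have hs' : (s : K) ≠ 0 := fun h => hs (RingOfIntegers.coe_eq_zero_iff.1 h)
  have hr : r ≠ 0 := by
    rintro rfl
    apply hx
    rw [hxrs]
    simp
  have hcop : IsCoprime s (q : 𝓞 K) := by
    rw [← Ideal.isCoprime_span_singleton_iff, Ideal.isCoprime_iff_sup_eq]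
    by_contra hne
    obtain ⟨P, hP, hle⟩ := Ideal.exists_le_maximal _ hne
    have hqP : (q : 𝓞 K) ∈ P := hle (Ideal.mem_sup_right (Ideal.mem_span_singleton_self _))
    have hsP : s ∈ P := hle (Ideal.mem_sup_left (Ideal.mem_span_singleton_self _))
    have hPb : P ≠ ⊥ := by
      rintro rfl
      exact hq0 hqP
    exact hsS ⟨P, hP.isPrime, hPb⟩ ((hmem _).2 hqP) hsP
  obtain ⟨s', t, hst⟩ := hcop
  have hrs : (q : 𝓞 K) ∣ r - s := by
    have h1 : ∀ v : Pr K, v.valuation K (((r - s : 𝓞 K) : K) / (q : K)) ≤ 1 := by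
      intro v
      have hqv : 0 < v.valuation K (q : K) := by
        rw [val_eq v hqK]
        exact WithZero.exp_pos
      rw [map_div₀, div_le_one₀ hqv]
      by_cases hv : (q : 𝓞 K) ∈ v.asIdeal
      · have e : ((r - s : 𝓞 K) : K) = (s : K) * (x - 1) := by
          have e1 : ((r - s : 𝓞 K) : K) = (r : K) - (s : K) := map_sub (algebraMap (𝓞 K) K) r s
          rw [e1, hxrs]
          field_simp
        rw [e, map_mul]
        calc v.valuation K (s : K) * v.valuation K (x - 1) ≤ 1 * v.valuation K (q : K) :=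
              mul_le_mul' (v.valuation_le_one s) (h v hv)
          _ = _ := one_mul _
      · have h2 : v.valuation K (q : K) = 1 := by
          have h3 : ¬ 0 < od v ((q : 𝓞 K) : K) := fun h => hv ((od_pos_iff v hq0).1 h)
          have h4 := od_nonneg v (q : 𝓞 K)
          have e : ((q : 𝓞 K) : K) = (q : K) := map_natCast (algebraMap (𝓞 K) K) q
          rw [e] at h3 h4
          rw [val_eq v hqK]
          have h5 : od v (q : K) = 0 := by omega
          rw [h5, neg_zero, WithZero.exp_zero]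
        rw [h2]
        exact v.valuation_le_one (r - s)
    obtain ⟨u, hu⟩ := HeightOneSpectrum.mem_integers_of_valuation_le_one (R := 𝓞 K) K _ h1
    refine ⟨u, ?_⟩
    apply RingOfIntegers.coe_injective
    show algebraMap (𝓞 K) K (r - s) = algebraMap (𝓞 K) K ((q : 𝓞 K) * u)
    rw [map_mul, hu, map_natCast]
    field_simp
  rcases Nat.lt_or_ge 1 q with hq1 | hq1
  · have hb1 : (q : 𝓞 K) ∣ s * s' - 1 := ⟨-t, by linear_combination hst⟩
    have hs0 : s' ≠ 0 := by
      rintro rfl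
      rw [mul_zero, zero_sub, dvd_neg] at hb1
      have hunit : IsUnit (q : 𝓞 K) := isUnit_of_dvd_one hb1
      have h2 : IsUnit (Algebra.norm ℤ (q : 𝓞 K)) := hunit.map _
      have h3 : Algebra.norm ℤ (q : 𝓞 K) = (q : ℤ) ^ Module.finrank ℤ (𝓞 K) := by
        have := Algebra.norm_algebraMap (R := ℤ) (S := 𝓞 K) (q : ℤ)
        simpa using this
      rw [h3, isUnit_pow_iff (Module.finrank_pos (R := ℤ) (M := 𝓞 K)).ne', Int.isUnit_iff] at h2
      omega
    refine ⟨r * s', s * s', mul_ne_zero hr hs0, mul_ne_zero hs hs0, ?_, hb1, ?_⟩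
    · have e : r * s' - 1 = s' * (r - s) + (s * s' - 1) := by ring
      rw [e]
      exact dvd_add (hrs.mul_left _) hb1
    · have hs0' : (s' : K) ≠ 0 := fun h => hs0 (RingOfIntegers.coe_eq_zero_iff.1 h)
      have e1 : ((r * s' : 𝓞 K) : K) = (r : K) * (s' : K) := map_mul (algebraMap (𝓞 K) K) r s'
      have e2 : ((s * s' : 𝓞 K) : K) = (s : K) * (s' : K) := map_mul (algebraMap (𝓞 K) K) s s'
      rw [e1, e2, hxrs, mul_div_mul_right _ _ hs0']
  · have hq2 : q = 1 := by omega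
    subst hq2
    refine ⟨r, s, hr, hs, ?_, ?_, hxrs⟩
    · rw [Nat.cast_one]
      exact one_dvd _
    · rw [Nat.cast_one]
      exact one_dvd _

/-- PROOF. A finite set of primes, each `v.valuation K (q : K)` is `exp (-n)` with `n ≥ 0` (`val_eq`, `od_nonneg`). -/
theorem exists_level {K : Type} [Field K] [NumberField K] {q : ℕ} (hq : 0 < q) (S : Finset (Pr K)) :
    ∃ N : ℕ, ∀ v ∈ S, WithZero.exp (-(N : ℤ)) ≤ v.valuation K (q : K) := by
  have hqK : (q : K) ≠ 0 := Nat.cast_ne_zero.2 hq.ne'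
  refine ⟨∑ v ∈ S, (od v (q : K)).toNat, fun v hv => ?_⟩
  rw [val_eq v hqK, WithZero.exp_le_exp]
  have h1 : (od v (q : K)).toNat ≤ ∑ v ∈ S, (od v (q : K)).toNat :=
    Finset.single_le_sum (f := fun v : Pr K => (od v (q : K)).toNat) (fun _ _ => Nat.zero_le _) hv
  have h2 := Int.self_le_toNat (od v (q : K))
  omega

end Pool.Agent.Lib.H84L
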