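import Pool.Agent.Lib.H84L.Z0
import Pool.Agent.Lib.H84L.Z1
import Pool.Agent.Lib.H84L.W4

/-! # H84L chunk Z2: embeddings of elements near 1 at the primes above `l` -/

set_option autoImplicit false

namespace Pool.Agent.Lib.H84L

open NumberField IsDedekindDomain CFT

/-- PROOF. Choose `j` with `l ^ (-j) ≤ ε`, `l ^ (-j) < 1`, and `N` from `exists_level` for `q = l ^ j` and `S`. If `Ray S N y` then the hypothesis of `quot_near` holds for `q = l ^ j`: a prime `v` with `l ^ j ∈ v` contains `l`, so it is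
in `S`. So `y = a / b`, `a = 1 + l ^ j a'`, `‖τ a - 1‖ ≤ l ^ (-j)` (`norm_emb_le`), the same for `b`; `τ y = τ a (τ b)⁻¹`, `near_zpow`. -/
theorem emb_near {K : Type} [Field K] [NumberField K] {Ω : Type} [NormedField Ω] [IsUltrametricDist Ω] [CharZero Ω]
    {l : ℕ} [Fact l.Prime] (hl : ‖(l : Ω)‖ = (l : ℝ)⁻¹) (S : Finset (Pr K)) (hSl : ∀ v : Pr K, (l : 𝓞 K) ∈ v.asIdeal → v ∈ S)
    {ε : ℝ} (hε : 0 < ε) : ∃ N : ℕ, ∀ y : K, Ray S N y → ∀ τ : K →+* Ω, ‖τ y - 1‖ ≤ ε := by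
  have hlp : l.Prime := Fact.out
  have hl0 : (0 : ℝ) < (l : ℝ)⁻¹ := inv_pos.2 (by exact_mod_cast hlp.pos)
  have hl1 : (l : ℝ)⁻¹ < 1 := inv_lt_one_of_one_lt₀ (by exact_mod_cast hlp.one_lt)
  obtain ⟨j, hj⟩ := exists_pow_lt_of_lt_one (show (0 : ℝ) < min ε 1 from lt_min hε one_pos) hl1
  have hj1 : ((l : ℝ)⁻¹) ^ j < 1 := hj.trans_le (min_le_right _ _)
  have hjε : ((l : ℝ)⁻¹) ^ j ≤ ε := hj.le.trans (min_le_left _ _)
  obtain ⟨N, hN⟩ := exists_level (K := K) (q := l ^ j) (pow_pos hlp.pos j) S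
  refine ⟨N, fun y hy τ => ?_⟩
  have hv : ∀ v : Pr K, ((l ^ j : ℕ) : 𝓞 K) ∈ v.asIdeal → v.valuation K (y - 1) ≤ v.valuation K ((l ^ j : ℕ) : K) := by
    intro v hv
    have h1 : (l : 𝓞 K) ∈ v.asIdeal := by
      rw [Nat.cast_pow] at hv
      exact v.isPrime.mem_of_pow_mem _ hv
    exact (hy.cong v (hSl v h1)).le.trans (hN v (hSl v h1))
  obtain ⟨a, b, ha0, hb0, ha, hb, hab⟩ := quot_near (pow_pos hlp.pos j) hy.ne hv
  have near : ∀ c : 𝓞 K, ((l ^ j : ℕ) : 𝓞 K) ∣ c - 1 → ‖τ (c : K) - 1‖ ≤ ((l : ℝ)⁻¹) ^ j := by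
    rintro c ⟨d, hd⟩
    have h1 : τ (c : K) - 1 = (l : Ω) ^ j * τ (d : K) := by
      have h2 : ((c - 1 : 𝓞 K) : K) = (((l ^ j : ℕ) : 𝓞 K) * d : 𝓞 K) := congrArg _ hd
      have h3 : (c : K) - 1 = (l : K) ^ j * (d : K) := by
        have h4 : ((c - 1 : 𝓞 K) : K) = (c : K) - 1 := (map_sub (algebraMap (𝓞 K) K) c 1).trans (by rw [map_one])
        have h5 : ((((l ^ j : ℕ) : 𝓞 K) * d : 𝓞 K) : K) = (l : K) ^ j * (d : K) :=
          (map_mul (algebraMap (𝓞 K) K) _ d).trans (by rw [map_natCast, Nat.cast_pow])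
        rw [← h4, h2, h5]
      have h6 := congrArg τ h3
      rw [map_sub, map_one, map_mul, map_pow, map_natCast] at h6
      exact h6
    rw [h1, norm_mul, norm_pow, hl]
    exact mul_le_of_le_one_right (by positivity) (norm_emb_le τ d)
  have e : τ y = τ (a : K) * (τ (b : K))⁻¹ := by
    rw [hab, map_div₀, div_eq_mul_inv]
  rw [e]
  have h7 := z0_inv hj1 (near b hb)
  exact (norm_mul_sub_one (z0_norm (h7.trans_lt hj1)) (near a ha) h7).trans hjε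

/-- PROOF. `emb_near` with `min ε (1/2)`, `near_zpow`, `near_prod`. -/
theorem prod_near {K : Type} [Field K] [NumberField K] {Ω : Type} [NormedField Ω] [IsUltrametricDist Ω] [CharZero Ω] [IsAlgClosed Ω]
    {l : ℕ} [Fact l.Prime] (hl : ‖(l : Ω)‖ = (l : ℝ)⁻¹) (S : Finset (Pr K)) (hSl : ∀ v : Pr K, (l : 𝓞 K) ∈ v.asIdeal → v ∈ S)
    (e : (K →+* Ω) → ℤ) {ε : ℝ} (hε : 0 < ε) : ∃ N : ℕ, ∀ y : K, Ray S N y → ‖∏ τ : K →+* Ω, τ y ^ e τ - 1‖ ≤ ε := by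
  obtain ⟨N, hN⟩ := emb_near (K := K) hl S hSl (show (0 : ℝ) < min ε (1 / 2) from lt_min hε (by norm_num))
  have h1 : min ε (1 / 2) < 1 := (min_le_right _ _).trans_lt (by norm_num)
  have h0 : 0 ≤ min ε (1 / 2) := le_min hε.le (by norm_num)
  refine ⟨N, fun y hy => (near_prod h0 h1 _ _ fun τ _ => near_zpow h0 h1 (hN y hy τ) _).trans (min_le_left _ _)⟩

end Pool.Agent.Lib.H84L
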